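import Mathlib

set_option autoImplicit false

namespace Pool.Agent.H497.TU

open MeasureTheory

open Polynomial in
theorem det_aeval_eq {n : ℕ} (A : Matrix (Fin n) (Fin n) ℂ) (α : Fin n → ℂ)
    (h : A.charpoly = ∏ l, (X - C (α l))) (p : ℂ[X]) :
    (aeval A p).det = ∏ l, p.eval (α l) := by
  have h1 : ∀ ζ : ℂ, (aeval A (X - C ζ)).det = ∏ l, (X - C ζ).eval (α l) := by
    intro ζ
    have e1 : aeval A (X - C ζ) = -(Matrix.scalar (Fin n) ζ - A) := by
      rw [map_sub, aeval_X, aeval_C, neg_sub]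
      rfl
    rw [e1, Matrix.det_neg, ← Matrix.eval_charpoly, h, eval_prod, Fintype.card_fin]
    simp only [eval_sub, eval_X, eval_C]
    have e2 : (-1 : ℂ) ^ n = ∏ _l : Fin n, (-1 : ℂ) := by simp
    rw [e2, ← Finset.prod_mul_distrib]
    exact Finset.prod_congr rfl fun l _ => by ring
  have h2 : ∀ s : Multiset ℂ, (aeval A (s.map (fun a => X - C a)).prod).det =
      ∏ l, ((s.map (fun a => X - C a)).prod).eval (α l) := by
    intro s
    induction s using Multiset.induction_on with
    | empty => simp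
    | cons a s ih =>
      rw [Multiset.map_cons, Multiset.prod_cons, map_mul, Matrix.det_mul, h1, ih,
        ← Finset.prod_mul_distrib]
      exact Finset.prod_congr rfl fun l _ => (eval_mul).symm
  have h3 := (IsAlgClosed.splits p).eq_prod_roots
  have h4 : aeval A p = p.leadingCoeff • aeval A (p.roots.map (fun a => X - C a)).prod := by
    conv_lhs => rw [h3]
    rw [map_mul, aeval_C, Algebra.smul_def]
  rw [h4, Matrix.det_smul, h2, Fintype.card_fin]
  have h5 : ∀ l, p.eval (α l) = p.leadingCoeff * ((p.roots.map (fun a => X - C a)).prod).eval (α l) := by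
    intro l
    conv_lhs => rw [h3]
    rw [eval_mul, eval_C]
  rw [Finset.prod_congr rfl fun l _ => h5 l, Finset.prod_mul_distrib, Finset.prod_const,
    Finset.card_univ, Fintype.card_fin]

open Polynomial in
theorem charpoly_pow_eq {n : ℕ} (A : Matrix (Fin n) (Fin n) ℂ) (α : Fin n → ℂ)
    (h : A.charpoly = ∏ l, (X - C (α l))) (e : ℕ) :
    (A ^ e).charpoly = ∏ l, (X - C (α l ^ e)) := by
  refine Polynomial.funext fun w => ?_
  rw [Matrix.eval_charpoly]
  have e1 : Matrix.scalar (Fin n) w - A ^ e = aeval A (C w - X ^ e) := by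
    rw [map_sub, map_pow, aeval_X, aeval_C]
    rfl
  rw [e1, det_aeval_eq A α h, eval_prod]
  simp

open Polynomial in
theorem trace_of_charpoly {n : ℕ} (A : Matrix (Fin n) (Fin n) ℂ) (α : Fin n → ℂ)
    (h : A.charpoly = ∏ l, (X - C (α l))) : A.trace = ∑ l, α l := by
  rw [Matrix.trace_eq_sum_roots_charpoly, h, Polynomial.roots_prod _ _ (Finset.prod_ne_zero_iff.2 fun l _ => X_sub_C_ne_zero _)]
  simp [Multiset.bind_singleton, List.sum_ofFn]

open Polynomial in
theorem exists_eig {n : ℕ} (A : Matrix (Fin n) (Fin n) ℂ) :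
    ∃ α : Fin n → ℂ, A.charpoly = ∏ l, (X - C (α l)) := by
  have h1 : Multiset.card A.charpoly.roots = n := by
    have h := (splits_iff_card_roots).1 (IsAlgClosed.splits A.charpoly)
    rw [h, Matrix.charpoly_natDegree_eq_dim, Fintype.card_fin]
  obtain ⟨L, hL⟩ := Quot.exists_rep A.charpoly.roots
  have hL' : (L : Multiset ℂ) = A.charpoly.roots := hL
  rw [← hL', Multiset.coe_card] at h1
  subst h1
  refine ⟨fun l => L.get l, ?_⟩
  have h2 := (IsAlgClosed.splits A.charpoly).eq_prod_roots
  rw [(Matrix.charpoly_monic A).leadingCoeff, C_1, one_mul, ← hL'] at h2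
  rw [h2, Multiset.map_coe, Multiset.prod_coe, ← List.prod_ofFn]
  congr 1
  conv_lhs => rw [← List.ofFn_get L]
  rw [List.map_ofFn]
  rfl

/-- the eigenvalues of a matrix (triangularise it over `ℂ`, e.g. `Matrix.schur_triangulation` or by induction, or use the
roots of the characteristic polynomial and the Cayley-Hamilton / `aeval` results in Mathlib) -/
theorem matrix_eig {n : ℕ} (A : Matrix (Fin n) (Fin n) ℂ) : ∃ α : Fin n → ℂ, (∀ l, A.charpoly.IsRoot (α l)) ∧
    (∀ e : ℕ, (A ^ e).trace = ∑ l, α l ^ e) ∧ ∀ z : ℂ, (1 - z • A).det = ∏ l, (1 - α l * z) := by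
  obtain ⟨α, h⟩ := exists_eig A
  refine ⟨α, fun l => ?_, fun e => ?_, fun z => ?_⟩
  · rw [Polynomial.IsRoot, h, Polynomial.eval_prod]
    exact Finset.prod_eq_zero (Finset.mem_univ l) (by simp)
  · exact trace_of_charpoly (A ^ e) _ (charpoly_pow_eq A α h e)
  · have e1 : 1 - z • A = Polynomial.aeval A (1 - Polynomial.C z * Polynomial.X) := by
      rw [map_sub, map_one, map_mul, Polynomial.aeval_X, Polynomial.aeval_C, Algebra.smul_def]
    rw [e1, det_aeval_eq A α h]
    refine Finset.prod_congr rfl fun l _ => ?_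
    rw [Polynomial.eval_sub, Polynomial.eval_one, Polynomial.eval_mul, Polynomial.eval_C,
      Polynomial.eval_X, mul_comm]

/-- the traces of the powers of a matrix with real characteristic polynomial are real -/
theorem trace_real_of_charpoly {n : ℕ} (A : Matrix (Fin n) (Fin n) ℂ)
    (h : A.charpoly.map (starRingEnd ℂ) = A.charpoly) (e : ℕ) : starRingEnd ℂ (A ^ e).trace = (A ^ e).trace := by
  obtain ⟨α, hα⟩ := exists_eig A
  have h1 : (A.map (starRingEnd ℂ)).charpoly = A.charpoly := by
    rw [← h]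
    exact (Matrix.charpoly_map A (starRingEnd ℂ))
  have h2 : starRingEnd ℂ (A ^ e).trace = ((A.map (starRingEnd ℂ)) ^ e).trace := by
    rw [AddMonoidHom.map_trace (starRingEnd ℂ : ℂ →+* ℂ) (A ^ e)]
    congr 1
    exact map_pow (RingHom.mapMatrix (starRingEnd ℂ)) A e
  rw [h2, trace_of_charpoly _ _ (charpoly_pow_eq _ α (h1.trans hα) e),
    trace_of_charpoly _ _ (charpoly_pow_eq _ α hα e)]


end Pool.Agent.H497.TU
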