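import Pool.Agent.H497.TU.Defs
import Pool.Agent.H497.TT.Euler

set_option autoImplicit false



namespace Pool.Agent.H497.TU

open MeasureTheory Pool.Agent.H497.TT


variable {𝓟 𝓧 : Type}

theorem geoU_le (q : ℕ) (hq : 2 ≤ q) (k : ℕ) : ∑ d ∈ Finset.range (k + 1), (q : ℝ) ^ d ≤ 2 * (q : ℝ) ^ k := by
  have hq' : (2 : ℝ) ≤ q := by exact_mod_cast hq
  induction k with
  | zero => simp
  | succ k ih =>
    rw [Finset.sum_range_succ]
    have : (0 : ℝ) < (q : ℝ) ^ k := by positivity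
    rw [pow_succ]
    nlinarith

theorem divU_le (q : ℕ) (hq : 2 ≤ q) (k : ℕ) : ∑ d ∈ k.divisors, (q : ℝ) ^ d ≤ 2 * (q : ℝ) ^ k := by
  refine le_trans (Finset.sum_le_sum_of_subset_of_nonneg (t := Finset.range (k + 1)) ?_ ?_) (geoU_le q hq k)
  · intro d hd
    rw [Finset.mem_range]
    exact Nat.lt_succ_of_le (Nat.divisor_le hd)
  · intros; positivity

theorem prU_le {𝓟 𝓧 : Type} (S : TSys 𝓟 𝓧) {d : ℕ} (hd : d ≠ 0) :
    (d : ℝ) * (S.Pr d).card ≤ (1 + S.A) * (S.q : ℝ) ^ d := by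
  have h := (abs_le.1 (S.Pr_card d hd)).2
  have hq : (1 : ℝ) ≤ S.q := by
    have := S.hq
    exact_mod_cast (by omega : 1 ≤ S.q)
  have h1 : √(S.q : ℝ) ≤ S.q := by
    rw [Real.sqrt_le_left (by linarith)]
    nlinarith
  have h2 : √(S.q : ℝ) ^ d ≤ (S.q : ℝ) ^ d := pow_le_pow_left₀ (Real.sqrt_nonneg _) h1 d
  have h3 : (S.A : ℝ) * √(S.q : ℝ) ^ d ≤ S.A * (S.q : ℝ) ^ d :=
    mul_le_mul_of_nonneg_left h2 (Nat.cast_nonneg _)
  linarith

theorem cardU_le {𝓟 𝓧 : Type} (S : TSys 𝓟 𝓧) {d : ℕ} (hd : d ≠ 0) :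
    ((S.Pr d).card : ℝ) ≤ (1 + S.A) * (S.q : ℝ) ^ d := by
  refine le_trans ?_ (prU_le S hd)
  have h1 : (1 : ℝ) ≤ d := by exact_mod_cast Nat.pos_of_ne_zero hd
  have h2 : (0 : ℝ) ≤ ((S.Pr d).card : ℝ) := Nat.cast_nonneg _
  nlinarith

theorem fibU_hasSum {𝓟 𝓧 : Type} (S : TSys 𝓟 𝓧) {M : Type} [AddCommMonoid M] [TopologicalSpace M]
    (h : 𝓟 → ℕ → M) {k : ℕ} (hk : k ≠ 0) :
    HasSum (fun c : {x : 𝓟 × ℕ | S.deg x.1 * (x.2 + 1) = k} =>
      h c.1.1 (c.1.2 + 1)) (∑ d ∈ k.divisors, ∑ P ∈ S.Pr d, h P (k / d)) := by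
  classical
  let e : {y : Σ _ : ℕ, 𝓟 // y ∈ k.divisors.sigma S.Pr} ≃
      {x : 𝓟 × ℕ | S.deg x.1 * (x.2 + 1) = k} :=
    { toFun := fun y => ⟨(y.1.2, k / y.1.1 - 1), by
          obtain ⟨⟨d, P⟩, hy⟩ := y
          rw [Finset.mem_sigma] at hy
          have h1 := (S.mem_Pr d P).1 hy.2
          have h2 := Nat.dvd_of_mem_divisors hy.1
          have h3 := Nat.pos_of_mem_divisors hy.1
          simp only at h1 h2 h3
          simp only [Set.mem_ofPred_eq, h1]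
          have h4 : 1 ≤ k / d := (Nat.one_le_div_iff h3).2 (Nat.le_of_dvd (Nat.pos_of_ne_zero hk) h2)
          rw [Nat.sub_add_cancel h4, Nat.mul_div_cancel' h2]⟩
      invFun := fun x => ⟨⟨S.deg x.1.1, x.1.1⟩, by
          obtain ⟨⟨P, e⟩, hx⟩ := x
          rw [Finset.mem_sigma]
          simp only [Set.mem_ofPred_eq] at hx
          exact ⟨Nat.mem_divisors.2 ⟨⟨e + 1, hx.symm⟩, hk⟩, (S.mem_Pr _ _).2 rfl⟩⟩
      left_inv := by
        rintro ⟨⟨d, P⟩, hy⟩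
        have hy' := hy
        rw [Finset.mem_sigma] at hy'
        have h1 : S.deg P = d := (S.mem_Pr d P).1 hy'.2
        subst h1
        rfl
      right_inv := by
        rintro ⟨⟨P, e⟩, hx⟩
        simp only [Set.mem_ofPred_eq] at hx
        apply Subtype.ext
        simp only [Prod.mk.injEq, true_and]
        have h1 : 0 < S.deg P := S.deg_pos P
        rw [← hx, Nat.mul_div_cancel_left _ h1]
        omega }
  rw [← e.hasSum_iff]
  have h1 := Finset.hasSum (k.divisors.sigma S.Pr) (fun y : Σ _ : ℕ, 𝓟 => h y.2 (k / y.1))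
  rw [Finset.sum_sigma] at h1
  refine Eq.mp (congrArg (fun F => HasSum F _) ?_) h1
  symm
  funext y
  obtain ⟨⟨d, P⟩, hy⟩ := y
  rw [Finset.mem_sigma] at hy
  have h2 := Nat.dvd_of_mem_divisors hy.1
  have h3 := Nat.pos_of_mem_divisors hy.1
  simp only at h2 h3
  have h4 : 1 ≤ k / d := (Nat.one_le_div_iff h3).2 (Nat.le_of_dvd (Nat.pos_of_ne_zero hk) h2)
  simp only [e, Function.comp, Equiv.coe_fn_mk]
  rw [Nat.sub_add_cancel h4]

theorem euler_genU {𝓟 𝓧 : Type} (S : TSys 𝓟 𝓧) {ι : Type} [Fintype ι] (γ : 𝓟 → ι → ℂ) (H : 𝓟 → ℝ)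
    (hγ : ∀ P i, ‖γ P i‖ ≤ H P) (hH0 : ∀ P, 0 ≤ H P) (T : ℕ → ℂ)
    (hT : ∀ k : ℕ, k ≠ 0 → T k =
      ∑ d ∈ k.divisors, (d : ℂ) * ∑ P ∈ S.Pr d, ∑ i, γ P i ^ (k / d)) (u : ℂ) (ρ : ℝ)
    (hρ : ρ < 1) (hHu : ∀ P, H P * ‖u‖ ^ S.deg P ≤ ρ) (hρ0 : 0 ≤ ρ)
    (hsP : Summable fun P => H P * ‖u‖ ^ S.deg P) :
    HasProd (fun P : 𝓟 => ∏ i, (1 - γ P i * u ^ S.deg P)⁻¹)
      (Complex.exp (∑' k : ℕ, T (k + 1) * u ^ (k + 1) / ((k + 1 : ℕ) : ℂ))) := by
  classical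
  set n : ℕ := Fintype.card ι with hn
  set r : ℝ := ‖u‖ with hr
  have hr0 : 0 ≤ r := norm_nonneg u
  have hpow : ∀ (P : 𝓟) (e : ℕ), ‖∑ i, γ P i ^ e‖ ≤ n * H P ^ e := by
    intro P e
    refine le_trans (norm_sum_le _ _) ?_
    refine le_trans (Finset.sum_le_sum (g := fun _ => H P ^ e) fun i _ => ?_) ?_
    · rw [norm_pow]
      exact pow_le_pow_left₀ (norm_nonneg _) (hγ P i) e
    · simp [hn]
  set f : 𝓟 × ℕ → ℂ := fun x =>
    (∑ i, γ x.1 i ^ (x.2 + 1)) * u ^ (S.deg x.1 * (x.2 + 1)) / ((x.2 + 1 : ℕ) : ℂ)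
    with hf
  set s : ℕ → Set (𝓟 × ℕ) :=
    fun k => {x | S.deg x.1 * (x.2 + 1) = k} with hs
  have hempty : IsEmpty (s 0) := by
    constructor
    rintro ⟨⟨P, e⟩, hx⟩
    simp only [hs, Set.mem_ofPred_eq] at hx
    have hP := S.deg_pos P
    rcases Nat.mul_eq_zero.1 hx with h | h
    · omega
    · omega
  have hsum0 : Summable (fun x : 𝓟 × ℕ => (n : ℝ) * ((H x.1 * r ^ S.deg x.1) * ρ ^ x.2)) := by
    refine Summable.mul_left _ ?_
    exact hsP.mul_of_nonneg (summable_geometric_of_lt_one hρ0 hρ)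
      (fun P => mul_nonneg (hH0 P) (pow_nonneg hr0 _)) (fun e => pow_nonneg hρ0 _)
  have hsumf : Summable f := by
    refine Summable.of_norm_bounded hsum0 fun x => ?_
    rw [hf]
    simp only
    rw [norm_div, norm_mul, norm_pow u, Complex.norm_natCast]
    have h1 : (1 : ℝ) ≤ ((x.2 + 1 : ℕ) : ℝ) := by
      push_cast
      linarith [(Nat.cast_nonneg x.2 : (0 : ℝ) ≤ x.2)]
    refine le_trans (div_le_self (by positivity) h1) ?_
    have hz0 : 0 ≤ H x.1 * r ^ S.deg x.1 := mul_nonneg (hH0 _) (pow_nonneg hr0 _)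
    calc ‖∑ i, γ x.1 i ^ (x.2 + 1)‖ * ‖u‖ ^ (S.deg x.1 * (x.2 + 1)) ≤
          (n * H x.1 ^ (x.2 + 1)) * r ^ (S.deg x.1 * (x.2 + 1)) :=
          mul_le_mul_of_nonneg_right (hpow _ _) (by positivity)
      _ = n * (H x.1 * r ^ S.deg x.1) ^ (x.2 + 1) := by rw [mul_pow, ← pow_mul]; ring
      _ = n * ((H x.1 * r ^ S.deg x.1) * (H x.1 * r ^ S.deg x.1) ^ x.2) := by rw [pow_succ]; ring
      _ ≤ n * ((H x.1 * r ^ S.deg x.1) * ρ ^ x.2) := by
          have := pow_le_pow_left₀ hz0 (hHu x.1) x.2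
          gcongr
  have hfib : ∀ k : ℕ, ∑' c : (fun x : 𝓟 × ℕ =>
      S.deg x.1 * (x.2 + 1)) ⁻¹' {k}, f c = T k * u ^ k / (k : ℂ) := by
    intro k
    change ∑' c : s k, f c = T k * u ^ k / (k : ℂ)
    rcases Nat.eq_zero_or_pos k with rfl | hk
    · rw [tsum_empty]; simp
    · have h1 := fibU_hasSum S (fun P e => (∑ i, γ P i ^ e) * u ^ (S.deg P * e) / (e : ℂ)) hk.ne'
      rw [hf]
      refine h1.tsum_eq.trans ?_
      rw [hT k hk.ne', Finset.sum_mul, Finset.sum_div]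
      refine Finset.sum_congr rfl fun d hd => ?_
      have hd1 := Nat.dvd_of_mem_divisors hd
      have hd2 : (d : ℂ) ≠ 0 := by exact_mod_cast (Nat.pos_of_mem_divisors hd).ne'
      have hk2 : (k : ℂ) ≠ 0 := by exact_mod_cast hk.ne'
      rw [Finset.mul_sum, Finset.sum_mul, Finset.sum_div]
      refine Finset.sum_congr rfl fun P hP => ?_
      rw [(S.mem_Pr d P).1 hP, Nat.mul_div_cancel' hd1, Nat.cast_div hd1 hd2]
      field_simp
  have hG : HasSum (fun k : ℕ => T k * u ^ k / (k : ℂ)) (∑' x, f x) := by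
    have h1 := hsumf.hasSum.tsum_fiberwise (fun x : 𝓟 × ℕ => S.deg x.1 * (x.2 + 1))
    simpa only [hfib] using h1
  have hG2 : ∑' x, f x = ∑' k : ℕ, T (k + 1) * u ^ (k + 1) / ((k + 1 : ℕ) : ℂ) := by
    rw [← hasSum_nat_add_iff' 1] at hG
    simp only [Finset.range_one, Finset.sum_singleton, Nat.cast_zero, div_zero, sub_zero] at hG
    exact hG.tsum_eq.symm
  have hz : ∀ (P : 𝓟) (i : ι), ‖γ P i * u ^ S.deg P‖ < 1 := by
    intro P i
    rw [norm_mul, norm_pow]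
    calc _ ≤ H P * ‖u‖ ^ S.deg P := by
          gcongr
          exact hγ P i
      _ ≤ ρ := hHu P
      _ < 1 := hρ
  have hloc : ∀ P : 𝓟,
      HasSum (fun e : ℕ => f (P, e)) (∑ i, -Complex.log (1 - γ P i * u ^ S.deg P)) := by
    intro P
    have h1 : ∀ i : ι, HasSum (fun e : ℕ => (γ P i * u ^ S.deg P) ^ (e + 1) / ((e + 1 : ℕ) : ℂ))
        (-Complex.log (1 - γ P i * u ^ S.deg P)) := by
      intro i
      have h2 := Complex.hasSum_taylorSeries_neg_log (hz P i)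
      rw [← hasSum_nat_add_iff' 1] at h2
      simpa using h2
    have h3 := hasSum_sum (s := Finset.univ) (fun i _ => h1 i)
    have h4 : (fun e : ℕ => f (P, e)) =
        fun e : ℕ => ∑ i, (γ P i * u ^ S.deg P) ^ (e + 1) / ((e + 1 : ℕ) : ℂ) := by
      funext e
      rw [hf]
      simp only
      rw [Finset.sum_mul, Finset.sum_div]
      refine Finset.sum_congr rfl fun i _ => ?_
      rw [mul_pow, pow_mul]
    rw [h4]
    exact h3
  have hfin := (hsumf.hasSum.prod_fiberwise hloc).cexp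
  rw [hG2] at hfin
  have h5 : (fun P : 𝓟 => ∏ i, (1 - γ P i * u ^ S.deg P)⁻¹) =
      Complex.exp ∘ fun P : 𝓟 => ∑ i, -Complex.log (1 - γ P i * u ^ S.deg P) := by
    funext P
    simp only [Function.comp]
    rw [Complex.exp_sum]
    refine Finset.prod_congr rfl fun i _ => ?_
    have h1 : (1 - γ P i * u ^ S.deg P) ≠ 0 := by
      intro h
      have h2 := hz P i
      rw [← sub_eq_zero.1 h, norm_one] at h2
      exact lt_irrefl _ h2
    rw [Complex.exp_neg, Complex.exp_log h1]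
  rw [h5]
  exact hfin

/-- Adapt `euler_gen` / `eulerT` in Pool/Agent/H497/TT/Euler.lean (origin/main), which treats the case `T = ∅` and then
rewrites `exp (∑' ...)` as a polynomial (`FF.exp_eq` near the end; here this step is not needed). The local parameters at
`P ∈ T` are of norm at most `h P ≤ q^(σ deg P)`, so `‖α u^deg P‖ ≤ q^((σ-1) deg P) < 1`, and `∑_P h P ‖u‖^(deg P)` converges:
`∑_{P ∈ TPr k} h P ≤ C q^(σ k)` (`Thin.sum`, `k ≥ 1`), `(q^σ ‖u‖)^k` is summable; for `P ∉ T` by `Pr_card`.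
`S.par` has norm at most `1`. `∑_P ∑_e` is absolutely summable, regroup by `k = e deg P`. -/
theorem eulerU (S : TSys 𝓟 𝓧) {σ : ℝ} (hσ0 : 0 ≤ σ) (hσ : σ < 1) {T : Set 𝓟} {h : 𝓟 → ℝ} {C : ℕ} (hT : Thin S σ T h C)
    {n : ℕ} (α : 𝓟 → Fin n → ℂ) (hα : ∀ P, P ∉ T → ∀ l, ‖α P l‖ ≤ 1) (hα' : ∀ P, P ∈ T → ∀ l, ‖α P l‖ ≤ h P) (χ : 𝓧)
    (u : ℂ) (hu : ‖u‖ < 1 / S.q) :
    HasProd (fun P : 𝓟 => ∏ j, ∏ l, (1 - α P l * (S.par χ P j * u ^ S.deg P))⁻¹)
      (Complex.exp (∑' k : ℕ, S.TS (fun P e => ∑ l, α P l ^ e) χ (k + 1) * u ^ (k + 1) / ((k + 1 : ℕ) : ℂ))) := by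
  classical
  have hq2 : 2 ≤ S.q := S.hq
  have hq0 : (0 : ℝ) < S.q := by exact_mod_cast (by omega : 0 < S.q)
  have hq1 : (1 : ℝ) ≤ S.q := by exact_mod_cast (by omega : 1 ≤ S.q)
  have hr1 : S.q * ‖u‖ < 1 := by
    rw [lt_div_iff₀ hq0] at hu
    linarith
  have hr0 : 0 ≤ ‖u‖ := norm_nonneg u
  set H : 𝓟 → ℝ := fun P => if P ∈ T then h P else 1 with hH
  have hH0 : ∀ P, 0 ≤ H P := by
    intro P
    rw [hH]
    simp only
    split_ifs
    · exact le_trans zero_le_one (hT.one_le P)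
    · exact zero_le_one
  have hqs : (1 : ℝ) ≤ (S.q : ℝ) ^ σ := Real.one_le_rpow hq1 hσ0
  have hqs1 : (S.q : ℝ) ^ σ ≤ S.q := by
    calc (S.q : ℝ) ^ σ ≤ (S.q : ℝ) ^ (1 : ℝ) := Real.rpow_le_rpow_of_exponent_le hq1 hσ.le
      _ = S.q := Real.rpow_one _
  have hpowσ : ∀ k : ℕ, (S.q : ℝ) ^ (σ * k) = ((S.q : ℝ) ^ σ) ^ k := by
    intro k
    rw [Real.rpow_mul hq0.le, Real.rpow_natCast]
  have hHle : ∀ P, H P ≤ ((S.q : ℝ) ^ σ) ^ S.deg P := by
    intro P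
    rw [hH]
    simp only
    split_ifs with hP
    · have := hT.le P
      rwa [hpowσ] at this
    · exact one_le_pow₀ hqs
  have hρ1 : (S.q : ℝ) ^ σ * ‖u‖ < 1 :=
    lt_of_le_of_lt (mul_le_mul_of_nonneg_right hqs1 hr0) hr1
  have hρ0 : 0 ≤ (S.q : ℝ) ^ σ * ‖u‖ := mul_nonneg (by linarith) hr0
  have hHu : ∀ P, H P * ‖u‖ ^ S.deg P ≤ (S.q : ℝ) ^ σ * ‖u‖ := by
    intro P
    calc H P * ‖u‖ ^ S.deg P ≤ ((S.q : ℝ) ^ σ) ^ S.deg P * ‖u‖ ^ S.deg P :=
          mul_le_mul_of_nonneg_right (hHle P) (pow_nonneg hr0 _)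
      _ = ((S.q : ℝ) ^ σ * ‖u‖) ^ S.deg P := (mul_pow _ _ _).symm
      _ ≤ ((S.q : ℝ) ^ σ * ‖u‖) ^ 1 := pow_le_pow_of_le_one hρ0 hρ1.le (S.deg_pos P)
      _ = (S.q : ℝ) ^ σ * ‖u‖ := pow_one _
  have hsP : Summable fun P => H P * ‖u‖ ^ S.deg P := by
    have hset : ∀ k : ℕ, {P : 𝓟 | S.deg P = k} = (↑(S.Pr k) : Set 𝓟) := by
      intro k
      ext P
      simp [S.mem_Pr]
    rw [summable_partition (s := fun k : ℕ => (↑(S.Pr k) : Set 𝓟))
      (fun P => mul_nonneg (hH0 P) (pow_nonneg hr0 _))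
      (fun P => ⟨S.deg P, by simp [S.mem_Pr], fun y hy => by
        simpa [S.mem_Pr, eq_comm] using hy⟩)]
    constructor
    · intro k
      exact Summable.of_finite
    · have hval : ∀ k : ℕ, ∑' P : (↑(S.Pr k) : Set 𝓟), H P * ‖u‖ ^ S.deg P
          = ∑ P ∈ S.Pr k, H P * ‖u‖ ^ S.deg P := fun k =>
        Finset.tsum_subtype (S.Pr k) (fun P => H P * ‖u‖ ^ S.deg P)
      refine Summable.of_nonneg_of_le (fun k => tsum_nonneg fun P => mul_nonneg (hH0 _)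
        (pow_nonneg hr0 _)) (fun k => ?_)
        ((summable_geometric_of_lt_one (mul_nonneg hq0.le hr0) hr1).mul_left
          (C + (1 + (S.A : ℝ))))
      rw [hval k]
      have h1 : ∑ P ∈ S.Pr k, H P * ‖u‖ ^ S.deg P = (∑ P ∈ S.Pr k, H P) * ‖u‖ ^ k := by
        rw [Finset.sum_mul]
        refine Finset.sum_congr rfl fun P hP => ?_
        rw [(S.mem_Pr k P).1 hP]
      rw [h1]
      rcases Nat.eq_zero_or_pos k with rfl | hk
      · have hemp : S.Pr 0 = ∅ := by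
          rw [Finset.eq_empty_iff_forall_notMem]
          intro P hP
          have := (S.mem_Pr 0 P).1 hP
          have := S.deg_pos P
          omega
        rw [hemp]
        simp
        positivity
      · have hk1 : (1 : ℝ) ≤ k := by exact_mod_cast hk
        have h2 : ∑ P ∈ S.Pr k, H P ≤ ∑ P ∈ TPr S T k, h P + (S.Pr k).card := by
          have h3 : ∀ P ∈ S.Pr k, H P ≤ (if P ∈ T then h P else 0) + 1 := by
            intro P _
            rw [hH]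
            simp only
            split_ifs
            · linarith
            · linarith
          refine le_trans (Finset.sum_le_sum h3) ?_
          rw [Finset.sum_add_distrib, Finset.sum_const, nsmul_eq_mul, mul_one]
          unfold TPr
          rw [Finset.sum_filter]
        have h4 : ∑ P ∈ TPr S T k, h P ≤ C * (S.q : ℝ) ^ (σ * k) := by
          refine le_trans ?_ (hT.sum k hk.ne')
          have : 0 ≤ ∑ P ∈ TPr S T k, h P :=
            Finset.sum_nonneg fun P _ => le_trans zero_le_one (hT.one_le P)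
          nlinarith
        have h5 : (S.q : ℝ) ^ (σ * k) ≤ (S.q : ℝ) ^ k := by
          rw [hpowσ]
          exact pow_le_pow_left₀ (by linarith) hqs1 k
        have h6 := cardU_le S hk.ne'
        have h7 : ∑ P ∈ S.Pr k, H P ≤ (C + (1 + (S.A : ℝ))) * (S.q : ℝ) ^ k := by
          have : (C : ℝ) * (S.q : ℝ) ^ (σ * k) ≤ C * (S.q : ℝ) ^ k :=
            mul_le_mul_of_nonneg_left h5 (Nat.cast_nonneg _)
          linarith
        calc (∑ P ∈ S.Pr k, H P) * ‖u‖ ^ k ≤ ((C + (1 + (S.A : ℝ))) * (S.q : ℝ) ^ k) * ‖u‖ ^ k :=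
              mul_le_mul_of_nonneg_right h7 (pow_nonneg hr0 _)
          _ = (C + (1 + (S.A : ℝ))) * (S.q * ‖u‖) ^ k := by rw [mul_pow]; ring
  have hγ : ∀ (P : 𝓟) (x : Fin S.R × Fin n), ‖α P x.2 * S.par χ P x.1‖ ≤ H P := by
    intro P x
    rw [norm_mul]
    have h1 : ‖α P x.2‖ ≤ H P := by
      rw [hH]
      simp only
      split_ifs with hP
      · exact hα' P hP x.2
      · exact hα P hP x.2
    calc ‖α P x.2‖ * ‖S.par χ P x.1‖ ≤ H P * 1 :=
          mul_le_mul h1 (S.par_le χ P x.1) (norm_nonneg _) (hH0 P)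
      _ = H P := mul_one _
  have h1 := euler_genU S (fun P (x : Fin S.R × Fin n) => α P x.2 * S.par χ P x.1) H hγ hH0
    (fun k => S.TS (fun P e => ∑ l, α P l ^ e) χ k)
    (fun k hk => by
      unfold TSys.TS TSys.lam
      refine Finset.sum_congr rfl fun d _ => ?_
      congr 1
      refine Finset.sum_congr rfl fun P _ => ?_
      rw [Fintype.sum_prod_type, Finset.sum_mul_sum, Finset.sum_comm]
      refine Finset.sum_congr rfl fun j _ => Finset.sum_congr rfl fun i _ => ?_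
      rw [mul_pow]) u _ hρ1 hHu hρ0 hsP
  have h2 : (fun P : 𝓟 => ∏ j, ∏ l, (1 - α P l * (S.par χ P j * u ^ S.deg P))⁻¹) =
      fun P : 𝓟 => ∏ x : Fin S.R × Fin n, (1 - α P x.2 * S.par χ P x.1 * u ^ S.deg P)⁻¹ := by
    funext P
    rw [Fintype.prod_prod_type]
    refine Finset.prod_congr rfl fun j _ => Finset.prod_congr rfl fun i _ => ?_
    rw [mul_assoc]
  rw [h2]
  exact h1


end Pool.Agent.H497.TU
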