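import Pool.Agent.H497.TU.Defs

set_option autoImplicit false

namespace Pool.Agent.H497.TU

open MeasureTheory


/-- `e^(2 π i a / (m 2^l))` are dense in the unit circle -/
theorem dense_roots (m : ℕ) (hm : 1 ≤ m) (z₀ : ℂ) (hz : ‖z₀‖ = 1) (ε : ℝ) (hε : 0 < ε) :
    ∃ (l : ℕ) (z : ℂ), z ^ (m * 2 ^ l) = 1 ∧ z ≠ z₀ ∧ ‖z - z₀‖ < ε := by
  obtain ⟨x, hx⟩ : ∃ x : ℝ, Complex.exp (x * Complex.I) = z₀ := by
    refine ⟨Complex.arg z₀, ?_⟩
    have h := Complex.norm_mul_exp_arg_mul_I z₀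
    rwa [hz, Complex.ofReal_one, one_mul] at h
  have hpi := Real.pi_pos
  obtain ⟨l, hl⟩ : ∃ l : ℕ, max 2 (2 * Real.pi / ε + 1) < (2:ℝ) ^ l :=
    pow_unbounded_of_one_lt _ (by norm_num)
  have hm' : (1:ℝ) ≤ m := by exact_mod_cast hm
  obtain ⟨N, hN⟩ : ∃ N : ℝ, N = (m:ℝ) * 2 ^ l := ⟨_, rfl⟩
  have hNl : (2:ℝ) ^ l ≤ N := by
    rw [hN]
    have : (0:ℝ) < 2 ^ l := by positivity
    nlinarith
  have hN2 : 2 < N := (le_max_left _ _).trans_lt (hl.trans_le hNl)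
  have hN3 : 2 * Real.pi / ε + 1 < N := (le_max_right _ _).trans_lt (hl.trans_le hNl)
  have hN0 : 0 < N := by linarith
  obtain ⟨a, ha⟩ : ∃ a : ℤ, a = ⌊x / (2 * Real.pi) * N⌋ + 1 := ⟨_, rfl⟩
  have ha1 : x / (2 * Real.pi) * N < a := by
    rw [ha]; push_cast; exact Int.lt_floor_add_one _
  have ha2 : (a:ℝ) ≤ x / (2 * Real.pi) * N + 1 := by
    rw [ha]; push_cast
    have := Int.floor_le (x / (2 * Real.pi) * N)
    linarith
  obtain ⟨y, hy⟩ : ∃ y : ℝ, y = 2 * Real.pi * a / N := ⟨_, rfl⟩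
  have hxN : x = 2 * Real.pi * (x / (2 * Real.pi) * N) / N := by
    field_simp
  have hxy : 0 < y - x := by
    have : y - x = 2 * Real.pi * (a - x / (2 * Real.pi) * N) / N := by
      rw [hy]
      field_simp
    rw [this]
    have : 0 < a - x / (2 * Real.pi) * N := by linarith
    positivity
  have hyx : y - x ≤ 2 * Real.pi / N := by
    have : y - x = 2 * Real.pi * (a - x / (2 * Real.pi) * N) / N := by
      rw [hy]
      field_simp
    rw [this]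
    have h1 : a - x / (2 * Real.pi) * N ≤ 1 := by linarith
    have h2 : 2 * Real.pi * (a - x / (2 * Real.pi) * N) ≤ 2 * Real.pi := by nlinarith
    gcongr
  have hyx2 : y - x < 2 * Real.pi := by
    refine hyx.trans_lt ?_
    rw [div_lt_iff₀ hN0]
    nlinarith
  have hyxe : y - x < ε := by
    refine hyx.trans_lt ?_
    rw [div_lt_iff₀ hN0]
    have h1 : 2 * Real.pi / ε < N := by linarith
    rw [div_lt_iff₀ hε] at h1
    linarith
  refine ⟨l, Complex.exp (y * Complex.I), ?_, ?_, ?_⟩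
  · rw [← Complex.exp_nat_mul, Complex.exp_eq_one_iff]
    refine ⟨a, ?_⟩
    have h1 : (N : ℂ) ≠ 0 := Complex.ofReal_ne_zero.2 hN0.ne'
    have h2 : (((m * 2 ^ l : ℕ)) : ℂ) = (N : ℂ) := by
      rw [hN]; push_cast; rfl
    rw [h2, hy]
    push_cast
    field_simp
  · rw [← hx]
    intro h
    rw [Complex.exp_eq_exp_iff_exists_int] at h
    obtain ⟨n, hn⟩ := h
    have h1 : ((y - x : ℝ) : ℂ) * Complex.I = ((n * (2 * Real.pi) : ℝ) : ℂ) * Complex.I := by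
      push_cast
      linear_combination hn
    have h2 := mul_right_cancel₀ Complex.I_ne_zero h1
    have h3 : y - x = n * (2 * Real.pi) := by exact_mod_cast h2
    rw [h3] at hxy hyx2
    have h4 : (0:ℝ) < n := by
      by_contra h5
      have h6 : (n:ℝ) ≤ 0 := not_lt.1 h5
      nlinarith
    have h5 : (n:ℝ) < 1 := by
      by_contra h6
      have h7 : (1:ℝ) ≤ n := not_lt.1 h6
      nlinarith
    have h6 : 0 < n := by exact_mod_cast h4
    have h7 : n < 1 := by exact_mod_cast h5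
    omega
  · rw [← hx]
    have e : Complex.exp (y * Complex.I) - Complex.exp (x * Complex.I) =
        Complex.exp (x * Complex.I) * (Complex.exp (((y - x : ℝ) : ℂ) * Complex.I) - 1) := by
      rw [mul_sub, ← Complex.exp_add, mul_one]
      congr 2
      push_cast
      ring
    rw [e, norm_mul, Complex.norm_exp_ofReal_mul_I, one_mul]
    refine lt_of_le_of_lt ?_ hyxe
    have h1 := Real.norm_exp_I_mul_ofReal_sub_one_le (x := y - x)
    rw [mul_comm Complex.I] at h1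
    rw [Real.norm_eq_abs, abs_of_pos hxy] at h1
    exact h1

/-- bound for all coefficients -/
theorem lac_bound (r : ℝ) (hr : 0 < r) (m : ℕ) (k0 : ℕ) (T : ℕ → ℂ)
    (hT : ∀ k, k0 ≤ k → (∃ j : ℕ, k = m * 2 ^ j) → T k = k * ((r : ℂ)⁻¹) ^ k)
    (hT' : ∀ k, k0 ≤ k → (¬ ∃ j : ℕ, k = m * 2 ^ j) → T k = 0) :
    ∃ A : ℝ, 0 ≤ A ∧ ∀ k : ℕ, ‖T (k + 1)‖ ≤ A * ((k + 1 : ℕ) : ℝ) * (r⁻¹) ^ (k + 1) := by
  refine ⟨1 + ∑ k ∈ Finset.range k0, ‖T k‖ * r ^ k, by positivity, ?_⟩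
  have hS : 0 ≤ ∑ k ∈ Finset.range k0, ‖T k‖ * r ^ k := by positivity
  intro k
  have hk1 : (1:ℝ) ≤ ((k + 1 : ℕ) : ℝ) := by exact_mod_cast Nat.succ_le_succ (Nat.zero_le k)
  have hrk : 0 < (r⁻¹) ^ (k + 1) := by positivity
  by_cases h : k0 ≤ k + 1
  · have h1 : ‖T (k + 1)‖ ≤ ((k + 1 : ℕ) : ℝ) * (r⁻¹) ^ (k + 1) := by
      by_cases hj : ∃ j : ℕ, k + 1 = m * 2 ^ j
      · rw [hT _ h hj, norm_mul, norm_pow, norm_inv, Complex.norm_natCast, Complex.norm_real,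
          Real.norm_eq_abs, abs_of_pos hr]
      · rw [hT' _ h hj, norm_zero]
        positivity
    refine h1.trans ?_
    have h2 : 0 < ((k + 1 : ℕ) : ℝ) * (r⁻¹) ^ (k + 1) := by positivity
    nlinarith
  · have hmem : k + 1 ∈ Finset.range k0 := Finset.mem_range.2 (not_le.1 h)
    have h1 : ‖T (k + 1)‖ * r ^ (k + 1) ≤ ∑ k ∈ Finset.range k0, ‖T k‖ * r ^ k :=
      Finset.single_le_sum (f := fun k => ‖T k‖ * r ^ k) (fun i _ => by positivity) hmem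
    have h2 : ‖T (k + 1)‖ = ‖T (k + 1)‖ * r ^ (k + 1) * (r⁻¹) ^ (k + 1) := by
      rw [mul_assoc, ← mul_pow, mul_inv_cancel₀ hr.ne', one_pow, mul_one]
    rw [h2]
    have h3 : ‖T (k + 1)‖ * r ^ (k + 1) ≤
        (1 + ∑ k ∈ Finset.range k0, ‖T k‖ * r ^ k) * ((k + 1 : ℕ) : ℝ) := by nlinarith
    exact mul_le_mul_of_nonneg_right h3 hrk.le

/-- data for the term by term differentiation -/
theorem lac_term (r : ℝ) (hr : 0 < r) (m : ℕ) (k0 : ℕ) (T : ℕ → ℂ)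
    (hT : ∀ k, k0 ≤ k → (∃ j : ℕ, k = m * 2 ^ j) → T k = k * ((r : ℂ)⁻¹) ^ k)
    (hT' : ∀ k, k0 ≤ k → (¬ ∃ j : ℕ, k = m * 2 ^ j) → T k = 0) (ρ : ℝ) (hρ : 0 < ρ) (hρr : ρ < r) :
    ∃ b : ℕ → ℝ, Summable b ∧ ∀ k : ℕ, ∀ u ∈ Metric.ball (0:ℂ) ρ,
      ‖T (k + 1) * u ^ (k + 1) / ((k + 1 : ℕ) : ℂ)‖ ≤ b k := by
  obtain ⟨A, hA, hb⟩ := lac_bound r hr m k0 T hT hT'
  refine ⟨fun k => A * (ρ / r) ^ (k + 1), ?_, ?_⟩
  · have h1 : Summable fun k : ℕ => (ρ / r) ^ k :=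
      summable_geometric_of_lt_one (by positivity) ((div_lt_one hr).2 hρr)
    exact ((summable_nat_add_iff 1).2 h1).mul_left A
  · intro k u hu
    have hu' : ‖u‖ < ρ := mem_ball_zero_iff.1 hu
    have hk1 : (0:ℝ) < ((k + 1 : ℕ) : ℝ) := by exact_mod_cast Nat.succ_pos k
    rw [norm_div, norm_mul, norm_pow, Complex.norm_natCast, div_le_iff₀ hk1]
    calc ‖T (k + 1)‖ * ‖u‖ ^ (k + 1)
        ≤ (A * ((k + 1 : ℕ) : ℝ) * (r⁻¹) ^ (k + 1)) * ρ ^ (k + 1) := by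
          gcongr
          exact hb k
      _ = A * (ρ / r) ^ (k + 1) * ((k + 1 : ℕ) : ℝ) := by
          rw [div_eq_mul_inv, mul_pow]; ring

/-- the series `∑ T_(k+1) u^(k+1) / (k+1)` converges and is holomorphic in the disc of radius `r` (all but finitely many
terms are those of `∑_j (u/r)^(m 2^j)`) -/
theorem lac_diff (r : ℝ) (hr : 0 < r) (m : ℕ) (hm : 1 ≤ m) (k0 : ℕ) (T : ℕ → ℂ)
    (hT : ∀ k, k0 ≤ k → (∃ j : ℕ, k = m * 2 ^ j) → T k = k * ((r : ℂ)⁻¹) ^ k)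
    (hT' : ∀ k, k0 ≤ k → (¬ ∃ j : ℕ, k = m * 2 ^ j) → T k = 0) :
    DifferentiableOn ℂ (fun u : ℂ => ∑' k : ℕ, T (k + 1) * u ^ (k + 1) / ((k + 1 : ℕ) : ℂ)) (Metric.ball 0 r) := by
  intro u hu
  have hu' : ‖u‖ < r := mem_ball_zero_iff.1 hu
  obtain ⟨ρ, h1, h2⟩ := exists_between hu'
  have hρ : 0 < ρ := (norm_nonneg u).trans_lt h1
  obtain ⟨b, hb, hb'⟩ := lac_term r hr m k0 T hT hT' ρ hρ h2
  have hd : DifferentiableOn ℂ
      (fun u : ℂ => ∑' k : ℕ, T (k + 1) * u ^ (k + 1) / ((k + 1 : ℕ) : ℂ)) (Metric.ball 0 ρ) :=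
    Complex.differentiableOn_tsum_of_summable_norm hb
      (fun k => (by fun_prop : Differentiable ℂ
        (fun u : ℂ => T (k + 1) * u ^ (k + 1) / ((k + 1 : ℕ) : ℂ))).differentiableOn)
      Metric.isOpen_ball hb'
  exact ((hd u (mem_ball_zero_iff.2 h1)).differentiableAt
    (Metric.isOpen_ball.mem_nhds (mem_ball_zero_iff.2 h1))).differentiableWithinAt

/-- the derivative is unbounded along the radius to `r z` if `z ^ (m 2^l) = 1`: for `u = t r z` and `j ≥ l` the term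
`m 2^j (u/r)^(m 2^j) = m 2^j t^(m 2^j)` of `u F'(u)` is positive, the other terms are bounded -/
theorem lac_deriv (r : ℝ) (hr : 0 < r) (m : ℕ) (hm : 1 ≤ m) (k0 : ℕ) (T : ℕ → ℂ)
    (hT : ∀ k, k0 ≤ k → (∃ j : ℕ, k = m * 2 ^ j) → T k = k * ((r : ℂ)⁻¹) ^ k)
    (hT' : ∀ k, k0 ≤ k → (¬ ∃ j : ℕ, k = m * 2 ^ j) → T k = 0) (l : ℕ) (z : ℂ) (hz : z ^ (m * 2 ^ l) = 1) (B : ℝ) :
    ∀ᶠ t : ℝ in nhdsWithin 1 (Set.Iio 1), B ≤
      ‖deriv (fun u : ℂ => ∑' k : ℕ, T (k + 1) * u ^ (k + 1) / ((k + 1 : ℕ) : ℂ)) (t * r * z)‖ := by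
  have hN0 : m * 2 ^ l ≠ 0 := by positivity
  have hz1 : ‖z‖ = 1 := Complex.norm_eq_one_of_pow_eq_one hz hN0
  obtain ⟨K1, hK1⟩ : ∃ K1, K1 = max k0 (m * 2 ^ l) := ⟨_, rfl⟩
  obtain ⟨C0, hC0⟩ : ∃ C0 : ℝ, C0 = ∑ k ∈ Finset.range K1, ‖T (k + 1)‖ * r ^ (k + 1) := ⟨_, rfl⟩
  have hC00 : 0 ≤ C0 := by rw [hC0]; positivity
  obtain ⟨j, hj⟩ : ∃ j : ℕ, max (K1 + 1 : ℝ) (2 * (|B| * r + C0)) < (2:ℝ) ^ j :=
    pow_unbounded_of_one_lt _ (by norm_num)
  obtain ⟨N, hN⟩ : ∃ N, N = m * 2 ^ j := ⟨_, rfl⟩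
  have hm' : (1:ℝ) ≤ m := by exact_mod_cast hm
  have hNj : (2:ℝ) ^ j ≤ (N:ℝ) := by
    rw [hN]
    push_cast
    have : (0:ℝ) < 2 ^ j := by positivity
    nlinarith
  have hNK : K1 + 1 < N := by
    have : (K1:ℝ) + 1 < N := (le_max_left _ _).trans_lt (hj.trans_le hNj)
    exact_mod_cast this
  have hNB : 2 * (|B| * r + C0) < N := (le_max_right _ _).trans_lt (hj.trans_le hNj)
  have hev1 : ∀ᶠ t : ℝ in nhdsWithin 1 (Set.Iio 1), 1 / 2 < t ^ N := by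
    have hc : ContinuousAt (fun t : ℝ => t ^ N) 1 := (continuous_pow N).continuousAt
    have : ∀ᶠ t : ℝ in nhds 1, 1 / 2 < t ^ N :=
      continuousAt_const.eventually_lt hc (by norm_num)
    exact this.filter_mono nhdsWithin_le_nhds
  have hev2 : ∀ᶠ t : ℝ in nhdsWithin 1 (Set.Iio 1), 0 < t := by
    have : ∀ᶠ t : ℝ in nhds 1, 0 < t := eventually_gt_nhds one_pos
    exact this.filter_mono nhdsWithin_le_nhds
  filter_upwards [hev1, hev2, self_mem_nhdsWithin] with t ht1 ht0 htlt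
  have htlt : t < 1 := htlt
  obtain ⟨u, hu⟩ : ∃ u : ℂ, u = t * r * z := ⟨_, rfl⟩
  have hun : ‖u‖ = t * r := by
    rw [hu, norm_mul, norm_mul, hz1, Complex.norm_real, Complex.norm_real, Real.norm_eq_abs,
      Real.norm_eq_abs, abs_of_pos ht0, abs_of_pos hr, mul_one]
  have hur : ‖u‖ < r := by rw [hun]; nlinarith
  have hu0 : u ≠ 0 := by
    rw [← norm_pos_iff, hun]; positivity
  rw [← hu]
  obtain ⟨ρ, h1, h2⟩ := exists_between hur
  have hρ : 0 < ρ := (norm_nonneg u).trans_lt h1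
  obtain ⟨b, hb, hb'⟩ := lac_term r hr m k0 T hT hT' ρ hρ h2
  have hsum := Complex.hasSum_deriv_of_summable_norm hb
      (fun k => (by fun_prop : Differentiable ℂ
        (fun u : ℂ => T (k + 1) * u ^ (k + 1) / ((k + 1 : ℕ) : ℂ))).differentiableOn)
      Metric.isOpen_ball hb' (mem_ball_zero_iff.2 h1)
  have hder : ∀ k : ℕ, deriv (fun u : ℂ => T (k + 1) * u ^ (k + 1) / ((k + 1 : ℕ) : ℂ)) u =
      T (k + 1) * u ^ k := by
    intro k
    have hk : ((k + 1 : ℕ) : ℂ) ≠ 0 := Nat.cast_ne_zero.2 (Nat.succ_ne_zero k)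
    have h3 : HasDerivAt (fun u : ℂ => T (k + 1) * u ^ (k + 1) / ((k + 1 : ℕ) : ℂ))
        (T (k + 1) * (((k + 1 : ℕ) : ℂ) * u ^ (k + 1 - 1)) / ((k + 1 : ℕ) : ℂ)) u :=
      ((hasDerivAt_pow (k + 1) u).const_mul (T (k + 1))).div_const _
    rw [h3.deriv, Nat.add_sub_cancel]
    field_simp
  simp only [hder] at hsum
  have hsum2 := hsum.mul_left u
  obtain ⟨a, ha⟩ : ∃ a : ℕ → ℂ, a = fun k => u * (T (k + 1) * u ^ k) := ⟨_, rfl⟩
  have ha' : ∀ k, a k = T (k + 1) * u ^ (k + 1) := by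
    intro k; rw [ha]; ring
  rw [← ha] at hsum2
  have hre := Complex.hasSum_re hsum2
  -- the tail
  have htail : ∀ k, K1 ≤ k + 1 → 0 ≤ (a k).re := by
    intro k hk
    rw [ha']
    have hk0 : k0 ≤ k + 1 := (le_max_left _ _).trans (hK1 ▸ hk)
    by_cases hj' : ∃ j : ℕ, k + 1 = m * 2 ^ j
    · obtain ⟨i, hi⟩ := hj'
      rw [hT _ hk0 ⟨i, hi⟩]
      have hli : l ≤ i := by
        have h5 : m * 2 ^ l ≤ m * 2 ^ i := by
          rw [← hi]; exact (le_max_right _ _).trans (hK1 ▸ hk)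
        have h6 : 2 ^ l ≤ 2 ^ i := Nat.le_of_mul_le_mul_left h5 (by omega)
        exact (Nat.pow_le_pow_iff_right (by norm_num)).1 h6
      have hzi : z ^ (k + 1) = 1 := by
        rw [hi, ← Nat.add_sub_cancel' hli, pow_add, ← mul_assoc, pow_mul, hz, one_pow]
      have e : ((k + 1 : ℕ) : ℂ) * ((r : ℂ)⁻¹) ^ (k + 1) * u ^ (k + 1) =
          ((((k + 1 : ℕ) : ℝ) * t ^ (k + 1) : ℝ) : ℂ) := by
        rw [hu, mul_pow, hzi, mul_one, mul_pow, mul_assoc, mul_comm ((t:ℂ) ^ (k + 1)), ← mul_assoc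
          (((r : ℂ)⁻¹) ^ (k + 1)), ← mul_pow, inv_mul_cancel₀ (Complex.ofReal_ne_zero.2 hr.ne'),
          one_pow, one_mul]
        push_cast
        rfl
      rw [e, Complex.ofReal_re]
      positivity
    · rw [hT' _ hk0 hj', zero_mul, Complex.zero_re]
  have hNm : (a (N - 1)).re = (N:ℝ) * t ^ N := by
    have hN1 : N - 1 + 1 = N := by omega
    rw [ha', hN1, hT N (by rw [hK1] at hNK; omega) ⟨j, hN⟩]
    have hlj : l ≤ j := by
      have h5 : m * 2 ^ l ≤ m * 2 ^ j := by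
        rw [← hN]; rw [hK1] at hNK; omega
      have h6 : 2 ^ l ≤ 2 ^ j := Nat.le_of_mul_le_mul_left h5 (by omega)
      exact (Nat.pow_le_pow_iff_right (by norm_num)).1 h6
    have hzi : z ^ N = 1 := by
      rw [hN, ← Nat.add_sub_cancel' hlj, pow_add, ← mul_assoc, pow_mul, hz, one_pow]
    have e : (N : ℂ) * ((r : ℂ)⁻¹) ^ N * u ^ N = (((N : ℝ) * t ^ N : ℝ) : ℂ) := by
      rw [hu, mul_pow, hzi, mul_one, mul_pow, mul_assoc, mul_comm ((t:ℂ) ^ N), ← mul_assoc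
        (((r : ℂ)⁻¹) ^ N), ← mul_pow, inv_mul_cancel₀ (Complex.ofReal_ne_zero.2 hr.ne'),
        one_pow, one_mul]
      push_cast
      rfl
    rw [e, Complex.ofReal_re]
  have hlow : -C0 + (N:ℝ) * t ^ N ≤ (u * deriv (fun w : ℂ => ∑' k : ℕ,
      T (k + 1) * w ^ (k + 1) / ((k + 1 : ℕ) : ℂ)) u).re := by
    have hnot : N - 1 ∉ Finset.range K1 := by
      rw [Finset.mem_range]; omega
    have h5 : ∑ k ∈ insert (N - 1) (Finset.range K1), (a k).re ≤ ∑' k, (a k).re := by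
      refine Summable.sum_le_tsum _ (fun k hk => htail k ?_) hre.summable
      rw [Finset.mem_insert, Finset.mem_range] at hk
      push Not at hk
      omega
    rw [hre.tsum_eq, Finset.sum_insert hnot, hNm] at h5
    have h6 : -C0 ≤ ∑ k ∈ Finset.range K1, (a k).re := by
      rw [hC0, ← Finset.sum_neg_distrib]
      refine Finset.sum_le_sum fun k _ => ?_
      have h7 : ‖a k‖ ≤ ‖T (k + 1)‖ * r ^ (k + 1) := by
        rw [ha', norm_mul, norm_pow]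
        gcongr
      have h8 := (abs_le.1 (Complex.abs_re_le_norm (a k))).1
      linarith
    linarith
  have hnorm := Complex.re_le_norm (u * deriv (fun w : ℂ => ∑' k : ℕ,
      T (k + 1) * w ^ (k + 1) / ((k + 1 : ℕ) : ℂ)) u)
  rw [norm_mul, hun] at hnorm
  have hBr : |B| * r ≤ -C0 + (N:ℝ) * t ^ N := by
    have hN0' : (0:ℝ) ≤ N := Nat.cast_nonneg N
    nlinarith [abs_nonneg B]
  have hfin : |B| * r ≤ t * r * ‖deriv (fun w : ℂ => ∑' k : ℕ,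
      T (k + 1) * w ^ (k + 1) / ((k + 1 : ℕ) : ℂ)) u‖ := hBr.trans (hlow.trans hnorm)
  have h9 : t * r * ‖deriv (fun w : ℂ => ∑' k : ℕ,
      T (k + 1) * w ^ (k + 1) / ((k + 1 : ℕ) : ℂ)) u‖ ≤ r * ‖deriv (fun w : ℂ => ∑' k : ℕ,
      T (k + 1) * w ^ (k + 1) / ((k + 1 : ℕ) : ℂ)) u‖ := by
    have : t * r ≤ r := by nlinarith
    gcongr
  have h10 : r * |B| ≤ r * ‖deriv (fun w : ℂ => ∑' k : ℕ,
      T (k + 1) * w ^ (k + 1) / ((k + 1 : ℕ) : ℂ)) u‖ := by linarith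
  exact (le_abs_self B).trans (le_of_mul_le_mul_left h10 hr)

/-- Natural boundary of `exp` of a lacunary series. Suppose `M` is meromorphic in `ball u₀ ε` and `= exp F` for `‖u‖ < r`.
Then `M'/M` is meromorphic at `u₀`, so analytic in a punctured neighbourhood of `u₀`, in particular at some `u₁ = r z₁`,
`z₁ ^ (m 2^l) = 1`, near `u₀` (`dense_roots`). So `M'/M` is bounded near `u₁`; but `M'/M = F'` at `t u₁`, `t < 1`
(near such a point `M = exp F`), which is unbounded for `t → 1`. -/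
theorem nat_boundary (r : ℝ) (hr : 0 < r) (m : ℕ) (hm : 1 ≤ m) (k0 : ℕ) (T : ℕ → ℂ)
    (hT : ∀ k, k0 ≤ k → (∃ j : ℕ, k = m * 2 ^ j) → T k = k * ((r : ℂ)⁻¹) ^ k)
    (hT' : ∀ k, k0 ≤ k → (¬ ∃ j : ℕ, k = m * 2 ^ j) → T k = 0) :
    NaturalBoundary (fun u : ℂ => Complex.exp (∑' k : ℕ, T (k + 1) * u ^ (k + 1) / ((k + 1 : ℕ) : ℂ))) r := by
  intro u₀ hu₀ ε hε
  rintro ⟨M, hM, hMF⟩
  obtain ⟨F, hF⟩ : ∃ F : ℂ → ℂ,
    F = fun u : ℂ => ∑' k : ℕ, T (k + 1) * u ^ (k + 1) / ((k + 1 : ℕ) : ℂ) := ⟨_, rfl⟩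
  have hFd : DifferentiableOn ℂ F (Metric.ball 0 r) := by
    rw [hF]; exact lac_diff r hr m hm k0 T hT hT'
  have hM0 : MeromorphicAt M u₀ := hM u₀ (Metric.mem_ball_self hε)
  have hg : MeromorphicAt (fun u => deriv M u / M u) u₀ := hM0.deriv.div hM0
  have han := hg.eventually_analyticAt
  rw [eventually_nhdsWithin_iff, Metric.eventually_nhds_iff] at han
  obtain ⟨δ, hδ, han⟩ := han
  have hz₀ : ‖u₀ / r‖ = 1 := by
    rw [norm_div, hu₀, Complex.norm_real, Real.norm_eq_abs, abs_of_pos hr, div_self hr.ne']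
  obtain ⟨l, z, hz, hzne, hzd⟩ := dense_roots m hm (u₀ / r) hz₀ (min δ ε / r)
    (div_pos (lt_min hδ hε) hr)
  have hrC : (r:ℂ) ≠ 0 := Complex.ofReal_ne_zero.2 hr.ne'
  have hz1 : ‖z‖ = 1 := Complex.norm_eq_one_of_pow_eq_one hz (by positivity)
  obtain ⟨u₁, hu₁⟩ : ∃ u₁ : ℂ, u₁ = r * z := ⟨_, rfl⟩
  have hdist : ‖u₁ - u₀‖ < min δ ε := by
    have e : u₁ - u₀ = r * (z - u₀ / r) := by
      rw [hu₁]; field_simp
    rw [e, norm_mul, Complex.norm_real, Real.norm_eq_abs, abs_of_pos hr]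
    rw [lt_div_iff₀ hr] at hzd
    linarith
  have hne : u₁ ≠ u₀ := by
    intro h
    apply hzne
    rw [← h, hu₁]
    field_simp
  have hga : AnalyticAt ℂ (fun u => deriv M u / M u) u₁ :=
    han (by rw [dist_eq_norm]; exact hdist.trans_le (min_le_left _ _)) hne
  obtain ⟨g, hgdef⟩ : ∃ g : ℂ → ℂ, g = fun u => deriv M u / M u := ⟨_, rfl⟩
  rw [← hgdef] at hga
  have hbd : ∀ᶠ u in nhds u₁, ‖g u‖ < ‖g u₁‖ + 1 :=
    (hga.continuousAt.norm).eventually_lt continuousAt_const (by linarith)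
  have hu₁b : u₁ ∈ Metric.ball u₀ ε := by
    rw [Metric.mem_ball, dist_eq_norm]
    exact hdist.trans_le (min_le_right _ _)
  have hball : ∀ᶠ u in nhds u₁, u ∈ Metric.ball u₀ ε := Metric.isOpen_ball.mem_nhds hu₁b
  -- along the radius
  have hcont : Filter.Tendsto (fun t : ℝ => (t:ℂ) * r * z) (nhdsWithin 1 (Set.Iio 1)) (nhds u₁) := by
    have hc : Continuous fun t : ℝ => (t:ℂ) * r * z := by fun_prop
    have h1 : Filter.Tendsto (fun t : ℝ => (t:ℂ) * r * z) (nhds 1) (nhds (((1:ℝ):ℂ) * r * z)) :=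
      hc.tendsto 1
    have e : ((1:ℝ):ℂ) * r * z = u₁ := by rw [hu₁]; push_cast; ring
    rw [e] at h1
    exact h1.mono_left nhdsWithin_le_nhds
  have hev2 : ∀ᶠ t : ℝ in nhdsWithin 1 (Set.Iio 1), 0 < t := by
    have : ∀ᶠ t : ℝ in nhds 1, 0 < t := eventually_gt_nhds one_pos
    exact this.filter_mono nhdsWithin_le_nhds
  have hbig := lac_deriv r hr m hm k0 T hT hT' l z hz (‖g u₁‖ + 1)
  rw [← hF] at hbig
  have hlt : ∀ᶠ t : ℝ in nhdsWithin (1:ℝ) (Set.Iio 1), t < 1 := self_mem_nhdsWithin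
  obtain ⟨t, h1, h2, h3, h4, h5⟩ := (hbig.and ((hcont.eventually hbd).and
    ((hcont.eventually hball).and (hev2.and hlt)))).exists
  have hun : ‖(t:ℂ) * r * z‖ = t * r := by
    rw [norm_mul, norm_mul, hz1, Complex.norm_real, Complex.norm_real, Real.norm_eq_abs,
      Real.norm_eq_abs, abs_of_pos h4, abs_of_pos hr, mul_one]
  have hur : ‖(t:ℂ) * r * z‖ < r := by rw [hun]; nlinarith
  obtain ⟨u, hu⟩ : ∃ u : ℂ, u = t * r * z := ⟨_, rfl⟩
  rw [← hu] at h1 h2 h3 hur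
  have hFu : DifferentiableAt ℂ F u :=
    (hFd u (mem_ball_zero_iff.2 hur)).differentiableAt
      (Metric.isOpen_ball.mem_nhds (mem_ball_zero_iff.2 hur))
  have hloc : M =ᶠ[nhds u] fun w => Complex.exp (F w) := by
    have e1 : ∀ᶠ w in nhds u, w ∈ Metric.ball u₀ ε := Metric.isOpen_ball.mem_nhds h3
    have e2 : ∀ᶠ w in nhds u, w ∈ Metric.ball (0:ℂ) r :=
      Metric.isOpen_ball.mem_nhds (mem_ball_zero_iff.2 hur)
    filter_upwards [e1, e2] with w hw1 hw2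
    rw [hMF w hw1 (mem_ball_zero_iff.1 hw2), hF]
  have hgu : g u = deriv F u := by
    rw [hgdef]
    show deriv M u / M u = deriv F u
    rw [hloc.deriv_eq, hloc.eq_of_nhds, (hFu.hasDerivAt.cexp).deriv]
    have := Complex.exp_ne_zero (F u)
    field_simp
  rw [hgu] at h2
  linarith


end Pool.Agent.H497.TU
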