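import Pool.Agent.H497.TT.Par

set_option autoImplicit false

namespace Pool.Agent.H497.TU

open MeasureTheory Pool.Agent.H497.TT

/-- as `params`, with `κ`, `ν` uniform in `q` and linear in `a` -/
theorem paramsU (η : ℝ) (hη : 0 < η) : ∃ ν0 : ℕ, ∀ (q : ℕ), 2 ≤ q → ∀ a : ℕ,
    ∃ κ : ℕ, 1 ≤ κ ∧ 8 * (a : ℝ) ≤ η * κ ∧ ∀ (H : ℝ) (M : ℕ), 0 ≤ H → ∃ kb N0 : ℕ, M ≤ kb ∧
      NumT q η κ (ν0 * (a + 1)) H kb N0 := by
  have hl2 : 0 < Real.log 2 := Real.log_pos (by norm_num)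
  obtain ⟨y0, hy0'⟩ : ∃ y0 : ℝ, y0 = Real.log 2 * η := ⟨_, rfl⟩
  have hy00 : 0 < y0 := by rw [hy0']; positivity
  refine ⟨3 * (⌈2 / y0 ^ 2⌉₊ + ⌈8 / η⌉₊ + 1), fun q hq a => ?_⟩
  have hq' : (2 : ℝ) ≤ q := by exact_mod_cast hq
  have hq0 : (0 : ℝ) < q := by linarith
  obtain ⟨L, hL⟩ : ∃ L : ℝ, L = Real.log q := ⟨_, rfl⟩
  have hL0 : 0 < L := by rw [hL]; exact Real.log_pos (by linarith)
  have hrp : ∀ y : ℝ, (q : ℝ) ^ y = Real.exp (L * y) := fun y => by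
    rw [hL]; exact Real.rpow_def_of_pos hq0 y
  obtain ⟨y, hy⟩ : ∃ y : ℝ, y = L * η := ⟨_, rfl⟩
  have hy0 : 0 < y := by rw [hy]; positivity
  have hyy : y0 ≤ y := by
    rw [hy0', hy, hL]
    exact mul_le_mul_of_nonneg_right (Real.log_le_log (by norm_num) hq') hη.le
  obtain ⟨κ, hκ⟩ : ∃ κ : ℕ, κ = ⌈2 / y0 ^ 2⌉₊ + ⌈8 / η⌉₊ * a + 1 := ⟨_, rfl⟩
  have hκR : (κ : ℝ) = (⌈2 / y0 ^ 2⌉₊ : ℝ) + (⌈8 / η⌉₊ : ℝ) * a + 1 := by
    rw [hκ]; push_cast; ring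
  have hc1 : 2 / y ^ 2 ≤ (⌈2 / y0 ^ 2⌉₊ : ℝ) :=
    le_trans (div_le_div_of_nonneg_left (by norm_num) (by positivity) (pow_le_pow_left₀ hy00.le hyy 2)) (Nat.le_ceil _)
  have hc2 : 8 * (a : ℝ) / η ≤ (⌈8 / η⌉₊ : ℝ) * a := by
    have h1 : 8 / η ≤ (⌈8 / η⌉₊ : ℝ) := Nat.le_ceil _
    calc 8 * (a : ℝ) / η = 8 / η * a := by ring
      _ ≤ _ := mul_le_mul_of_nonneg_right h1 (Nat.cast_nonneg _)
  have hc3 : (0 : ℝ) ≤ (⌈2 / y0 ^ 2⌉₊ : ℝ) := Nat.cast_nonneg _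
  have hc4 : (0 : ℝ) ≤ (⌈8 / η⌉₊ : ℝ) * a := by positivity
  have hν : 3 * κ ≤ 3 * (⌈2 / y0 ^ 2⌉₊ + ⌈8 / η⌉₊ + 1) * (a + 1) := by
    rw [hκ]
    nlinarith [Nat.zero_le (⌈2 / y0 ^ 2⌉₊ * a), Nat.zero_le (⌈8 / η⌉₊), Nat.zero_le a]
  have hκy : 2 / y ≤ y * κ := by
    have h1 : 2 / y ^ 2 ≤ κ := by rw [hκR]; linarith
    have h2 := mul_le_mul_of_nonneg_left h1 hy0.le
    have h3 : y * (2 / y ^ 2) = 2 / y := by field_simp
    rwa [h3] at h2
  have hκa : 8 * (a : ℝ) ≤ η * κ := by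
    have h1 : 8 * (a : ℝ) / η ≤ κ := by rw [hκR]; linarith
    have h2 := mul_le_mul_of_nonneg_left h1 hη.le
    have h3 : η * (8 * (a : ℝ) / η) = 8 * a := by field_simp
    rwa [h3] at h2
  refine ⟨κ, by omega, hκa, ?_⟩
  intro H M hH
  obtain ⟨kb, hkb⟩ : ∃ kb : ℕ, kb = M + 1 + ⌈(2 * H / y + 2 + H) / y⌉₊ := ⟨_, rfl⟩
  have hkb1 : 2 * H / y + 2 + H ≤ y * kb := by
    have h1 : (2 * H / y + 2 + H) / y ≤ (⌈(2 * H / y + 2 + H) / y⌉₊ : ℝ) := Nat.le_ceil _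
    have h2 : (2 * H / y + 2 + H) / y ≤ kb := by
      rw [hkb]
      push_cast
      have : (0 : ℝ) ≤ (M : ℝ) := Nat.cast_nonneg _
      linarith
    rw [div_le_iff₀ hy0] at h2
    linarith
  have hHy : 0 ≤ 2 * H / y := by positivity
  refine ⟨kb, 3 * kb, by omega, ⟨by omega, ?_, ?_⟩⟩
  · rw [hrp]
    have h1 : L * (η * kb) = y * kb := by rw [hy]; ring
    rw [h1]
    have h2 := Real.add_one_le_exp (y * kb)
    linarith
  · intro c N hN
    have hN'' : 3 * κ * (c + 1) + 3 * kb ≤ N :=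
      le_trans (Nat.add_le_add_right (Nat.mul_le_mul_right _ hν) _) hN
    have hN' : 3 * (κ : ℝ) * (c + 1) + 3 * kb ≤ N := by exact_mod_cast hN''
    have hc0 : (0 : ℝ) ≤ c := Nat.cast_nonneg c
    obtain ⟨k, hk⟩ : ∃ k : ℕ, k = κ * (c + 1) + kb := ⟨_, rfl⟩
    have hkR : (k : ℝ) = κ * (c + 1) + kb := by rw [hk]; push_cast; ring
    have hk0 : (0 : ℝ) ≤ k := Nat.cast_nonneg _
    have hNk : 3 * (k : ℝ) ≤ N := by
      rw [hkR]
      linarith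
    rw [← hk]
    constructor
    · have : 2 * (k : ℝ) ≤ N := by linarith
      exact_mod_cast this
    · have hsum : ∑ j ∈ Finset.Ico 1 k, ((c : ℝ) + H) * (q : ℝ) ^ ((1 / 2 + 2 * η) * j) *
          ((q : ℝ) ^ (-(1 / 2 + 3 * η))) ^ j ≤ (c + H) * (1 / y) := by
        have h0 : ∑ j ∈ Finset.Ico 1 k, ((c : ℝ) + H) * (q : ℝ) ^ ((1 / 2 + 2 * η) * j) *
          ((q : ℝ) ^ (-(1 / 2 + 3 * η))) ^ j = (c + H) * ∑ j ∈ Finset.Ico 1 k, Real.exp (-y) ^ j := by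
          rw [Finset.mul_sum]
          refine Finset.sum_congr rfl fun j _ => ?_
          have h1 : (q : ℝ) ^ ((1 / 2 + 2 * η) * j) * ((q : ℝ) ^ (-(1 / 2 + 3 * η))) ^ j =
              Real.exp (-y) ^ j := by
            rw [hrp, hrp, ← Real.exp_nat_mul, ← Real.exp_nat_mul, ← Real.exp_add, hy]
            congr 1
            ring
          rw [mul_assoc, h1]
        rw [h0]
        exact mul_le_mul_of_nonneg_left (par_geom k y hy0) (by positivity)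
      have hexp : Real.exp (2 * ∑ j ∈ Finset.Ico 1 k, ((c : ℝ) + H) *
          (q : ℝ) ^ ((1 / 2 + 2 * η) * j) * ((q : ℝ) ^ (-(1 / 2 + 3 * η))) ^ j) ≤
          Real.exp (2 * ((c + H) * (1 / y))) := by
        apply Real.exp_le_exp.2
        linarith
      have hA : ((q : ℝ) ^ (-(1 / 2 + 4 * η)) / (q : ℝ) ^ (-(1 / 2 + 3 * η))) ^ k =
          Real.exp (-(y * k)) := by
        rw [hrp, hrp, ← Real.exp_sub, ← Real.exp_nat_mul, hy]
        congr 1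
        ring
      have hB : (q : ℝ) ^ (-(4 * η) * N + 2 * (4 * η) * (k : ℕ)) ≤ Real.exp (-(y * k)) := by
        rw [hrp]
        apply Real.exp_le_exp.2
        have h1 : -(4 * η) * N + 2 * (4 * η) * (k : ℕ) ≤ -(η * k) := by nlinarith
        have h2 := mul_le_mul_of_nonneg_left h1 hL0.le
        rw [hy]
        linarith
      have he2 : Real.exp (-2) ≤ 1 / 4 := by
        rw [Real.exp_neg, inv_le_comm₀ (Real.exp_pos _) (by norm_num)]
        have h2 := Real.quadratic_le_exp_of_nonneg (show (0 : ℝ) ≤ 2 by norm_num)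
        norm_num at h2 ⊢
        linarith
      have hmain : 2 * ((c + H) * (1 / y)) + -(y * k) ≤ -2 := by
        have h1 : 2 * ((c + H) * (1 / y)) = 2 / y * c + 2 * H / y := by field_simp
        have h2 : 2 / y * c ≤ y * κ * c := mul_le_mul_of_nonneg_right hκy hc0
        have h3 : 0 ≤ y * κ := by positivity
        rw [h1, hkR]
        nlinarith
      have h1 : Real.exp (2 * ((c + H) * (1 / y))) * Real.exp (-(y * k)) ≤ 1 / 4 := by
        rw [← Real.exp_add]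
        exact le_trans (Real.exp_le_exp.2 hmain) he2
      rw [hA]
      have hB0 : 0 ≤ (q : ℝ) ^ (-(4 * η) * N + 2 * (4 * η) * (k : ℕ)) := by positivity
      have hA0 : 0 ≤ Real.exp (-(y * k)) := (Real.exp_pos _).le
      calc _ ≤ Real.exp (2 * ((c + H) * (1 / y))) * (Real.exp (-(y * k)) +
            Real.exp (-(y * k))) := by
            refine mul_le_mul hexp (by linarith) (by positivity) (Real.exp_pos _).le
        _ ≤ 1 / 2 := by
            rw [mul_add]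
            linarith


end Pool.Agent.H497.TU
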