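import Pool.Agent.H497.TU.Defs

set_option autoImplicit false



namespace Pool.Agent.H497.TU

open MeasureTheory Pool.Agent.H497.TT


noncomputable section

variable {𝓟 𝓧 : Type}

theorem rm_sum_split {M : Type} [AddCommMonoid M] (S : TSys 𝓟 𝓧) (T : Set 𝓟) (k : ℕ) (f : 𝓟 → M) :
    ∑ P ∈ TPr S T k, f P + ∑ P ∈ FPr S T k, f P = ∑ P ∈ S.Pr k, f P := by
  classical
  unfold TPr FPr
  exact Finset.sum_filter_add_sum_filter_not _ _ _

theorem card_split (S : TSys 𝓟 𝓧) (T : Set 𝓟) (k : ℕ) :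
    ((TPr S T k).card : ℝ) + (FPr S T k).card = (S.Pr k).card := by
  have h := rm_sum_split S T k (fun _ => (1 : ℝ))
  rw [Finset.sum_const, Finset.sum_const, Finset.sum_const, nsmul_eq_mul, nsmul_eq_mul,
    nsmul_eq_mul, mul_one, mul_one, mul_one] at h
  exact h

open Classical in
theorem sub_sum {M : Type} [AddCommMonoid M] (S : TSys 𝓟 𝓧) (T : Set 𝓟) (k : ℕ) (f : 𝓟 → M) :
    ∑ P ∈ (S.Pr k).subtype (· ∉ T), f P.1 = ∑ P ∈ FPr S T k, f P := by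
  unfold FPr
  rw [Finset.sum_subtype_eq_sum_filter]

open Classical in
theorem sub_card (S : TSys 𝓟 𝓧) (T : Set 𝓟) (k : ℕ) :
    ((S.Pr k).subtype (· ∉ T)).card = (FPr S T k).card := by
  have h := sub_sum S T k (fun _ => 1)
  rw [Finset.sum_const, Finset.sum_const, smul_eq_mul, smul_eq_mul, mul_one, mul_one] at h
  exact h

theorem card_T_le {S : TSys 𝓟 𝓧} {T : Set 𝓟} {C : ℕ}
    (hT : ∀ k : ℕ, k ≠ 0 → (k : ℝ) * (TPr S T k).card ≤ C * √(S.q : ℝ) ^ k) {k : ℕ} (hk : k ≠ 0) :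
    ((TPr S T k).card : ℝ) ≤ C * √(S.q : ℝ) ^ k := by
  refine le_trans ?_ (hT k hk)
  have h1 : (1 : ℝ) ≤ k := by exact_mod_cast Nat.one_le_iff_ne_zero.2 hk
  exact le_mul_of_one_le_left (Nat.cast_nonneg _) h1

theorem norm_sum_par (S : TSys 𝓟 𝓧) (χ : 𝓧) (P : 𝓟) : ‖∑ j, S.par χ P j‖ ≤ S.R := by
  refine (norm_sum_le _ _).trans ((Finset.sum_le_sum fun j _ => S.par_le χ P j).trans ?_)
  simp

open Classical in
/-- The system of the places outside of a thin set `T`: `Pr k` are the places of degree `k` not in `T`. -/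
def remove (S : TSys 𝓟 𝓧) (T : Set 𝓟) (C : ℕ)
    (hT : ∀ k : ℕ, k ≠ 0 → (k : ℝ) * (TPr S T k).card ≤ C * √(S.q : ℝ) ^ k) : TSys {P : 𝓟 // P ∉ T} 𝓧 where
  q := S.q
  hq := S.hq
  A := S.A + C * (S.R ^ 2 + 1)
  hA := le_trans S.hA (Nat.le_add_right _ _)
  a := S.a
  R := S.R
  deg := fun P => S.deg P.1
  deg_pos := fun P => S.deg_pos P.1
  Pr := fun k => (S.Pr k).subtype (· ∉ T)
  mem_Pr := fun k P => by rw [Finset.mem_subtype, S.mem_Pr]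
  Pr_card := by
    intro k hk
    rw [sub_card]
    have h1 := abs_le.1 (S.Pr_card k hk)
    have h2 := card_split S T k
    have h3 := hT k hk
    have h4 : (0 : ℝ) ≤ √(S.q : ℝ) ^ k := by positivity
    have h5 : (0 : ℝ) ≤ (k : ℝ) * (TPr S T k).card := by positivity
    have h6 : (0 : ℝ) ≤ (C : ℝ) * (S.R : ℝ) ^ 2 * √(S.q : ℝ) ^ k := by positivity
    have h7 : ((S.A + C * (S.R ^ 2 + 1) : ℕ) : ℝ) * √(S.q : ℝ) ^ k =
        (S.A : ℝ) * √(S.q : ℝ) ^ k + (C : ℝ) * (S.R : ℝ) ^ 2 * √(S.q : ℝ) ^ k +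
          C * √(S.q : ℝ) ^ k := by
      push_cast
      ring
    have h8 : (k : ℝ) * ((FPr S T k).card : ℝ) =
        (k : ℝ) * (S.Pr k).card - (k : ℝ) * (TPr S T k).card := by
      rw [← h2]
      ring
    rw [h7, h8, abs_le]
    constructor <;> linarith [h1.1, h1.2]
  par := fun χ P => S.par χ P.1
  par_le := fun χ P j => S.par_le χ P.1 j
  bar := S.bar
  c := S.c
  per := S.per
  bar_bar := S.bar_bar
  bar_c := S.bar_c
  bar_per := S.bar_per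
  bar_par := fun χ P e => S.bar_par χ P.1 e
  per_pos := S.per_pos
  per_zero := fun χ P e h1 h2 => S.per_zero χ P.1 e h1 h2
  orth := by
    intro χ χ' hne k hk
    rw [sub_sum S T k (fun P => (∑ j, S.par χ P j) * starRingEnd ℂ (∑ j, S.par χ' P j))]
    have h1 := S.orth χ χ' hne k hk
    have h2 := rm_sum_split S T k (fun P => (∑ j, S.par χ P j) * starRingEnd ℂ (∑ j, S.par χ' P j))
    have h3 := card_T_le hT hk
    have h4 : (0 : ℝ) ≤ √(S.q : ℝ) ^ k := by positivity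
    have h5 : ‖∑ P ∈ TPr S T k, (∑ j, S.par χ P j) * starRingEnd ℂ (∑ j, S.par χ' P j)‖ ≤
        C * √(S.q : ℝ) ^ k * (S.R : ℝ) ^ 2 := by
      refine (norm_sum_le _ _).trans ?_
      have h6 : ∀ P ∈ TPr S T k, ‖(∑ j, S.par χ P j) * starRingEnd ℂ (∑ j, S.par χ' P j)‖ ≤
          (S.R : ℝ) ^ 2 := by
        intro P _
        rw [norm_mul, RCLike.norm_conj, pow_two]
        exact mul_le_mul (norm_sum_par S χ P) (norm_sum_par S χ' P) (norm_nonneg _)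
          (Nat.cast_nonneg _)
      refine (Finset.sum_le_sum h6).trans ?_
      rw [Finset.sum_const, nsmul_eq_mul]
      exact mul_le_mul_of_nonneg_right h3 (by positivity)
    have h7 : ∑ P ∈ FPr S T k, (∑ j, S.par χ P j) * starRingEnd ℂ (∑ j, S.par χ' P j) =
        ∑ P ∈ S.Pr k, (∑ j, S.par χ P j) * starRingEnd ℂ (∑ j, S.par χ' P j) -
          ∑ P ∈ TPr S T k, (∑ j, S.par χ P j) * starRingEnd ℂ (∑ j, S.par χ' P j) := by
      rw [← h2]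
      ring
    rw [h7]
    refine (norm_sub_le _ _).trans ((add_le_add h1 h5).trans ?_)
    have h8 : ((S.A + C * (S.R ^ 2 + 1) : ℕ) : ℝ) * ((S.c χ : ℝ) + S.c χ' + 2) * √(S.q : ℝ) ^ k =
        (S.A : ℝ) * ((S.c χ : ℝ) + S.c χ' + 2) * √(S.q : ℝ) ^ k +
          C * √(S.q : ℝ) ^ k * (S.R : ℝ) ^ 2 +
          (C * √(S.q : ℝ) ^ k * (S.R : ℝ) ^ 2 * ((S.c χ : ℝ) + S.c χ' + 1) +
            C * √(S.q : ℝ) ^ k * ((S.c χ : ℝ) + S.c χ' + 2)) := by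
      push_cast
      ring
    rw [h8]
    have h9 : (0 : ℝ) ≤ C * √(S.q : ℝ) ^ k * (S.R : ℝ) ^ 2 * ((S.c χ : ℝ) + S.c χ' + 1) +
        C * √(S.q : ℝ) ^ k * ((S.c χ : ℝ) + S.c χ' + 2) := by positivity
    linarith
  norm := by
    intro χ k hk hp
    rw [sub_card, sub_sum S T k (fun P => ‖∑ j, S.par χ P j‖ ^ 2)]
    have h1 := S.norm χ k hk hp
    have h2 := rm_sum_split S T k (fun P => ‖∑ j, S.par χ P j‖ ^ 2)
    have h3 := card_T_le hT hk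
    have h4 : (0 : ℝ) ≤ √(S.q : ℝ) ^ k := by positivity
    have h5 : ∑ P ∈ TPr S T k, ‖∑ j, S.par χ P j‖ ^ 2 ≤ C * √(S.q : ℝ) ^ k * (S.R : ℝ) ^ 2 := by
      have h6 : ∀ P ∈ TPr S T k, ‖∑ j, S.par χ P j‖ ^ 2 ≤ (S.R : ℝ) ^ 2 := fun P _ =>
        pow_le_pow_left₀ (norm_nonneg _) (norm_sum_par S χ P) 2
      refine (Finset.sum_le_sum h6).trans ?_
      rw [Finset.sum_const, nsmul_eq_mul]
      exact mul_le_mul_of_nonneg_right h3 (by positivity)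
    have h7 := card_split S T k
    have h8 : ((S.A + C * (S.R ^ 2 + 1) : ℕ) : ℝ) * ((S.c χ : ℝ) + 1) * √(S.q : ℝ) ^ k =
        (S.A : ℝ) * ((S.c χ : ℝ) + 1) * √(S.q : ℝ) ^ k +
          C * √(S.q : ℝ) ^ k * (S.R : ℝ) ^ 2 +
          (C * √(S.q : ℝ) ^ k * (S.R : ℝ) ^ 2 * (S.c χ : ℝ) +
            C * √(S.q : ℝ) ^ k * ((S.c χ : ℝ) + 1)) := by
      push_cast
      ring
    rw [h8]
    have h9 : (0 : ℝ) ≤ C * √(S.q : ℝ) ^ k * (S.R : ℝ) ^ 2 * (S.c χ : ℝ) +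
        C * √(S.q : ℝ) ^ k * ((S.c χ : ℝ) + 1) := by positivity
    have h10 : (0 : ℝ) ≤ (TPr S T k).card := Nat.cast_nonneg _
    linarith
  fin := S.fin
  fin_card := by
    intro X
    refine (S.fin_card X).trans (mul_le_mul_of_nonneg_right ?_ (by positivity))
    exact_mod_cast Nat.le_add_right _ _

theorem remove_sum (S : TSys 𝓟 𝓧) (T : Set 𝓟) (C : ℕ)
    (hT : ∀ k : ℕ, k ≠ 0 → (k : ℝ) * (TPr S T k).card ≤ C * √(S.q : ℝ) ^ k) (f : 𝓟 → ℂ) (K : ℕ) :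
    ∑ P ∈ (remove S T C hT).Pr K, f P.1 = ∑ P ∈ FPr S T K, f P := by
  classical
  exact sub_sum S T K f

theorem remove_X (S : TSys 𝓟 𝓧) (T : Set 𝓟) (C : ℕ)
    (hT : ∀ k : ℕ, k ≠ 0 → (k : ℝ) * (TPr S T k).card ≤ C * √(S.q : ℝ) ^ k) {κ : ℕ} (hκ : 1 ≤ κ) (K : ℕ) :
    (remove S T C hT).X κ K = S.X κ K := by
  ext χ
  rw [TSys.mem_X hκ, TSys.mem_X hκ]
  rfl

/-- functions on the places outside of `T` extend -/
theorem remove_ext (S : TSys 𝓟 𝓧) (T : Set 𝓟) (C : ℕ)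
    (hT : ∀ k : ℕ, k ≠ 0 → (k : ℝ) * (TPr S T k).card ≤ C * √(S.q : ℝ) ^ k) {G : Type} [Nonempty G]
    (g : {P : 𝓟 // P ∉ T} → G) : ∃ g' : 𝓟 → G, ∀ P, g' P.1 = g P := by
  classical
  refine ⟨fun P => if h : P ∉ T then g ⟨P, h⟩ else Classical.arbitrary G, fun P => ?_⟩
  exact dif_pos P.2

end


end Pool.Agent.H497.TU
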