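import Pool.Agent.H497.TT.Defs

set_option autoImplicit false

namespace Pool.Agent.H497.TU

open MeasureTheory Pool.Agent.H497.TT

noncomputable section

variable {𝓟 𝓧 : Type}

open Classical in
/-- the places of degree `k` in the set `T` -/
def TPr (S : TSys 𝓟 𝓧) (T : Set 𝓟) (k : ℕ) : Finset 𝓟 := (S.Pr k).filter (· ∈ T)

open Classical in
/-- the places of degree `k` not in the set `T` -/
def FPr (S : TSys 𝓟 𝓧) (T : Set 𝓟) (k : ℕ) : Finset 𝓟 := (S.Pr k).filter (· ∉ T)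

/-- `T` is a thin set of places, and `h P` are bounds for the parameters prescribed at `P ∈ T` -/
structure Thin (S : TSys 𝓟 𝓧) (σ : ℝ) (T : Set 𝓟) (h : 𝓟 → ℝ) (C : ℕ) : Prop where
  one_le : ∀ P, 1 ≤ h P
  le : ∀ P, h P ≤ (S.q : ℝ) ^ (σ * S.deg P)
  few : ∀ k : ℕ, k ≠ 0 → (k : ℝ) * (TPr S T k).card ≤ C * √(S.q : ℝ) ^ k
  sum : ∀ k : ℕ, k ≠ 0 → (k : ℝ) * ∑ P ∈ TPr S T k, h P ≤ C * (S.q : ℝ) ^ (σ * k)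

open Classical in
/-- power sums: prescribed at the places in `T`, traces of powers in the representations elsewhere -/
def PW {G : Type} (D : RD G) (T : Set 𝓟) (pt : ℕ → 𝓟 → ℕ → ℂ) (g : 𝓟 → G) (i : ℕ) (P : 𝓟) (e : ℕ) : ℂ :=
  if P ∈ T then pt i P e else D.pw i (g P) e

/-- admissible prescribed power sums -/
structure Pt {G : Type} (D : RD G) (T : Set 𝓟) (h : 𝓟 → ℝ) (pt : ℕ → 𝓟 → ℕ → ℂ) : Prop where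
  bd : ∀ i P e, P ∈ T → ‖pt i P e‖ ≤ D.n i * h P ^ e
  real : ∀ i P e, P ∈ T → D.sd i → starRingEnd ℂ (pt i P e) = pt i P e

/-- bound for the sums over the places in low degrees -/
def H1 {G : Type} (S : TSys 𝓟 𝓧) (D : RD G) (C : ℕ) (i : ℕ) : ℝ := 2 + D.n i * S.R * C

/-- bound for the power sums in low degrees -/
def H2 {G : Type} (S : TSys 𝓟 𝓧) (D : RD G) (C : ℕ) (M : ℕ → ℕ) (i : ℕ) : ℝ :=
  2 + 4 * D.n i * S.R * (1 + S.A + C) * (S.q : ℝ) ^ M i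

/-- at degree `K` the twisted sums of the first `m` traces over the free places can be prescribed -/
def SolvS {G : Type} (S : TSys 𝓟 𝓧) (T : Set 𝓟) (D : RD G) (σ η : ℝ) (κ m K : ℕ) : Prop :=
  ∀ b : ℕ → 𝓧 → ℂ, (∀ i < m, ∀ χ ∈ S.X κ K, ‖b i χ‖ ≤ (S.q : ℝ) ^ ((σ + 5 * η) * K)) →
    (∀ i < m, D.sd i → ∀ χ ∈ S.X κ K, b i (S.bar χ) = starRingEnd ℂ (b i χ)) →
    ∃ g : 𝓟 → G, (∀ i < m, ∀ χ ∈ S.X κ K, ∑ P ∈ FPr S T K, D.pw i (g P) 1 * S.lam χ P 1 = b i χ) ∧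
      ∀ i < m, ∀ χ, χ ∉ S.X κ K → ‖∑ P ∈ FPr S T K, D.pw i (g P) 1 * S.lam χ P 1‖ ≤
        ((S.c χ : ℝ) + 2) * (S.q : ℝ) ^ ((σ + 2 * η) * K)

/-- the function `tgt i χ T k` prescribes the power sum `T_k` from the `T_j`, `j < κ (c χ + 1) + kb i` -/
structure Tgt {G : Type} (S : TSys 𝓟 𝓧) (D : RD G) (σ η : ℝ) (κ : ℕ) (kb : ℕ → ℕ) (H : ℕ → ℝ)
    (tgt : ℕ → 𝓧 → (ℕ → ℂ) → ℕ → ℂ) : Prop where
  congr : ∀ (i : ℕ) (χ : 𝓧) (T T' : ℕ → ℂ) (k : ℕ),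
    (∀ j, 1 ≤ j → j < κ * (S.c χ + 1) + kb i → T j = T' j) → tgt i χ T k = tgt i χ T' k
  bound : ∀ (i : ℕ) (χ : 𝓧) (T : ℕ → ℂ), (∀ j, 1 ≤ j → j < κ * (S.c χ + 1) + kb i →
      ‖T j‖ ≤ j * (((S.c χ : ℝ) + H i) * (S.q : ℝ) ^ ((σ + 2 * η) * j))) →
    ∀ k, κ * (S.c χ + 1) + kb i ≤ k → ‖tgt i χ T k‖ ≤ k * (S.q : ℝ) ^ ((σ + 4 * η) * k)
  sd : ∀ i, D.sd i → ∀ (χ : 𝓧) (T T' : ℕ → ℂ),
    (∀ j, 1 ≤ j → j < κ * (S.c χ + 1) + kb i → T' j = starRingEnd ℂ (T j)) →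
    ∀ k, tgt i (S.bar χ) T' k = starRingEnd ℂ (tgt i χ T k)
  per : ∀ (i : ℕ) (χ : 𝓧) (T : ℕ → ℂ), (∀ j, ¬ S.per χ ∣ j → T j = 0) → ∀ k, ¬ S.per χ ∣ k → tgt i χ T k = 0

/-- the state of the construction up to degree `< K` -/
structure GoodU {G : Type} (S : TSys 𝓟 𝓧) (D : RD G) (σ η : ℝ) (κ : ℕ) (kb M : ℕ → ℕ) (C : ℕ)
    (tgt : ℕ → 𝓧 → (ℕ → ℂ) → ℕ → ℂ) (pw : ℕ → 𝓟 → ℕ → ℂ) (K : ℕ) : Prop where
  low : ∀ (i : ℕ) (χ : 𝓧) (k : ℕ), M i ≤ k → k < K → k < κ * (S.c χ + 1) + kb i →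
    ‖∑ P ∈ S.Pr k, pw i P 1 * S.lam χ P 1‖ ≤ ((S.c χ : ℝ) + H1 S D C i) * (S.q : ℝ) ^ ((σ + 2 * η) * k)
  eqn : ∀ (i : ℕ) (χ : 𝓧) (k : ℕ), κ * (S.c χ + 1) + kb i ≤ k → k < K →
    S.TS (pw i) χ k = tgt i χ (S.TS (pw i) χ) k

/-- `L` has no meromorphic continuation to a neighbourhood of any point of the circle of radius `r` -/
def NaturalBoundary (L : ℂ → ℂ) (r : ℝ) : Prop :=
  ∀ u₀ : ℂ, ‖u₀‖ = r → ∀ ε : ℝ, 0 < ε → ¬ ∃ M : ℂ → ℂ, MeromorphicOn M (Metric.ball u₀ ε) ∧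
    ∀ u ∈ Metric.ball u₀ ε, ‖u‖ < r → M u = L u

end

end Pool.Agent.H497.TU
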