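import Pool.Agent.H497.TU.Defs
import Pool.Agent.H497.TT.Est

set_option autoImplicit false



namespace Pool.Agent.H497.TU

open Pool.Agent.H497.FF (core LL_congr ldc_conj)

open MeasureTheory Pool.Agent.H497.TT


variable {𝓟 𝓧 G : Type}

noncomputable section

/-- the target for the indices `i ∉ U`: the logarithmic derivative of a polynomial with functional equation -/
def niceT (S : TSys 𝓟 𝓧) (κ : ℕ) (kb : ℕ → ℕ) (N : ℕ → 𝓧 → ℕ) (W : ℕ → 𝓧 → ℂ) (i : ℕ) (χ : 𝓧) (T : ℕ → ℂ) (k : ℕ) : ℂ :=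
  FF.ldc (FF.LL S.q T (κ * (S.c χ + 1) + kb i) (N i χ) (W i χ)) k

open Classical in
/-- the target: prescribed power sums `t i χ` for the pairs in `U`, otherwise `niceT` -/
def mixT (S : TSys 𝓟 𝓧) (κ : ℕ) (kb : ℕ → ℕ) (N : ℕ → 𝓧 → ℕ) (W : ℕ → 𝓧 → ℂ) (U : Set (ℕ × 𝓧)) (t : ℕ → 𝓧 → ℕ → ℂ)
    (i : ℕ) (χ : 𝓧) (T : ℕ → ℂ) (k : ℕ) : ℂ :=
  if (i, χ) ∈ U then t i χ k else niceT S κ kb N W i χ T k

end

/-- see `ldc_big` in Pool/Agent/H497/TT/Est.lean (origin/main), which is the case `σ = 1/2`: `core` with `σ - 1/2 + 4η` for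
`η`, `r = q^(-(σ+4η))`, `r1 = q^(-(σ+3η))`. The sum in the exponential is the one of `NumT.core`
(`(σ+2η) - (σ+3η) = (1/2+2η) - (1/2+3η)`), `r/r1 = q^(-η)` too, and `-(σ-1/2+4η) N + 2 (σ-1/2+4η) k0 ≤ -4η N + 8η k0` as
`2 k0 ≤ N`. -/
theorem niceT_bound {S : TSys 𝓟 𝓧} {σ η : ℝ} (hσ : 1 / 2 ≤ σ) (hη : 0 < η) {κ ν : ℕ} {kb N0 : ℕ → ℕ}
    {N : ℕ → 𝓧 → ℕ} {W : ℕ → 𝓧 → ℂ} (i : ℕ) (χ : 𝓧) {H : ℝ} (hNum : NumT S.q η κ ν H (kb i) (N0 i))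
    (hN : ν * (S.c χ + 1) + N0 i ≤ N i χ) (hW : ‖W i χ‖ = 1) {T : ℕ → ℂ}
    (hT : ∀ j, 1 ≤ j → j < κ * (S.c χ + 1) + kb i →
      ‖T j‖ ≤ j * (((S.c χ : ℝ) + H) * (S.q : ℝ) ^ ((σ + 2 * η) * j))) {k : ℕ} (hk : κ * (S.c χ + 1) + kb i ≤ k) :
    ‖niceT S κ kb N W i χ T k‖ ≤ k * (S.q : ℝ) ^ ((σ + 4 * η) * k) := by
  have hq2 : (2 : ℝ) ≤ S.q := by exact_mod_cast S.hq
  have hq1 : (1 : ℝ) < S.q := by linarith
  have hq0 : (0 : ℝ) < S.q := by linarith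
  obtain ⟨hN2, hcore⟩ := hNum.core (S.c χ) (N i χ) hN
  have hkb := hNum.kb1
  have hr1 : (S.q : ℝ) ^ (-(σ + 4 * η)) < (S.q : ℝ) ^ (-(σ + 3 * η)) :=
    Real.rpow_lt_rpow_of_exponent_lt hq1 (by linarith)
  have hr : (S.q : ℝ) ^ (-(σ + 4 * η)) = (S.q : ℝ) ^ (-(1 / 2 + (σ - 1 / 2 + 4 * η))) := by
    congr 1
    ring
  have hquot : (S.q : ℝ) ^ (-(σ + 4 * η)) / (S.q : ℝ) ^ (-(σ + 3 * η)) =
      (S.q : ℝ) ^ (-(1 / 2 + 4 * η)) / (S.q : ℝ) ^ (-(1 / 2 + 3 * η)) := by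
    rw [← Real.rpow_sub hq0, ← Real.rpow_sub hq0]
    congr 1
    ring
  have hterm : ∀ j : ℕ, (S.q : ℝ) ^ ((σ + 2 * η) * j) * ((S.q : ℝ) ^ (-(σ + 3 * η))) ^ j =
      (S.q : ℝ) ^ ((1 / 2 + 2 * η) * j) * ((S.q : ℝ) ^ (-(1 / 2 + 3 * η))) ^ j := by
    intro j
    rw [← Real.rpow_natCast, ← Real.rpow_natCast, ← Real.rpow_mul hq0.le, ← Real.rpow_mul hq0.le,
      ← Real.rpow_add hq0, ← Real.rpow_add hq0]
    congr 1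
    ring
  have hρ : Real.exp (2 * ∑ j ∈ Finset.Ico 1 (κ * (S.c χ + 1) + kb i),
        ((S.c χ : ℝ) + H) * (S.q : ℝ) ^ ((1 / 2 + 2 * η) * j) * ((S.q : ℝ) ^ (-(1 / 2 + 3 * η))) ^ j) *
      (((S.q : ℝ) ^ (-(σ + 4 * η)) / (S.q : ℝ) ^ (-(σ + 3 * η))) ^ (κ * (S.c χ + 1) + kb i) +
        (S.q : ℝ) ^ (-(σ - 1 / 2 + 4 * η) * (N i χ : ℝ) +
          2 * (σ - 1 / 2 + 4 * η) * ((κ * (S.c χ + 1) + kb i : ℕ) : ℝ))) ≤ 1 / 2 := by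
    refine le_trans ?_ hcore
    apply mul_le_mul_of_nonneg_left _ (Real.exp_pos _).le
    rw [hquot]
    apply add_le_add le_rfl
    apply Real.rpow_le_rpow_of_exponent_le hq1.le
    have h2 : 2 * ((κ * (S.c χ + 1) + kb i : ℕ) : ℝ) ≤ (N i χ : ℝ) := by exact_mod_cast hN2
    have h3 : 0 ≤ (σ - 1 / 2) * ((N i χ : ℝ) - 2 * ((κ * (S.c χ + 1) + kb i : ℕ) : ℝ)) :=
      mul_nonneg (by linarith) (by linarith)
    linarith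
  have h := core S.q S.hq (σ - 1 / 2 + 4 * η) ((S.q : ℝ) ^ (-(σ + 4 * η))) ((S.q : ℝ) ^ (-(σ + 3 * η)))
    (∑ j ∈ Finset.Ico 1 (κ * (S.c χ + 1) + kb i),
        ((S.c χ : ℝ) + H) * (S.q : ℝ) ^ ((1 / 2 + 2 * η) * j) * ((S.q : ℝ) ^ (-(1 / 2 + 3 * η))) ^ j)
    (by linarith) hr hr1 T (κ * (S.c χ + 1) + kb i) (N i χ) (W i χ) hW
    (by omega) hN2 (by
      apply Finset.sum_le_sum
      intro j hj
      rw [Finset.mem_Ico] at hj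
      have h1 := hT j hj.1 hj.2
      have hj0 : (0 : ℝ) < j := by exact_mod_cast hj.1
      rw [mul_assoc, ← hterm j, ← mul_assoc]
      apply mul_le_mul_of_nonneg_right _ (by positivity)
      rw [div_le_iff₀ hj0]
      linarith) hρ k hk
  unfold niceT
  refine h.trans (le_of_eq ?_)
  congr 1
  rw [← Real.rpow_natCast, ← Real.rpow_mul hq0.le, ← Real.rpow_neg hq0.le]
  congr 1
  ring

/-- `mixT` is an admissible target (`LL_congr`, `niceT_bound`, `ldc_conj`, `LL_per`) -/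
theorem mixT_tgt {S : TSys 𝓟 𝓧} (D : RD G) {σ η : ℝ} (hσ : 1 / 2 ≤ σ) (hη : 0 < η) {κ ν : ℕ} {kb N0 : ℕ → ℕ}
    {N : ℕ → 𝓧 → ℕ} {W : ℕ → 𝓧 → ℂ} {H : ℕ → ℝ} (U : Set (ℕ × 𝓧)) (t : ℕ → 𝓧 → ℕ → ℂ)
    (ht1 : ∀ i χ, (i, χ) ∈ U → ∀ k, ‖t i χ k‖ ≤ k * (S.q : ℝ) ^ (σ * k))
    (ht2 : ∀ i χ, (i, χ) ∈ U → ∀ k, ¬ S.per χ ∣ k → t i χ k = 0)
    (ht3 : ∀ i, D.sd i → ∀ χ, (i, χ) ∈ U → (i, S.bar χ) ∈ U ∧ ∀ k, t i (S.bar χ) k = starRingEnd ℂ (t i χ k))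
    (hNum : ∀ i, NumT S.q η κ ν (H i) (kb i) (N0 i))
    (hN : ∀ i χ, ν * (S.c χ + 1) + N0 i ≤ N i χ) (hNp : ∀ i χ, S.per χ ∣ N i χ) (hW : ∀ i χ, ‖W i χ‖ = 1)
    (hsd : ∀ i, D.sd i → ∀ χ, N i (S.bar χ) = N i χ ∧ W i (S.bar χ) = starRingEnd ℂ (W i χ)) :
    Tgt S D σ η κ kb H (mixT S κ kb N W U t) := by
  have hq2 : (2 : ℝ) ≤ S.q := by exact_mod_cast S.hq
  have hq1 : (1 : ℝ) ≤ S.q := by linarith
  refine ⟨?_, ?_, ?_, ?_⟩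
  · intro i χ T T' k h
    unfold mixT
    split_ifs with hi
    · rfl
    · unfold niceT
      rw [LL_congr S.q T T' (κ * (S.c χ + 1) + kb i) (N i χ) (W i χ) h]
  · intro i χ T hT k hk
    unfold mixT
    split_ifs with hi
    · refine (ht1 i χ hi k).trans ?_
      have hk0 : (0 : ℝ) ≤ k := Nat.cast_nonneg k
      apply mul_le_mul_of_nonneg_left _ hk0
      apply Real.rpow_le_rpow_of_exponent_le hq1
      exact mul_le_mul_of_nonneg_right (by linarith) hk0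
    · exact niceT_bound hσ hη i χ (hNum i) (hN i χ) (hW i χ) hT hk
  · intro i hi χ T T' h k
    unfold mixT
    by_cases hiU : (i, χ) ∈ U
    · obtain ⟨h1, h2⟩ := ht3 i hi χ hiU
      rw [if_pos hiU, if_pos h1, h2 k]
    · have h0 : (i, S.bar χ) ∉ U := fun h0 => hiU (by
        have := (ht3 i hi _ h0).1
        rwa [S.bar_bar] at this)
      rw [if_neg hiU, if_neg h0]
      unfold niceT
      obtain ⟨h1, h2⟩ := hsd i hi χ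
      rw [S.bar_c, h1, h2]
      exact ldc_conj S.q T T' (κ * (S.c χ + 1) + kb i) (N i χ) (W i χ) h k
  · intro i χ T hT k hk
    unfold mixT
    split_ifs with hi
    · exact ht2 i χ hi k hk
    · unfold niceT
      exact LL_per S.q T (κ * (S.c χ + 1) + kb i) (N i χ) (W i χ) (S.per χ) hT (hNp i χ) k hk

end Pool.Agent.H497.TU
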