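import Pool.Agent.H497.TU.Defs

set_option autoImplicit false

namespace Pool.Agent.H497.TU

open MeasureTheory Pool.Agent.H497.TT

/-- The real statement `h` (for the real and imaginary parts of the traces) implies the complex one. For `i < m` let
`h`'s index set be the pairs `(i, b)` with `b = false` (real part) or `b = true` and not `sd i` (imaginary part). Given `b i χ`
for `χ ∈ X` (`X` is stable under `bar`) put `b' (i, false) χ = (b i χ + conj (b i (bar χ))) / 2`,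
`b' (i, true) χ = (b i χ - conj (b i (bar χ))) / (2 I)`. Then `b' (bar χ) = conj (b' χ)`, the bounds are the same, and
`∑ pw i (g P) 1 lam = ∑ Re lam + I ∑ Im lam = b' (i, false) + I b' (i, true) = b i χ`; for `sd i` the imaginary part is `0`
(`D.real`) and `b' (i, false) = b i χ`. Outside of `X`: `1/2 + 1/2 = 1`. -/
theorem solv_of_realU {𝓟 𝓧 G : Type} (S : TSys 𝓟 𝓧) (D : RD G) (T : Set 𝓟) (σ η : ℝ) (κ : ℕ) (hκ : 1 ≤ κ) (m K : ℕ)
    (h : ∀ b : {p : Fin m × Bool // p.2 = true → ¬ D.sd p.1} → 𝓧 → ℂ,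
      (∀ α, ∀ χ ∈ S.X κ K, ‖b α χ‖ ≤ (S.q : ℝ) ^ ((σ + 5 * η) * K)) →
      (∀ α, ∀ χ ∈ S.X κ K, b α (S.bar χ) = starRingEnd ℂ (b α χ)) →
      ∃ g : 𝓟 → G, (∀ α, ∀ χ ∈ S.X κ K, ∑ P ∈ FPr S T K,
          ((if α.1.2 then (D.pw α.1.1 (g P) 1).im else (D.pw α.1.1 (g P) 1).re : ℝ) : ℂ) * S.lam χ P 1 = b α χ) ∧
        ∀ (α : {p : Fin m × Bool // p.2 = true → ¬ D.sd p.1}) (χ : 𝓧), χ ∉ S.X κ K → ‖∑ P ∈ FPr S T K,
          ((if α.1.2 then (D.pw α.1.1 (g P) 1).im else (D.pw α.1.1 (g P) 1).re : ℝ) : ℂ) * S.lam χ P 1‖ ≤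
          1 / 2 * (((S.c χ : ℝ) + 2) * (S.q : ℝ) ^ ((σ + 2 * η) * K))) :
    SolvS S T D σ η κ m K := by
  intro b hb hsd
  have hXbar : ∀ χ ∈ S.X κ K, S.bar χ ∈ S.X κ K := by
    intro χ hχ
    rw [TSys.mem_X hκ] at hχ ⊢
    rw [S.bar_c, S.bar_per]
    exact hχ
  obtain ⟨b', hb't, hb'f⟩ : ∃ b' : {p : Fin m × Bool // p.2 = true → ¬ D.sd p.1} → 𝓧 → ℂ,
      (∀ α, α.1.2 = true → ∀ χ, b' α χ =
        (b α.1.1 χ - starRingEnd ℂ (b α.1.1 (S.bar χ))) / (2 * Complex.I)) ∧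
      (∀ α, α.1.2 = false → ∀ χ, b' α χ =
        (b α.1.1 χ + starRingEnd ℂ (b α.1.1 (S.bar χ))) / 2) := by
    refine ⟨fun α χ => if α.1.2 = true then
      (b α.1.1 χ - starRingEnd ℂ (b α.1.1 (S.bar χ))) / (2 * Complex.I) else
      (b α.1.1 χ + starRingEnd ℂ (b α.1.1 (S.bar χ))) / 2, ?_, ?_⟩
    · intro α hα χ
      simp only [hα, if_true]
    · intro α hα χ
      simp only [hα, Bool.false_eq_true, if_false]
  have hbd : ∀ α, ∀ χ ∈ S.X κ K, ‖b' α χ‖ ≤ (S.q : ℝ) ^ ((σ + 5 * η) * K) := by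
    intro α χ hχ
    have h1 := hb α.1.1 α.1.1.2 χ hχ
    have h2 := hb α.1.1 α.1.1.2 _ (hXbar χ hχ)
    have h3 : ‖starRingEnd ℂ (b α.1.1 (S.bar χ))‖ ≤ (S.q : ℝ) ^ ((σ + 5 * η) * K) := by
      rw [RCLike.norm_conj]
      exact h2
    rcases Bool.eq_false_or_eq_true α.1.2 with hα | hα
    · rw [hb't α hα χ, norm_div, norm_mul, Complex.norm_I, mul_one, Complex.norm_ofNat]
      have h4 := norm_sub_le (b α.1.1 χ) (starRingEnd ℂ (b α.1.1 (S.bar χ)))
      rw [div_le_iff₀ (by norm_num)]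
      linarith
    · rw [hb'f α hα χ, norm_div, Complex.norm_ofNat]
      have h4 := norm_add_le (b α.1.1 χ) (starRingEnd ℂ (b α.1.1 (S.bar χ)))
      rw [div_le_iff₀ (by norm_num)]
      linarith
  have hsym : ∀ α, ∀ χ ∈ S.X κ K, b' α (S.bar χ) = starRingEnd ℂ (b' α χ) := by
    intro α χ _
    rcases Bool.eq_false_or_eq_true α.1.2 with hα | hα
    · rw [hb't α hα, hb't α hα, S.bar_bar, map_div₀, map_sub, map_mul, Complex.conj_conj,
        Complex.conj_I, map_ofNat]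
      have hI : Complex.I ≠ 0 := Complex.I_ne_zero
      field_simp
      ring
    · rw [hb'f α hα, hb'f α hα, S.bar_bar, map_div₀, map_add, Complex.conj_conj, map_ofNat]
      rw [add_comm]
  obtain ⟨g, hg1, hg2⟩ := h b' hbd hsym
  refine ⟨g, ?_, ?_⟩
  · intro i hi χ hχ
    have hre := hg1 ⟨(⟨i, hi⟩, false), fun h => Bool.noConfusion h⟩ χ hχ
    rw [hb'f _ rfl] at hre
    simp only [Bool.false_eq_true, if_false] at hre
    by_cases hs : D.sd i
    · have h1 : ∀ P ∈ FPr S T K, D.pw i (g P) 1 * S.lam χ P 1 =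
          (((D.pw i (g P) 1).re : ℝ) : ℂ) * S.lam χ P 1 := by
        intro P _
        rw [Complex.conj_eq_iff_re.1 (D.real i hs (g P) 1)]
      rw [Finset.sum_congr rfl h1, hre, hsd i hi hs χ hχ, Complex.conj_conj]
      ring
    · have him := hg1 ⟨(⟨i, hi⟩, true), fun _ => hs⟩ χ hχ
      rw [hb't _ rfl] at him
      simp only [if_true] at him
      have h1 : ∀ P ∈ FPr S T K, D.pw i (g P) 1 * S.lam χ P 1 =
          (((D.pw i (g P) 1).re : ℝ) : ℂ) * S.lam χ P 1 +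
            Complex.I * ((((D.pw i (g P) 1).im : ℝ) : ℂ) * S.lam χ P 1) := by
        intro P _
        have h2 := Complex.re_add_im (D.pw i (g P) 1)
        linear_combination -(S.lam χ P 1) * h2
      rw [Finset.sum_congr rfl h1, Finset.sum_add_distrib, ← Finset.mul_sum, hre, him]
      have hI : Complex.I ≠ 0 := Complex.I_ne_zero
      field_simp
      ring
  · intro i hi χ hχ
    have hre := hg2 ⟨(⟨i, hi⟩, false), fun h => Bool.noConfusion h⟩ χ hχ
    simp only [Bool.false_eq_true, if_false] at hre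
    have hnn : 0 ≤ ((S.c χ : ℝ) + 2) * (S.q : ℝ) ^ ((σ + 2 * η) * K) := by positivity
    by_cases hs : D.sd i
    · have h1 : ∀ P ∈ FPr S T K, D.pw i (g P) 1 * S.lam χ P 1 =
          (((D.pw i (g P) 1).re : ℝ) : ℂ) * S.lam χ P 1 := by
        intro P _
        rw [Complex.conj_eq_iff_re.1 (D.real i hs (g P) 1)]
      rw [Finset.sum_congr rfl h1]
      linarith
    · have him := hg2 ⟨(⟨i, hi⟩, true), fun _ => hs⟩ χ hχ
      simp only [if_true] at him
      have h1 : ∀ P ∈ FPr S T K, D.pw i (g P) 1 * S.lam χ P 1 =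
          (((D.pw i (g P) 1).re : ℝ) : ℂ) * S.lam χ P 1 +
            Complex.I * ((((D.pw i (g P) 1).im : ℝ) : ℂ) * S.lam χ P 1) := by
        intro P _
        have h2 := Complex.re_add_im (D.pw i (g P) 1)
        linear_combination -(S.lam χ P 1) * h2
      rw [Finset.sum_congr rfl h1, Finset.sum_add_distrib, ← Finset.mul_sum]
      refine (norm_add_le _ _).trans ?_
      rw [norm_mul, Complex.norm_I, one_mul]
      linarith

end Pool.Agent.H497.TU
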