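import Pool.Agent.H497.TT.Asm
import Pool.Agent.H497.TU.Solver
import Pool.Agent.H497.TU.Wrap
import Pool.Agent.H497.TU.Remove
import Pool.Agent.H497.TU.Limit
import Pool.Agent.H497.TU.Tgt
import Pool.Agent.H497.TU.Natb
import Pool.Agent.H497.TU.Euler
import Pool.Agent.H497.TU.Eig
import Pool.Agent.H497.TU.Par

set_option autoImplicit false

namespace Pool.Agent.H497.TU

open MeasureTheory Pool.Agent.H497.TT

theorem solvS_exists {𝓟 𝓧 : Type} (S : TSys 𝓟 𝓧) {G : Type} [Group G] [TopologicalSpace G] [IsTopologicalGroup G]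
    [CompactSpace G] [T2Space G]
    (hgen : Dense ((Subgroup.closure {g : G | ∃ x : ℝ → G, Continuous x ∧ (∀ s t, x (s + t) = x s * x t) ∧ x 1 = g} :
      Subgroup G) : Set G))
    (n : ℕ → ℕ) (ρ : (i : ℕ) → G →* Matrix.unitaryGroup (Fin (n i)) ℂ) (hρ : ∀ i, Continuous (ρ i))
    (hirr : ∀ i, Irr (ρ i)) (hnt : ∀ i, ∃ g, ρ i g ≠ 1)
    (hne : ∀ i j, i ≠ j → ¬ Equi (mat (ρ i)) (mat (ρ j)) ∧ ¬ Equi (mat (ρ i)) (cmat (ρ j)))
    (T : Set 𝓟) (C : ℕ) (hT : ∀ k : ℕ, k ≠ 0 → (k : ℝ) * (TPr S T k).card ≤ C * √(S.q : ℝ) ^ k)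
    {σ η : ℝ} (hσ : 1 / 2 ≤ σ) (hη : 0 < η) (hη2 : σ + 16 * η ≤ 1) {κ : ℕ} (hκ : 1 ≤ κ)
    (hκη : 8 * (S.a : ℝ) ≤ η * κ) (m : ℕ) :
    ∃ K0, ∀ K, K0 ≤ K → SolvS S T (repRD n ρ) σ η κ m K := by
  classical
  letI : MeasurableSpace G := borel G
  haveI : BorelSpace G := ⟨rfl⟩
  set μ : Measure G := Measure.haarMeasure ⊤ with hμ
  haveI : IsProbabilityMeasure μ := ⟨by
    have := Measure.haarMeasure_self (K₀ := (⊤ : TopologicalSpace.PositiveCompacts G))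
    simpa using this⟩
  let z : {p : Fin m × Bool // p.2 = true → ¬ (repRD n ρ).sd p.1} → ℂ := fun α => if α.1.2 then -Complex.I else 1
  have hz : ∀ (α : {p : Fin m × Bool // p.2 = true → ¬ (repRD n ρ).sd p.1}) (w : ℂ),
      (z α * w).re = if α.1.2 then w.im else w.re := by
    intro α w
    by_cases h : α.1.2 = true
    · simp [z, h]
    · simp [z, h]
  have hcont : ∀ i, Continuous fun g => (mat (ρ i) g).trace := fun i =>
    (continuous_subtype_val.comp (hρ i)).matrix_trace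
  have hint : ∀ i, Integrable (fun g => (mat (ρ i) g).trace) μ := fun i =>
    (hcont i).integrable_of_hasCompactSupport (HasCompactSupport.of_compactSpace _)
  obtain ⟨s, ⟨Fm⟩⟩ := fam_exists μ hgen (ι := {p : Fin m × Bool // p.2 = true → ¬ (repRD n ρ).sd p.1})
    (fun α => n α.1.1) (fun α => ρ α.1.1) (fun α => hρ _) z (fun α => by
      have h1 := mean_zero μ (ρ α.1.1) (hρ _) (hirr _) (hnt _)
      have h2 : ∫ g, z α * (mat (ρ α.1.1) g).trace ∂μ = 0 := by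
        rw [integral_const_mul, h1, mul_zero]
      have h3 := integral_re ((hint α.1.1).const_mul (z α))
      have h4 : ∫ g, (z α * (mat (ρ α.1.1) g).trace).re ∂μ = 0 := by
        have : ∫ g, RCLike.re (z α * (mat (ρ α.1.1) g).trace) ∂μ = 0 := by
          rw [h3, h2]; simp
        exact this
      exact h4) (fun v hv => by
      refine indep μ (fun i : Fin m => n i) (fun i => ρ i) (fun i => hρ _) (fun i => hirr _) (fun i => hnt _)
        (fun i j hij => hne _ _ (fun h => hij (Fin.ext h))) v (fun g => ?_)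
      have h := hv g
      simp only [hz] at h
      exact h)
  obtain ⟨K0, hK0⟩ := solverU (remove S T C hT) μ Fm σ η hσ hη hη2 κ hκ hκη
  refine ⟨K0, fun K hK => solv_of_realU S (repRD n ρ) T σ η κ hκ m K (fun b hb1 hb2 => ?_)⟩
  have hX := remove_X S T C hT hκ K
  obtain ⟨g1, hg1, hg2⟩ := hK0 K hK b (fun α χ hχ => hb1 α χ (hX ▸ hχ)) (fun α χ hχ => hb2 α χ (hX ▸ hχ))
  haveI : Nonempty G := ⟨1⟩
  obtain ⟨g, hg⟩ := remove_ext S T C hT g1
  have e : ∀ (α : {p : Fin m × Bool // p.2 = true → ¬ (repRD n ρ).sd p.1}) (P : 𝓟),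
      (z α * (ρ α.1.1 (g P) : Matrix (Fin (n α.1.1)) (Fin (n α.1.1)) ℂ).trace).re =
      if α.1.2 then ((repRD n ρ).pw α.1.1 (g P) 1).im else ((repRD n ρ).pw α.1.1 (g P) 1).re := by
    intro α P
    rw [hz]
    simp [repRD, mat]
  have e2 : ∀ (α : {p : Fin m × Bool // p.2 = true → ¬ (repRD n ρ).sd p.1}) (χ : 𝓧),
      ∑ P ∈ FPr S T K, ((if α.1.2 then ((repRD n ρ).pw α.1.1 (g P) 1).im else
        ((repRD n ρ).pw α.1.1 (g P) 1).re : ℝ) : ℂ) * S.lam χ P 1 =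
      ∑ P ∈ (remove S T C hT).Pr K,
        (((z α * (ρ α.1.1 (g1 P) : Matrix (Fin (n α.1.1)) (Fin (n α.1.1)) ℂ).trace).re : ℝ) : ℂ) *
          (remove S T C hT).lam χ P 1 := by
    intro α χ
    rw [← remove_sum S T C hT]
    refine Finset.sum_congr rfl fun P _ => ?_
    rw [← e, hg P]
    rfl
  refine ⟨g, fun α χ hχ => ?_, fun α χ hχ => ?_⟩
  · rw [← hg1 α χ (hX.symm ▸ hχ), e2]
  · rw [e2]
    exact hg2 α χ (hX.symm ▸ hχ)

open Classical in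
/-- the classes: prescribed at the places in `T` -/
noncomputable def cls {𝓟 G : Type} [Group G] (n : ℕ → ℕ) (ρ : (i : ℕ) → G →* Matrix.unitaryGroup (Fin (n i)) ℂ)
    (T : Set 𝓟) (B : (i : ℕ) → 𝓟 → Matrix (Fin (n i)) (Fin (n i)) ℂ) (g : 𝓟 → G) (i : ℕ) (P : 𝓟) :
    Matrix (Fin (n i)) (Fin (n i)) ℂ := if P ∈ T then B i P else mat (ρ i) (g P)

theorem mainU {σ δ : ℝ} (hσ : 1 / 2 ≤ σ) (hσ1 : σ < 1) (hδ : 0 < δ) :
    ∃ ν : ℕ, ∀ {𝓟 𝓧 : Type} (S : TSys 𝓟 𝓧) (G : Type) [Group G] [TopologicalSpace G] [IsTopologicalGroup G] [CompactSpace G] [T2Space G],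
    Dense ((Subgroup.closure {g : G | ∃ x : ℝ → G, Continuous x ∧ (∀ s t, x (s + t) = x s * x t) ∧ x 1 = g} :
      Subgroup G) : Set G) →
    ∀ (n : ℕ → ℕ) (ρ : (i : ℕ) → G →* Matrix.unitaryGroup (Fin (n i)) ℂ), (∀ i, Continuous (ρ i)) →
    (∀ i, Irr (ρ i)) → (∀ i, ∃ g, ρ i g ≠ 1) →
    (∀ i j, i ≠ j → ¬ Equi (mat (ρ i)) (mat (ρ j)) ∧ ¬ Equi (mat (ρ i)) (cmat (ρ j))) →
    ∀ (T : Set 𝓟) (C : ℕ), (∀ k : ℕ, k ≠ 0 → (k : ℝ) * (TPr S T k).card ≤ C * √(S.q : ℝ) ^ k) →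
    ∃ N0 : ℕ → ℕ, ∀ (N : ℕ → 𝓧 → ℕ) (W : ℕ → 𝓧 → ℂ),
    (∀ i χ, ν * (S.a + 1) * (S.c χ + 1) + N0 i ≤ N i χ) → (∀ i χ, S.per χ ∣ N i χ) → (∀ i χ, ‖W i χ‖ = 1) →
    (∀ i, Equi (mat (ρ i)) (cmat (ρ i)) → ∀ χ, N i (S.bar χ) = N i χ ∧ W i (S.bar χ) = starRingEnd ℂ (W i χ)) →
    ∀ (U : Set (ℕ × 𝓧)) (t : ℕ → 𝓧 → ℕ → ℂ),
    (∀ i χ, (i, χ) ∈ U → ∀ k, ‖t i χ k‖ ≤ k * (S.q : ℝ) ^ (σ * k)) →
    (∀ i χ, (i, χ) ∈ U → ∀ k, ¬ S.per χ ∣ k → t i χ k = 0) →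
    (∀ i, Equi (mat (ρ i)) (cmat (ρ i)) → ∀ χ, (i, χ) ∈ U →
      (i, S.bar χ) ∈ U ∧ ∀ k, t i (S.bar χ) k = starRingEnd ℂ (t i χ k)) →
    ∀ (h : 𝓟 → ℝ), (∀ P, 1 ≤ h P) → (∀ P, h P ≤ (S.q : ℝ) ^ (σ * S.deg P)) →
    (∀ k : ℕ, k ≠ 0 → (k : ℝ) * ∑ P ∈ TPr S T k, h P ≤ C * (S.q : ℝ) ^ (σ * k)) →
    ∀ B : (i : ℕ) → 𝓟 → Matrix (Fin (n i)) (Fin (n i)) ℂ,
    (∀ i P, P ∈ T → ∀ z, (B i P).charpoly.IsRoot z → ‖z‖ ≤ h P) →
    (∀ i P, P ∈ T → Equi (mat (ρ i)) (cmat (ρ i)) → (B i P).charpoly.map (starRingEnd ℂ) = (B i P).charpoly) →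
    ∃ g : 𝓟 → G, ∀ (i : ℕ) (χ : 𝓧),
      ((i, χ) ∉ U → ∃ a : ℕ → ℂ, a 0 = 1 ∧ a (N i χ) = W i χ * ((√(S.q : ℝ) ^ N i χ : ℝ) : ℂ) ∧
        (∀ j, N i χ < j → a j = 0) ∧
        (∀ u : ℂ, u ≠ 0 → ∑ j ∈ Finset.range (N i χ + 1), a j * u ^ j =
          W i χ * ((√(S.q : ℝ) : ℝ) * u) ^ N i χ *
            starRingEnd ℂ (∑ j ∈ Finset.range (N i χ + 1), a j * (1 / (S.q * starRingEnd ℂ u)) ^ j)) ∧
        (∀ u : ℂ, ‖u‖ < (S.q : ℝ) ^ (-(σ + δ)) → ∑ j ∈ Finset.range (N i χ + 1), a j * u ^ j ≠ 0) ∧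
        ∀ u : ℂ, ‖u‖ < 1 / S.q → HasProd (fun P : 𝓟 =>
          ∏ j, (1 - (S.par χ P j * u ^ S.deg P) • cls n ρ T B g i P).det⁻¹)
          (∑ j ∈ Finset.range (N i χ + 1), a j * u ^ j)) ∧
      ((i, χ) ∈ U → ∃ p : Polynomial ℂ, p.coeff 0 = 0 ∧
        ∀ u : ℂ, ‖u‖ < 1 / S.q → HasProd (fun P : 𝓟 =>
          ∏ j, (1 - (S.par χ P j * u ^ S.deg P) • cls n ρ T B g i P).det⁻¹)
          (Complex.exp (p.eval u + ∑' k : ℕ, t i χ (k + 1) * u ^ (k + 1) / ((k + 1 : ℕ) : ℂ)))) := by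
  classical
  obtain ⟨η, hη0, hη1, hη2⟩ : ∃ η : ℝ, 0 < η ∧ 5 * η ≤ δ ∧ σ + 16 * η ≤ 1 :=
    ⟨min (δ / 5) ((1 - σ) / 16), lt_min (by linarith) (by linarith), by linarith [min_le_left (δ / 5) ((1 - σ) / 16)],
      by linarith [min_le_right (δ / 5) ((1 - σ) / 16)]⟩
  obtain ⟨ν, hν⟩ := paramsU η hη0
  refine ⟨ν, fun {𝓟 𝓧} S G _ _ _ _ _ hgen n ρ hρ hirr hnt hne T C hTC => ?_⟩
  have hq2 : (2 : ℝ) ≤ (S.q : ℝ) := by exact_mod_cast S.hq
  have hq0 : (0 : ℝ) < (S.q : ℝ) := by linarith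
  have hq1 : (1 : ℝ) < (S.q : ℝ) := by linarith
  obtain ⟨κ, hκ, hκη, hpar⟩ := hν S.q S.hq S.a
  haveI : Nonempty G := ⟨1⟩
  obtain ⟨M, hM⟩ := exists_MU (fun m => solvS_exists S hgen n ρ hρ hirr hnt hne T C hTC hσ hη0 hη2 hκ hκη m)
  have hH0 : ∀ i, 0 ≤ H2 S (repRD n ρ) C M i := fun i => by
    unfold H2
    positivity
  have hH : ∀ i, ∃ kb N0 : ℕ, M i ≤ kb ∧ NumT S.q η κ (ν * (S.a + 1)) (H2 S (repRD n ρ) C M i) kb N0 := fun i =>
    hpar _ _ (hH0 i)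
  choose kb N0 hkb hNum using hH
  refine ⟨N0, fun N W hN hNp hW hsd U t ht1 ht2 ht3 h hh1 hh2 hh3 B hB hBr => ?_⟩
  have hT : Thin S σ T h C := ⟨hh1, hh2, hTC, hh3⟩
  have hpt : Pt (repRD n ρ) T h (fun i P e => ((B i P) ^ e).trace) := by
    constructor
    · intro i P e hP
      obtain ⟨α, h1, h2, -⟩ := matrix_eig (B i P)
      rw [h2 e]
      refine (norm_sum_le _ _).trans ?_
      have h3 : ∀ l ∈ (Finset.univ : Finset (Fin (n i))), ‖α l ^ e‖ ≤ h P ^ e := fun l _ => by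
        rw [norm_pow]
        exact pow_le_pow_left₀ (norm_nonneg _) (hB i P hP _ (h1 l)) e
      refine (Finset.sum_le_sum h3).trans ?_
      rw [Finset.sum_const, Finset.card_univ, Fintype.card_fin, nsmul_eq_mul]
      rfl
    · intro i P e hP hs
      exact trace_real_of_charpoly _ (hBr i P hP hs) e
  have htgt : Tgt S (repRD n ρ) σ η κ kb (H2 S (repRD n ρ) C M) (mixT S κ kb N W U t) :=
    mixT_tgt (repRD n ρ) hσ hη0 U t ht1 ht2 ht3 hNum hN hNp hW hsd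
  obtain ⟨g, hG⟩ := limitU hσ hη0 hκ hkb (fun i => (hNum i).kb1) hT (fun i => (hNum i).kbH) hpt htgt hM (fun _ => 1)
  refine ⟨g, fun i χ => ?_⟩
  -- the eigenvalues
  have hE : ∀ P : 𝓟, ∃ α : Fin (n i) → ℂ, (P ∉ T → ∀ l, ‖α l‖ ≤ 1) ∧ (P ∈ T → ∀ l, ‖α l‖ ≤ h P) ∧
      (∀ e : ℕ, PW (repRD n ρ) T (fun i P e => ((B i P) ^ e).trace) g i P e = ∑ l, α l ^ e) ∧
      ∀ z : ℂ, (1 - z • cls n ρ T B g i P).det = ∏ l, (1 - α l * z) := by
    intro P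
    by_cases hP : P ∈ T
    · obtain ⟨α, h1, h2, h3⟩ := matrix_eig (B i P)
      refine ⟨α, fun h => absurd hP h, fun _ l => hB i P hP _ (h1 l), fun e => ?_, fun z => ?_⟩
      · unfold PW
        rw [if_pos hP]
        exact h2 e
      · unfold cls
        rw [if_pos hP]
        exact h3 z
    · obtain ⟨α, h1, h2, h3⟩ := unitary_eig (ρ i (g P))
      refine ⟨α, fun _ l => (h1 l).le, fun h => absurd h hP, fun e => ?_, fun z => ?_⟩
      · unfold PW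
        rw [if_neg hP]
        exact h2 e
      · unfold cls
        rw [if_neg hP]
        exact h3 z
  choose α hα1 hα2 hα3 hα4 using hE
  obtain ⟨TT, hTT⟩ : ∃ TT, TT = S.TS (PW (repRD n ρ) T (fun i P e => ((B i P) ^ e).trace) g i) χ := ⟨_, rfl⟩
  have hprod : ∀ u : ℂ, ‖u‖ < 1 / S.q → HasProd (fun P : 𝓟 =>
          ∏ j, (1 - (S.par χ P j * u ^ S.deg P) • cls n ρ T B g i P).det⁻¹)
        (Complex.exp (∑' k : ℕ, TT (k + 1) * u ^ (k + 1) / ((k + 1 : ℕ) : ℂ))) := by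
    intro u hu
    have h1 := eulerU S (by linarith) hσ1 hT α hα1 hα2 χ u hu
    have e1 : S.TS (fun P e => ∑ l, α P l ^ e) χ = TT := by
      rw [hTT]
      congr 1
      funext P e
      exact (hα3 P e).symm
    rw [e1] at h1
    convert h1 using 2 with P
    refine Finset.prod_congr rfl fun j _ => ?_
    rw [hα4, ← Finset.prod_inv_distrib]
  have hkb1 := (hNum i).kb1
  have heqn : ∀ k, κ * (S.c χ + 1) + kb i ≤ k → TT k = mixT S κ kb N W U t i χ TT k := by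
    intro k hk
    rw [hTT]
    exact (hG (k + 1)).eqn i χ k hk (Nat.lt_succ_self k)
  refine ⟨fun hU => ?_, fun hU => ?_⟩
  · obtain ⟨hN2, -⟩ := (hNum i).core (S.c χ) (N i χ) (hN i χ)
    have hk1 : 1 ≤ κ * (S.c χ + 1) + kb i := by omega
    obtain ⟨a, ha⟩ : ∃ a, a = FF.LL S.q TT (κ * (S.c χ + 1) + kb i) (N i χ) (W i χ) := ⟨_, rfl⟩
    have ha0 : a 0 = 1 := by rw [ha]; exact FF.LL_zero _ _ _ _ _ hk1 hN2
    have hasupp : ∀ j, N i χ < j → a j = 0 := fun j hj => by rw [ha]; exact FF.LL_supp _ _ _ _ _ hN2 j hj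
    have hmix : ∀ k, mixT S κ kb N W U t i χ TT k = FF.ldc a k := by
      intro k
      unfold mixT niceT
      rw [if_neg hU, ha]
    have hld : ∀ k, k ≠ 0 → TT k = FF.ldc a k := by
      intro k hk
      by_cases hkk : k < κ * (S.c χ + 1) + kb i
      · rw [ha]
        exact (FF.ldc_low _ _ _ _ _ hN2 k (Nat.one_le_iff_ne_zero.2 hk) hkk).symm
      · push Not at hkk
        rw [heqn k hkk, hmix]
    have hrec : ∀ k : ℕ, (k : ℂ) * a k = ∑ j ∈ Finset.range k, TT (j + 1) * a (k - 1 - j) := by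
      intro k
      rw [FF.ldc_rec a ha0 k]
      exact Finset.sum_congr rfl fun j _ => by rw [hld (j + 1) (Nat.succ_ne_zero j)]
    -- the bound for the power sums
    set x : ℝ := (S.q : ℝ) ^ (-η) with hx
    have hx0 : 0 < x := Real.rpow_pos_of_pos hq0 _
    have hx1 : x < 1 := Real.rpow_lt_one_of_one_lt_of_neg hq1 (by linarith)
    set y : ℝ := (S.q : ℝ) ^ (σ + 5 * η) with hy
    have hy0 : 0 < y := Real.rpow_pos_of_pos hq0 _
    obtain ⟨C', hC'⟩ := bdd_auxT (fun k => ‖TT k‖ / y ^ k) (fun k => by positivity) x hx0 hx1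
      (κ * (S.c χ + 1) + kb i) (fun k hk => by
      rw [div_le_iff₀ (by positivity)]
      have h1 := htgt.bound i χ TT (fun j hj1 hj2 => by
        rw [hTT]
        exact TSU_est hσ hη0 hT hpt (hG (j + 1)) i χ (by omega) (Nat.lt_succ_self j) hj2) k hk
      rw [← heqn k hk] at h1
      refine h1.trans (le_of_eq ?_)
      rw [mul_assoc, ← mul_pow]
      congr 1
      rw [hx, hy, ← Real.rpow_add hq0, ← Real.rpow_natCast, ← Real.rpow_mul hq0.le]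
      congr 1
      ring)
    have hTb : ∀ k : ℕ, ‖TT (k + 1)‖ ≤ C' * y ^ (k + 1) := fun k => by
      have := hC' (k + 1)
      rwa [div_le_iff₀ (by positivity)] at this
    have hexp : ∀ u : ℂ, ‖u‖ < (S.q : ℝ) ^ (-(σ + 5 * η)) →
        Complex.exp (∑' k : ℕ, TT (k + 1) * u ^ (k + 1) / ((k + 1 : ℕ) : ℂ)) =
          ∑ j ∈ Finset.range (N i χ + 1), a j * u ^ j := fun u hu =>
      FF.exp_eq y hy0 C' TT a (N i χ) ha0 hasupp hTb hrec u (by
        refine lt_of_lt_of_le hu (le_of_eq ?_)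
        rw [hy, Real.rpow_neg hq0.le, ← one_div])
    refine ⟨a, ha0, ?_, hasupp, fun u hu => ?_, fun u hu => ?_, fun u hu => ?_⟩
    · rw [ha]
      unfold FF.LL
      rw [if_neg (by omega), if_pos ⟨le_rfl, by omega⟩]
      simp [FF.expc_zero]
    · rw [ha]
      exact FF.LL_FE _ S.hq _ _ _ _ (hW i χ) hN2 u hu
    · rw [← hexp u (lt_of_lt_of_le hu (Real.rpow_le_rpow_of_exponent_le hq1.le (by linarith)))]
      exact Complex.exp_ne_zero _
    · rw [← hexp u (lt_of_lt_of_le hu (by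
        rw [one_div, ← Real.rpow_neg_one]
        exact Real.rpow_le_rpow_of_exponent_le hq1.le (by linarith)))]
      exact hprod u hu
  · have hmix : ∀ k, mixT S κ kb N W U t i χ TT k = t i χ k := by
      intro k
      unfold mixT
      rw [if_pos hU]
    obtain ⟨k0, hk0⟩ : ∃ k0, k0 = κ * (S.c χ + 1) + kb i := ⟨_, rfl⟩
    have hl : ∀ k, k0 ≤ k → TT k = t i χ k := by
      intro k hk
      rw [heqn k (hk0 ▸ hk), hmix]
    refine ⟨∑ k ∈ Finset.range k0, Polynomial.C ((TT (k + 1) - t i χ (k + 1)) / ((k + 1 : ℕ) : ℂ)) *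
      Polynomial.X ^ (k + 1), ?_, fun u hu => ?_⟩
    · rw [Polynomial.finset_sum_coeff]
      refine Finset.sum_eq_zero fun k _ => ?_
      rw [Polynomial.coeff_C_mul, Polynomial.coeff_X_pow, if_neg (by omega), mul_zero]
    · have h1 := hprod u hu
      have hS : Summable fun k : ℕ => t i χ (k + 1) * u ^ (k + 1) / ((k + 1 : ℕ) : ℂ) := by
        obtain ⟨y, hy⟩ : ∃ y : ℝ, y = (S.q : ℝ) ^ σ * ‖u‖ := ⟨_, rfl⟩
        have hy0 : 0 ≤ y := by rw [hy]; positivity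
        have hy1 : y < 1 := by
          rw [hy]
          have h2 : (S.q : ℝ) ^ σ ≤ (S.q : ℝ) ^ (1 : ℝ) := Real.rpow_le_rpow_of_exponent_le hq1.le hσ1.le
          rw [Real.rpow_one] at h2
          calc (S.q : ℝ) ^ σ * ‖u‖ ≤ S.q * ‖u‖ := mul_le_mul_of_nonneg_right h2 (norm_nonneg _)
            _ < S.q * (1 / S.q) := mul_lt_mul_of_pos_left hu hq0
            _ = 1 := by field_simp
        refine Summable.of_norm_bounded (g := fun k : ℕ => y ^ (k + 1)) ?_ fun k => ?_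
        · exact (summable_geometric_of_lt_one hy0 hy1).comp_injective (add_left_injective 1)
        · have hk : (0 : ℝ) < ((k + 1 : ℕ) : ℝ) := by positivity
          rw [norm_div, norm_mul, norm_pow, Complex.norm_natCast, div_le_iff₀ hk]
          have h3 := ht1 i χ hU (k + 1)
          calc ‖t i χ (k + 1)‖ * ‖u‖ ^ (k + 1) ≤
              (((k + 1 : ℕ) : ℝ) * (S.q : ℝ) ^ (σ * ((k + 1 : ℕ) : ℝ))) * ‖u‖ ^ (k + 1) :=
                mul_le_mul_of_nonneg_right h3 (by positivity)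
            _ = y ^ (k + 1) * ((k + 1 : ℕ) : ℝ) := by
                rw [hy, mul_pow, Real.rpow_mul hq0.le, Real.rpow_natCast]
                ring
      have hD : HasSum (fun k : ℕ => (TT (k + 1) - t i χ (k + 1)) * u ^ (k + 1) / ((k + 1 : ℕ) : ℂ))
          (∑ k ∈ Finset.range k0, (TT (k + 1) - t i χ (k + 1)) * u ^ (k + 1) / ((k + 1 : ℕ) : ℂ)) := by
        refine hasSum_sum_of_ne_finset_zero fun k hk => ?_
        rw [Finset.mem_range, not_lt] at hk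
        rw [hl (k + 1) (by omega), sub_self, zero_mul, zero_div]
      have e1 : ∑' k : ℕ, TT (k + 1) * u ^ (k + 1) / ((k + 1 : ℕ) : ℂ) =
          (∑ k ∈ Finset.range k0, (TT (k + 1) - t i χ (k + 1)) * u ^ (k + 1) / ((k + 1 : ℕ) : ℂ)) +
          ∑' k : ℕ, t i χ (k + 1) * u ^ (k + 1) / ((k + 1 : ℕ) : ℂ) := by
        rw [← (hD.add hS.hasSum).tsum_eq]
        refine tsum_congr fun k => ?_
        ring
      rw [e1] at h1
      have e2 : (∑ k ∈ Finset.range k0, Polynomial.C ((TT (k + 1) - t i χ (k + 1)) / ((k + 1 : ℕ) : ℂ)) *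
          Polynomial.X ^ (k + 1)).eval u =
          ∑ k ∈ Finset.range k0, (TT (k + 1) - t i χ (k + 1)) * u ^ (k + 1) / ((k + 1 : ℕ) : ℂ) := by
        rw [Polynomial.eval_finset_sum]
        refine Finset.sum_congr rfl fun k _ => ?_
        rw [Polynomial.eval_mul, Polynomial.eval_C, Polynomial.eval_pow, Polynomial.eval_X]
        ring
      rw [e2]
      exact h1

end Pool.Agent.H497.TU
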