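import Pool.Agent.H497.TU.Defs

set_option autoImplicit false



namespace Pool.Agent.H497.TU

open MeasureTheory Pool.Agent.H497.TT


variable {𝓟 𝓧 G : Type}

namespace BoundsAux

theorem TS_split (S : TSys 𝓟 𝓧) (pw : 𝓟 → ℕ → ℂ) (χ : 𝓧) {K : ℕ} (hK : K ≠ 0) :
    S.TS pw χ K = (K : ℂ) * ∑ P ∈ S.Pr K, pw P 1 * S.lam χ P 1 + S.pp pw χ K := by
  unfold TSys.TS TSys.pp
  have h := Finset.add_sum_erase K.divisors
    (fun d => (d : ℂ) * ∑ P ∈ S.Pr d, pw P (K / d) * S.lam χ P (K / d))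
    (Nat.mem_divisors_self K hK)
  rw [← h]
  simp only [Nat.div_self (Nat.pos_of_ne_zero hK)]

theorem lam_le (S : TSys 𝓟 𝓧) (χ : 𝓧) (P : 𝓟) (e : ℕ) : ‖S.lam χ P e‖ ≤ S.R := by
  unfold TSys.lam
  calc ‖∑ j, S.par χ P j ^ e‖ ≤ ∑ j : Fin S.R, (1 : ℝ) := by
        refine norm_sum_le_of_le _ fun j _ => ?_
        rw [norm_pow]
        exact pow_le_one₀ (norm_nonneg _) (S.par_le χ P j)
    _ = S.R := by simp

theorem Pr_le (S : TSys 𝓟 𝓧) (d : ℕ) : (d : ℝ) * (S.Pr d).card ≤ (1 + S.A) * (S.q : ℝ) ^ d := by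
  rcases eq_or_ne d 0 with rfl | hd
  · simp; positivity
  · have hq : (2 : ℝ) ≤ S.q := by exact_mod_cast S.hq
    have h1 := S.Pr_card d hd
    have h2 := (abs_le.1 h1).2
    have h3 : √(S.q : ℝ) ≤ S.q := Real.sqrt_le_iff.2 ⟨by positivity, by nlinarith⟩
    have h4 : √(S.q : ℝ) ^ d ≤ (S.q : ℝ) ^ d := pow_le_pow_left₀ (Real.sqrt_nonneg _) h3 d
    have h5 : (S.A : ℝ) * √(S.q : ℝ) ^ d ≤ S.A * (S.q : ℝ) ^ d :=
      mul_le_mul_of_nonneg_left h4 (Nat.cast_nonneg _)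
    linarith

theorem part_le (S : TSys 𝓟 𝓧) (pw : 𝓟 → ℕ → ℂ) (n : ℕ) (h : ∀ P e, ‖pw P e‖ ≤ n) (χ : 𝓧)
    (k : ℕ) (s : Finset ℕ) :
    ‖∑ d ∈ s, (d : ℂ) * ∑ P ∈ S.Pr d, pw P (k / d) * S.lam χ P (k / d)‖ ≤
      n * S.R * (1 + S.A) * ∑ d ∈ s, (S.q : ℝ) ^ d := by
  rw [Finset.mul_sum]
  refine norm_sum_le_of_le _ fun d _ => ?_
  rw [norm_mul, Complex.norm_natCast]
  have h1 : ‖∑ P ∈ S.Pr d, pw P (k / d) * S.lam χ P (k / d)‖ ≤ (S.Pr d).card * (n * S.R) := by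
    calc _ ≤ ∑ P ∈ S.Pr d, ((n : ℝ) * S.R) := by
          refine norm_sum_le_of_le _ fun P _ => ?_
          rw [norm_mul]
          exact mul_le_mul (h P _) (lam_le S χ P _) (norm_nonneg _) (Nat.cast_nonneg _)
      _ = _ := by rw [Finset.sum_const, nsmul_eq_mul]
  calc (d : ℝ) * ‖∑ P ∈ S.Pr d, pw P (k / d) * S.lam χ P (k / d)‖
      ≤ d * ((S.Pr d).card * (n * S.R)) := mul_le_mul_of_nonneg_left h1 (Nat.cast_nonneg _)
    _ = (d * (S.Pr d).card) * (n * S.R) := by ring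
    _ ≤ ((1 + S.A) * (S.q : ℝ) ^ d) * (n * S.R) :=
        mul_le_mul_of_nonneg_right (Pr_le S d) (by positivity)
    _ = n * S.R * (1 + S.A) * (S.q : ℝ) ^ d := by ring

theorem geo_le (q : ℝ) (hq : 2 ≤ q) (k : ℕ) : ∑ d ∈ Finset.range (k + 1), q ^ d ≤ 2 * q ^ k := by
  induction k with
  | zero => simp
  | succ k ih =>
    rw [Finset.sum_range_succ]
    have h1 : 2 * q ^ k ≤ q ^ (k + 1) := by
      rw [pow_succ, mul_comm]
      exact mul_le_mul_of_nonneg_left hq (by positivity)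
    linarith

theorem geo_full (q : ℝ) (hq : 2 ≤ q) (k : ℕ) : ∑ d ∈ k.divisors, q ^ d ≤ 2 * q ^ k := by
  refine le_trans ?_ (geo_le q hq k)
  refine Finset.sum_le_sum_of_subset_of_nonneg ?_ (fun d _ _ => by positivity)
  intro d hd
  exact Finset.mem_range.2 (Nat.lt_succ_of_le (Nat.divisor_le hd))

theorem geo_half (q : ℝ) (hq : 2 ≤ q) (k : ℕ) :
    ∑ d ∈ k.divisors.erase k, q ^ d ≤ 2 * q ^ ((1 / 2 : ℝ) * k) := by
  have h2 : ∑ d ∈ k.divisors.erase k, q ^ d ≤ 2 * q ^ (k / 2) := by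
    refine le_trans ?_ (geo_le q hq (k / 2))
    refine Finset.sum_le_sum_of_subset_of_nonneg ?_ (fun d _ _ => by positivity)
    intro d hd
    obtain ⟨hne, hd⟩ := Finset.mem_erase.1 hd
    obtain ⟨⟨m, hm⟩, hk0⟩ := Nat.mem_divisors.1 hd
    have hm2 : 2 ≤ m := by
      rcases m with _ | _ | m
      · simp at hm; exact absurd hm hk0
      · simp at hm; exact absurd hm.symm hne
      · omega
    refine Finset.mem_range.2 (Nat.lt_succ_of_le ?_)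
    rw [Nat.le_div_iff_mul_le two_pos, hm]
    exact Nat.mul_le_mul_left d hm2
  refine h2.trans (mul_le_mul_of_nonneg_left ?_ (by norm_num))
  rw [← Real.rpow_natCast]
  refine Real.rpow_le_rpow_of_exponent_le (by linarith) ?_
  have h3 : ((k / 2 : ℕ) : ℝ) ≤ (k : ℝ) / 2 := Nat.cast_div_le
  linarith

open Classical in
/-- the power sums at the free places -/
noncomputable def pwF (D : RD G) (T : Set 𝓟) (g : 𝓟 → G) (i : ℕ) (P : 𝓟) (e : ℕ) : ℂ :=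
  if P ∈ T then 0 else D.pw i (g P) e

theorem pwF_le (D : RD G) (T : Set 𝓟) (g : 𝓟 → G) (i : ℕ) (P : 𝓟) (e : ℕ) :
    ‖pwF D T g i P e‖ ≤ D.n i := by
  unfold pwF
  split_ifs
  · rw [norm_zero]
    exact Nat.cast_nonneg _
  · exact D.bd i (g P) e

theorem PW_split (S : TSys 𝓟 𝓧) (D : RD G) (T : Set 𝓟) (pt : ℕ → 𝓟 → ℕ → ℂ) (g : 𝓟 → G) (i : ℕ)
    (χ : 𝓧) (d e : ℕ) : ∑ P ∈ S.Pr d, PW D T pt g i P e * S.lam χ P e =
      ∑ P ∈ S.Pr d, pwF D T g i P e * S.lam χ P e + ∑ P ∈ TPr S T d, pt i P e * S.lam χ P e := by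
  classical
  have h1 : ∑ P ∈ TPr S T d, pt i P e * S.lam χ P e =
      ∑ P ∈ S.Pr d, if P ∈ T then pt i P e * S.lam χ P e else 0 := by
    unfold TPr
    rw [Finset.sum_filter]
  rw [h1, ← Finset.sum_add_distrib]
  refine Finset.sum_congr rfl fun P _ => ?_
  unfold PW pwF
  by_cases h : P ∈ T
  · rw [if_pos h, if_pos h, if_pos h, zero_mul, zero_add]
  · rw [if_neg h, if_neg h, if_neg h, add_zero]

theorem mem_TPr {S : TSys 𝓟 𝓧} {T : Set 𝓟} {d : ℕ} {P : 𝓟} (h : P ∈ TPr S T d) :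
    S.deg P = d ∧ P ∈ T := by
  classical
  unfold TPr at h
  have h' := Finset.mem_filter.1 h
  exact ⟨(S.mem_Pr d P).1 h'.1, h'.2⟩

/-- the part of the prescribed places for one divisor -/
theorem Tdiv_le {S : TSys 𝓟 𝓧} {D : RD G} {σ : ℝ} {T : Set 𝓟} {h : 𝓟 → ℝ} {C : ℕ}
    (hT : Thin S σ T h C) {pt : ℕ → 𝓟 → ℕ → ℂ} (hpt : Pt D T h pt) (i : ℕ) (χ : 𝓧) {k d : ℕ}
    (hd : d ∣ k) (hk : k ≠ 0) :
    ‖(d : ℂ) * ∑ P ∈ TPr S T d, pt i P (k / d) * S.lam χ P (k / d)‖ ≤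
      D.n i * S.R * C * (S.q : ℝ) ^ (σ * k) := by
  have hq2 : (2 : ℝ) ≤ S.q := by exact_mod_cast S.hq
  have hq0 : (0 : ℝ) < S.q := by linarith
  obtain ⟨e, rfl⟩ := hd
  have hd0 : d ≠ 0 := fun h0 => hk (by rw [h0, zero_mul])
  have he0 : e ≠ 0 := fun h0 => hk (by rw [h0, mul_zero])
  obtain ⟨e, rfl⟩ := Nat.exists_eq_succ_of_ne_zero he0
  rw [Nat.mul_div_cancel_left _ (Nat.pos_of_ne_zero hd0), norm_mul, Complex.norm_natCast]
  have h1 : ‖∑ P ∈ TPr S T d, pt i P e.succ * S.lam χ P e.succ‖ ≤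
      ∑ P ∈ TPr S T d, (D.n i * S.R * (S.q : ℝ) ^ (σ * d * e)) * h P := by
    refine norm_sum_le_of_le _ fun P hP => ?_
    obtain ⟨hdeg, hPT⟩ := mem_TPr hP
    rw [norm_mul]
    have hh1 := hT.one_le P
    have hh0 : 0 ≤ h P := by linarith
    have h2 := hpt.bd i P e.succ hPT
    have h3 := lam_le S χ P e.succ
    have h4 : h P ^ e ≤ (S.q : ℝ) ^ (σ * d * e) := by
      have h5 := hT.le P
      rw [hdeg] at h5
      refine (pow_le_pow_left₀ hh0 h5 e).trans (le_of_eq ?_)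
      rw [← Real.rpow_natCast, ← Real.rpow_mul hq0.le]
    calc ‖pt i P e.succ‖ * ‖S.lam χ P e.succ‖ ≤ (D.n i * h P ^ e.succ) * S.R :=
          mul_le_mul h2 h3 (norm_nonneg _) (by positivity)
      _ = (D.n i * S.R * h P ^ e) * h P := by rw [pow_succ]; ring
      _ ≤ (D.n i * S.R * (S.q : ℝ) ^ (σ * d * e)) * h P := by gcongr
  rw [← Finset.mul_sum] at h1
  have h2 := hT.sum d hd0
  have h6 : (0 : ℝ) < (S.q : ℝ) ^ (σ * d * e) := Real.rpow_pos_of_pos hq0 _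
  calc (d : ℝ) * ‖∑ P ∈ TPr S T d, pt i P e.succ * S.lam χ P e.succ‖
      ≤ d * ((D.n i * S.R * (S.q : ℝ) ^ (σ * d * e)) * ∑ P ∈ TPr S T d, h P) :=
        mul_le_mul_of_nonneg_left h1 (Nat.cast_nonneg _)
    _ = (D.n i * S.R * (S.q : ℝ) ^ (σ * d * e)) * (d * ∑ P ∈ TPr S T d, h P) := by ring
    _ ≤ (D.n i * S.R * (S.q : ℝ) ^ (σ * d * e)) * (C * (S.q : ℝ) ^ (σ * d)) :=
        mul_le_mul_of_nonneg_left h2 (by positivity)
    _ = D.n i * S.R * C * ((S.q : ℝ) ^ (σ * d * e) * (S.q : ℝ) ^ (σ * d)) := by ring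
    _ = _ := by
        rw [← Real.rpow_add hq0]
        congr 2
        push_cast
        ring

/-- the bound for a set of divisors -/
theorem partU_le {S : TSys 𝓟 𝓧} {D : RD G} {σ : ℝ} {T : Set 𝓟} {h : 𝓟 → ℝ} {C : ℕ}
    (hT : Thin S σ T h C) {pt : ℕ → 𝓟 → ℕ → ℂ} (hpt : Pt D T h pt) (g : 𝓟 → G) (i : ℕ) (χ : 𝓧)
    {k : ℕ} (hk : k ≠ 0) (s : Finset ℕ) (hs : s ⊆ k.divisors) :
    ‖∑ d ∈ s, (d : ℂ) * ∑ P ∈ S.Pr d, PW D T pt g i P (k / d) * S.lam χ P (k / d)‖ ≤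
      D.n i * S.R * (1 + S.A) * ∑ d ∈ s, (S.q : ℝ) ^ d +
        D.n i * S.R * C * (k * (S.q : ℝ) ^ (σ * k)) := by
  have hq2 : (2 : ℝ) ≤ S.q := by exact_mod_cast S.hq
  have hq0 : (0 : ℝ) < S.q := by linarith
  have e1 : ∑ d ∈ s, (d : ℂ) * ∑ P ∈ S.Pr d, PW D T pt g i P (k / d) * S.lam χ P (k / d) =
      ∑ d ∈ s, (d : ℂ) * ∑ P ∈ S.Pr d, pwF D T g i P (k / d) * S.lam χ P (k / d) +
      ∑ d ∈ s, (d : ℂ) * ∑ P ∈ TPr S T d, pt i P (k / d) * S.lam χ P (k / d) := by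
    rw [← Finset.sum_add_distrib]
    refine Finset.sum_congr rfl fun d _ => ?_
    rw [PW_split, mul_add]
  rw [e1]
  refine (norm_add_le _ _).trans (add_le_add ?_ ?_)
  · exact part_le S (pwF D T g i) (D.n i) (pwF_le D T g i) χ k s
  · have h1 : ‖∑ d ∈ s, (d : ℂ) * ∑ P ∈ TPr S T d, pt i P (k / d) * S.lam χ P (k / d)‖ ≤
        ∑ _d ∈ s, D.n i * S.R * C * (S.q : ℝ) ^ (σ * k) :=
      norm_sum_le_of_le _ fun d hd => Tdiv_le hT hpt i χ (Nat.dvd_of_mem_divisors (hs hd)) hk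
    refine h1.trans ?_
    rw [Finset.sum_const, nsmul_eq_mul]
    have h2 : (s.card : ℝ) ≤ k := by
      have : s.card ≤ k := (Finset.card_le_card hs).trans (Nat.card_divisors_le_self k)
      exact_mod_cast this
    have h3 : 0 ≤ (D.n i : ℝ) * S.R * C * (S.q : ℝ) ^ (σ * k) := by
      have := Real.rpow_nonneg hq0.le (σ * k)
      positivity
    calc (s.card : ℝ) * (D.n i * S.R * C * (S.q : ℝ) ^ (σ * k)) ≤
          k * (D.n i * S.R * C * (S.q : ℝ) ^ (σ * k)) := mul_le_mul_of_nonneg_right h2 h3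
      _ = _ := by ring

end BoundsAux

open BoundsAux

theorem sum_split (S : TSys 𝓟 𝓧) (T : Set 𝓟) (f : 𝓟 → ℂ) (k : ℕ) :
    ∑ P ∈ S.Pr k, f P = ∑ P ∈ FPr S T k, f P + ∑ P ∈ TPr S T k, f P := by
  classical
  unfold FPr TPr
  rw [add_comm]
  exact (Finset.sum_filter_add_sum_filter_not _ _ _).symm

/-- `‖pw‖ ≤ n h(P)`, `‖lam‖ ≤ R`, `Thin.sum`, `1 ≤ k` -/
theorem TPart_le {S : TSys 𝓟 𝓧} {D : RD G} {σ : ℝ} {T : Set 𝓟} {h : 𝓟 → ℝ} {C : ℕ} (hT : Thin S σ T h C)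
    {pt : ℕ → 𝓟 → ℕ → ℂ} (hpt : Pt D T h pt) (g : 𝓟 → G) (i : ℕ) (χ : 𝓧) {k : ℕ} (hk : k ≠ 0) :
    ‖∑ P ∈ TPr S T k, PW D T pt g i P 1 * S.lam χ P 1‖ ≤ D.n i * S.R * C * (S.q : ℝ) ^ (σ * k) := by
  have h1 := Tdiv_le hT hpt i χ (dvd_refl k) hk
  rw [Nat.div_self (Nat.pos_of_ne_zero hk), norm_mul, Complex.norm_natCast] at h1
  have e1 : ∑ P ∈ TPr S T k, PW D T pt g i P 1 * S.lam χ P 1 =
      ∑ P ∈ TPr S T k, pt i P 1 * S.lam χ P 1 := by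
    refine Finset.sum_congr rfl fun P hP => ?_
    unfold PW
    rw [if_pos (mem_TPr hP).2]
  rw [e1]
  have hk1 : (1 : ℝ) ≤ k := by exact_mod_cast Nat.one_le_iff_ne_zero.mpr hk
  refine le_trans ?_ h1
  exact le_mul_of_one_le_left (norm_nonneg _) hk1

/-- Split `PW = (if P ∈ T then 0 else ..) + (if P ∈ T then .. else 0)`. For the first part see `pp_le` in
Pool/Agent/H497/TT/Per.lean (origin/main): `∑_{d ∣ k, d ≤ k/2} n R (1+A) q^d ≤ 2 n R (1+A) q^(k/2)`. For the second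
part `h P ^ e ≤ h P * q^(σ d (e-1))` (`e = k/d`), so `d ∑_{P ∈ TPr d} h P ^ e ≤ C q^(σ d) q^(σ d (e-1)) = C q^(σ k)` for
each of the at most `k` divisors. -/
theorem ppU_le {S : TSys 𝓟 𝓧} {D : RD G} {σ : ℝ} (hσ : 1 / 2 ≤ σ) {T : Set 𝓟} {h : 𝓟 → ℝ} {C : ℕ}
    (hT : Thin S σ T h C) {pt : ℕ → 𝓟 → ℕ → ℂ} (hpt : Pt D T h pt) (g : 𝓟 → G) (i : ℕ) (χ : 𝓧) {k : ℕ} (hk : k ≠ 0) :
    ‖S.pp (PW D T pt g i) χ k‖ ≤ 2 * D.n i * S.R * (1 + S.A) * (S.q : ℝ) ^ ((1 / 2 : ℝ) * k) +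
      D.n i * S.R * C * (k * (S.q : ℝ) ^ (σ * k)) := by
  have hq2 : (2 : ℝ) ≤ S.q := by exact_mod_cast S.hq
  unfold TSys.pp
  refine (partU_le hT hpt g i χ hk (k.divisors.erase k) (Finset.erase_subset _ _)).trans ?_
  refine add_le_add ?_ le_rfl
  calc _ ≤ D.n i * S.R * (1 + S.A) * (2 * (S.q : ℝ) ^ ((1 / 2 : ℝ) * k)) :=
        mul_le_mul_of_nonneg_left (geo_half S.q hq2 k) (by positivity)
    _ = _ := by ring

/-- as `ppU_le` and `TS_le` in Pool/Agent/H497/TT/Per.lean (origin/main) -/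
theorem TSU_le {S : TSys 𝓟 𝓧} {D : RD G} {σ : ℝ} (hσ : 1 / 2 ≤ σ) {T : Set 𝓟} {h : 𝓟 → ℝ} {C : ℕ}
    (hT : Thin S σ T h C) {pt : ℕ → 𝓟 → ℕ → ℂ} (hpt : Pt D T h pt) (g : 𝓟 → G) (i : ℕ) (χ : 𝓧) {k : ℕ} (hk : k ≠ 0) :
    ‖S.TS (PW D T pt g i) χ k‖ ≤ 2 * D.n i * S.R * (1 + S.A) * (S.q : ℝ) ^ k +
      D.n i * S.R * C * (k * (S.q : ℝ) ^ (σ * k)) := by
  have hq2 : (2 : ℝ) ≤ S.q := by exact_mod_cast S.hq
  unfold TSys.TS
  refine (partU_le hT hpt g i χ hk k.divisors (Finset.Subset.refl _)).trans ?_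
  refine add_le_add ?_ le_rfl
  calc _ ≤ D.n i * S.R * (1 + S.A) * (2 * (S.q : ℝ) ^ k) :=
        mul_le_mul_of_nonneg_left (geo_full S.q hq2 k) (by positivity)
    _ = _ := by ring

/-- Adapt `TS_est` in Pool/Agent/H497/TT/Est.lean (origin/main). `TS = k ∑ + pp`; for `M i ≤ k` use `hG.low`, `ppU_le`;
for `k < M i` use `TSU_le` and `q^k ≤ q^(M i)`. -/
theorem TSU_est {S : TSys 𝓟 𝓧} {D : RD G} {σ η : ℝ} (hσ : 1 / 2 ≤ σ) (hη : 0 < η) {κ : ℕ} {kb M : ℕ → ℕ}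
    {T : Set 𝓟} {h : 𝓟 → ℝ} {C : ℕ} (hT : Thin S σ T h C) {pt : ℕ → 𝓟 → ℕ → ℂ} (hpt : Pt D T h pt) {g : 𝓟 → G}
    {tgt : ℕ → 𝓧 → (ℕ → ℂ) → ℕ → ℂ} {K : ℕ}
    (hG : GoodU S D σ η κ kb M C tgt (PW D T pt g) K) (i : ℕ) (χ : 𝓧) {k : ℕ} (hk : k ≠ 0) (hkK : k < K)
    (hk0 : k < κ * (S.c χ + 1) + kb i) :
    ‖S.TS (PW D T pt g i) χ k‖ ≤ k * (((S.c χ : ℝ) + H2 S D C M i) * (S.q : ℝ) ^ ((σ + 2 * η) * k)) := by
  have hq2 : (2 : ℝ) ≤ S.q := by exact_mod_cast S.hq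
  have hq1 : (1 : ℝ) ≤ S.q := by linarith
  have hk1 : (1 : ℝ) ≤ k := by exact_mod_cast Nat.one_le_iff_ne_zero.mpr hk
  have hqM : (1 : ℝ) ≤ (S.q : ℝ) ^ M i := one_le_pow₀ hq1
  have hc0 : (0 : ℝ) ≤ S.c χ := Nat.cast_nonneg _
  have hη' : 0 ≤ 2 * η * k := by positivity
  have hrp : (1 : ℝ) ≤ (S.q : ℝ) ^ ((σ + 2 * η) * k) :=
    Real.one_le_rpow hq1 (by positivity)
  have hsk : (S.q : ℝ) ^ (σ * k) ≤ (S.q : ℝ) ^ ((σ + 2 * η) * k) := by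
    apply Real.rpow_le_rpow_of_exponent_le hq1
    linarith
  have hhk : (S.q : ℝ) ^ ((1 / 2 : ℝ) * k) ≤ (S.q : ℝ) ^ ((σ + 2 * η) * k) := by
    apply Real.rpow_le_rpow_of_exponent_le hq1
    have : (1 / 2 : ℝ) * k ≤ σ * k := mul_le_mul_of_nonneg_right hσ (by linarith)
    linarith
  obtain ⟨Q, hQ⟩ : ∃ Q : ℝ, Q = (S.q : ℝ) ^ ((σ + 2 * η) * k) := ⟨_, rfl⟩
  obtain ⟨V, hV⟩ : ∃ V : ℝ, V = (D.n i : ℝ) * S.R := ⟨_, rfl⟩
  have hV0 : 0 ≤ V := by rw [hV]; positivity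
  have hA0 : (0 : ℝ) ≤ S.A := Nat.cast_nonneg _
  have hC0 : (0 : ℝ) ≤ C := Nat.cast_nonneg _
  obtain ⟨Y, hY⟩ : ∃ Y : ℝ, Y = (S.q : ℝ) ^ M i := ⟨_, rfl⟩
  rw [← hY] at hqM
  rw [← hQ] at hrp hsk hhk ⊢
  have hVA : 0 ≤ V * (1 + S.A) := mul_nonneg hV0 (by linarith)
  have hVC : 0 ≤ V * C := mul_nonneg hV0 hC0
  have hH2 : H2 S D C M i = 2 + 4 * (V * (1 + S.A) + V * C) * Y := by
    unfold H2
    rw [hV, hY]
    ring
  have hkQ : 0 ≤ (k : ℝ) * Q := by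
    have : 0 ≤ Q := by linarith
    positivity
  have hk0' : (0 : ℝ) ≤ k := by linarith
  have hQ0 : 0 ≤ Q := by linarith
  -- the part of the prescribed places
  have t2 : D.n i * S.R * C * (k * (S.q : ℝ) ^ (σ * k)) ≤ V * C * (k * Q) := by
    rw [← hV]
    exact mul_le_mul_of_nonneg_left (mul_le_mul_of_nonneg_left hsk hk0') hVC
  have hY2 : V * (1 + S.A) + V * C ≤ (V * (1 + S.A) + V * C) * Y :=
    le_mul_of_one_le_right (by linarith) hqM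
  rcases le_or_gt (M i) k with hM | hM
  · have h1 := hG.low i χ k hM hkK hk0
    have h2 := ppU_le hσ hT hpt g i χ hk
    rw [TS_split S _ χ hk]
    have h4 : ‖(k : ℂ) * ∑ P ∈ S.Pr k, PW D T pt g i P 1 * S.lam χ P 1‖ ≤
        k * (((S.c χ : ℝ) + H1 S D C i) * Q) := by
      rw [norm_mul, Complex.norm_natCast, hQ]
      exact mul_le_mul_of_nonneg_left h1 hk0'
    have h5 : 2 * (D.n i : ℝ) * S.R * (1 + S.A) * (S.q : ℝ) ^ ((1 / 2 : ℝ) * k) ≤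
        2 * (V * (1 + S.A)) * (k * Q) := by
      have e1 : 2 * (D.n i : ℝ) * S.R * (1 + S.A) = 2 * (V * (1 + S.A)) := by rw [hV]; ring
      rw [e1]
      refine mul_le_mul_of_nonneg_left ?_ (by linarith)
      refine hhk.trans ?_
      exact le_mul_of_one_le_left hQ0 hk1
    have h6 : H1 S D C i = 2 + V * C := by
      unfold H1
      rw [hV]
    calc _ ≤ _ := norm_add_le _ _
      _ ≤ k * (((S.c χ : ℝ) + (2 + V * C)) * Q) +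
          (2 * (V * (1 + S.A)) * (k * Q) + V * C * (k * Q)) := by
          rw [h6] at h4
          exact add_le_add h4 (h2.trans (add_le_add h5 t2))
      _ = ((S.c χ : ℝ) + (2 + 2 * (V * (1 + S.A) + V * C))) * (k * Q) := by ring
      _ ≤ ((S.c χ : ℝ) + H2 S D C M i) * (k * Q) := by
          refine mul_le_mul_of_nonneg_right ?_ hkQ
          rw [hH2]
          nlinarith
      _ = _ := by ring
  · have h1 := TSU_le hσ hT hpt g i χ hk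
    have h2 : (S.q : ℝ) ^ k ≤ Y := by rw [hY]; exact pow_le_pow_right₀ hq1 hM.le
    have h5 : 2 * (D.n i : ℝ) * S.R * (1 + S.A) * (S.q : ℝ) ^ k ≤
        2 * (V * (1 + S.A)) * Y * (k * Q) := by
      have e1 : 2 * (D.n i : ℝ) * S.R * (1 + S.A) = 2 * (V * (1 + S.A)) := by rw [hV]; ring
      rw [e1]
      have h6 : 2 * (V * (1 + S.A)) * (S.q : ℝ) ^ k ≤ 2 * (V * (1 + S.A)) * Y :=
        mul_le_mul_of_nonneg_left h2 (by linarith)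
      refine h6.trans ?_
      refine le_mul_of_one_le_right (by nlinarith) ?_
      nlinarith
    calc _ ≤ _ := h1
      _ ≤ 2 * (V * (1 + S.A)) * Y * (k * Q) + V * C * (k * Q) := add_le_add h5 t2
      _ = (2 * (V * (1 + S.A)) * Y + V * C) * (k * Q) := by ring
      _ ≤ ((S.c χ : ℝ) + H2 S D C M i) * (k * Q) := by
          refine mul_le_mul_of_nonneg_right ?_ hkQ
          rw [hH2]
          nlinarith [mul_nonneg hVA (by linarith : 0 ≤ Y), mul_le_mul_of_nonneg_left hqM hVC]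
      _ = _ := by ring


end Pool.Agent.H497.TU
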