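import Pool.Agent.H497.TU.Final

set_option autoImplicit false



namespace Pool.Agent.H497.TU

open MeasureTheory Polynomial Pool.Agent.H497.TT



noncomputable section

/-- the character `z ↦ z^(k+1)` of the circle group as a representation of `G × Circle` -/
def circRep (G : Type) [Group G] (k : ℕ) : G × Circle →* Matrix.unitaryGroup (Fin 1) ℂ where
  toFun := fun x => ⟨Matrix.diagonal fun _ => ((x.2 : ℂ)) ^ (k + 1), by
    rw [Matrix.mem_unitaryGroup_iff, Matrix.star_eq_conjTranspose, Matrix.diagonal_conjTranspose,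
      Matrix.diagonal_mul_diagonal, ← Matrix.diagonal_one]
    congr 1
    funext i
    have h : (x.2 : ℂ) * star (x.2 : ℂ) = 1 := by
      rw [← starRingEnd_apply, Complex.mul_conj, Circle.normSq_coe, Complex.ofReal_one]
    rw [Pi.star_apply, star_pow, ← mul_pow, h, one_pow]⟩
  map_one' := by
    refine Subtype.ext ?_
    show Matrix.diagonal (fun _ => (((1 : Circle) : ℂ)) ^ (k + 1)) = (1 : Matrix (Fin 1) (Fin 1) ℂ)
    rw [Circle.coe_one, one_pow, Matrix.diagonal_one]
  map_mul' := by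
    intro x y
    refine Subtype.ext ?_
    show Matrix.diagonal (fun _ => (((x.2 * y.2 : Circle) : ℂ)) ^ (k + 1)) =
      (Matrix.diagonal (fun _ => (x.2 : ℂ) ^ (k + 1)) : Matrix (Fin 1) (Fin 1) ℂ) *
        Matrix.diagonal (fun _ => (y.2 : ℂ) ^ (k + 1))
    rw [Matrix.diagonal_mul_diagonal]
    congr 1
    funext i
    rw [Circle.coe_mul, mul_pow]

/-- a representation of `G` as a representation of `G × Circle` -/
def liftRep {G : Type} [Group G] {n : ℕ} (ρ : G →* Matrix.unitaryGroup (Fin n) ℂ) :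
    G × Circle →* Matrix.unitaryGroup (Fin n) ℂ := ρ.comp (MonoidHom.fst G Circle)

/-- the representations of `G × Circle`: those of `G`, and the characters of the circle -/
def allDim {m : ℕ} (n : Fin m → ℕ) : Fin m ⊕ ℕ → ℕ
  | Sum.inl i => n i
  | Sum.inr _ => 1

def allRep {G : Type} [Group G] {m : ℕ} (n : Fin m → ℕ) (ρ : (i : Fin m) → G →* Matrix.unitaryGroup (Fin (n i)) ℂ) :
    (j : Fin m ⊕ ℕ) → G × Circle →* Matrix.unitaryGroup (Fin (allDim n j)) ℂ
  | Sum.inl i => liftRep (ρ i)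
  | Sum.inr k => circRep G k

end


/-! ### helper lemmas -/

lemma exists_zpow_ne {m : ℤ} (hm : m ≠ 0) : ∃ z : Circle, z ^ m ≠ 1 := by
  refine ⟨Circle.exp (Real.pi / m), ?_⟩
  rw [← Circle.exp_intCast_mul, mul_div_cancel₀ _ (by exact_mod_cast hm)]
  exact Circle.exp_pi_ne_one

lemma scal {G : Type} {n m : ℕ} {A : G → Matrix (Fin n) (Fin n) ℂ}
    {B : G → Matrix (Fin m) (Fin m) ℂ} (h : Equi A B) (hn : 0 < n) (g : G) {a b : Circle}
    (ha : ∀ v, (A g).mulVec v = (a : ℂ) • v) (hb : ∀ v, (B g).mulVec v = (b : ℂ) • v) : a = b := by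
  obtain ⟨T, hT⟩ := h
  let v : Fin n → ℂ := fun _ => 1
  have hv : v ≠ 0 := fun h0 => one_ne_zero (congrFun h0 ⟨0, hn⟩)
  have h1 := hT g v
  rw [ha, hb, map_smul] at h1
  have h2 : T v ≠ 0 := fun h0 => hv ((LinearEquiv.map_eq_zero_iff T).1 h0)
  exact Circle.coe_injective (smul_left_injective ℂ h2 h1)

lemma mat_circ (G : Type) [Group G] (k : ℕ) (x : G × Circle) (v : Fin 1 → ℂ) :
    (mat (circRep G k) x).mulVec v = ((x.2 ^ (k + 1) : Circle) : ℂ) • v := by
  funext i
  show (Matrix.diagonal fun _ => ((x.2 : ℂ)) ^ (k + 1)).mulVec v i = _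
  rw [Matrix.mulVec_diagonal, Pi.smul_apply, smul_eq_mul, Circle.coe_pow]

lemma cmat_circ (G : Type) [Group G] (k : ℕ) (x : G × Circle) (v : Fin 1 → ℂ) :
    (cmat (circRep G k) x).mulVec v = (((x.2 ^ (k + 1))⁻¹ : Circle) : ℂ) • v := by
  funext i
  show ((Matrix.diagonal fun _ => ((x.2 : ℂ)) ^ (k + 1)).map (starRingEnd ℂ)).mulVec v i = _
  rw [Matrix.diagonal_map (map_zero _), Matrix.mulVec_diagonal, Pi.smul_apply, smul_eq_mul,
    Circle.coe_inv_eq_conj, Circle.coe_pow]

lemma mat_lift {G : Type} [Group G] {n : ℕ} (ρ : G →* Matrix.unitaryGroup (Fin n) ℂ) (z : Circle)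
    (v : Fin n → ℂ) : (mat (liftRep ρ) (1, z)).mulVec v = ((1 : Circle) : ℂ) • v := by
  have h : mat (liftRep ρ) (1, z) = 1 := by
    show ((ρ 1 : Matrix.unitaryGroup (Fin n) ℂ) : Matrix (Fin n) (Fin n) ℂ) = 1
    rw [map_one]
    rfl
  rw [h, Matrix.one_mulVec, Circle.coe_one, one_smul]

lemma cmat_lift {G : Type} [Group G] {n : ℕ} (ρ : G →* Matrix.unitaryGroup (Fin n) ℂ) (z : Circle)
    (v : Fin n → ℂ) : (cmat (liftRep ρ) (1, z)).mulVec v = ((1 : Circle) : ℂ) • v := by
  have h : cmat (liftRep ρ) (1, z) = 1 := by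
    show ((ρ 1 : Matrix.unitaryGroup (Fin n) ℂ) : Matrix (Fin n) (Fin n) ℂ).map (starRingEnd ℂ) = 1
    rw [map_one]
    exact Matrix.map_one _ (map_zero _) (map_one _)
  rw [h, Matrix.one_mulVec, Circle.coe_one, one_smul]

lemma circ_cont (G : Type) [Group G] [TopologicalSpace G] (k : ℕ) : Continuous (circRep G k) := by
  refine Continuous.subtype_mk ?_ _
  refine Continuous.matrix_diagonal ?_
  refine continuous_pi fun _ => ?_
  exact ((continuous_subtype_val.comp continuous_snd).pow _)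

lemma circ_irr (G : Type) [Group G] (k : ℕ) : Irr (circRep G k) := by
  refine ⟨Nat.one_pos, fun V _ => ?_⟩
  by_cases hV : V = ⊥
  · exact Or.inl hV
  · right
    obtain ⟨v, hv, hv0⟩ := (Submodule.ne_bot_iff V).1 hV
    have h0 : v 0 ≠ 0 := by
      intro h
      apply hv0
      funext i
      rw [Subsingleton.elim i 0, h]
      rfl
    rw [eq_top_iff]
    intro w _
    have : w = (w 0 / v 0) • v := by
      funext i
      rw [Subsingleton.elim i 0, Pi.smul_apply, smul_eq_mul, div_mul_cancel₀ _ h0]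
    rw [this]
    exact V.smul_mem _ hv

lemma circ_nontriv (G : Type) [Group G] (k : ℕ) : ∃ g, circRep G k g ≠ 1 := by
  obtain ⟨z, hz⟩ := exists_zpow_ne (m := ((k + 1 : ℕ) : ℤ)) (by exact_mod_cast Nat.succ_ne_zero k)
  refine ⟨(1, z), fun h => hz ?_⟩
  have h1 := mat_circ G k (1, z) (fun _ => 1)
  unfold mat at h1
  rw [h] at h1
  have h2 : ((1 : Matrix.unitaryGroup (Fin 1) ℂ) : Matrix (Fin 1) (Fin 1) ℂ) = 1 := rfl
  rw [h2, Matrix.one_mulVec] at h1
  have h3 := congrFun h1 0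
  rw [Pi.smul_apply, smul_eq_mul, mul_one] at h3
  rw [zpow_natCast]
  exact Circle.coe_injective h3.symm

lemma lift_irr {G : Type} [Group G] {n : ℕ} (ρ : G →* Matrix.unitaryGroup (Fin n) ℂ) (h : Irr ρ) :
    Irr (liftRep ρ) :=
  ⟨h.1, fun V hV => h.2 V fun g v hv => hV (g, 1) v hv⟩

lemma lift_lift {G : Type} [Group G] {n m : ℕ} (ρ : G →* Matrix.unitaryGroup (Fin n) ℂ)
    (τ : G →* Matrix.unitaryGroup (Fin m) ℂ) (h : Equi (mat (liftRep ρ)) (mat (liftRep τ))) :
    Equi (mat ρ) (mat τ) := by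
  obtain ⟨T, hT⟩ := h
  exact ⟨T, fun g v => hT (g, 1) v⟩

lemma lift_liftc {G : Type} [Group G] {n m : ℕ} (ρ : G →* Matrix.unitaryGroup (Fin n) ℂ)
    (τ : G →* Matrix.unitaryGroup (Fin m) ℂ) (h : Equi (mat (liftRep ρ)) (cmat (liftRep τ))) :
    Equi (mat ρ) (cmat τ) := by
  obtain ⟨T, hT⟩ := h
  exact ⟨T, fun g v => hT (g, 1) v⟩

/-- The closure of the subgroup generated by the one-parameter subgroups of `G × Circle` contains `G × 1` (the closure of the
subgroup generated by the `(x t, 1)`) and `1 × Circle` (every element of `Circle` is `Circle.exp t`). -/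
theorem gen_prod (G : Type) [Group G] [TopologicalSpace G] [IsTopologicalGroup G] (h : GeneratedByOneParameter G) :
    GeneratedByOneParameter (G × Circle) := by
  unfold GeneratedByOneParameter at h ⊢
  refine (h.prod (dense_univ (X := Circle))).mono ?_
  rintro ⟨g, z⟩ ⟨hg, -⟩
  set H := Subgroup.closure {g : G × Circle | ∃ x : ℝ → G × Circle, Continuous x ∧
    (∀ s t, x (s + t) = x s * x t) ∧ x 1 = g} with hH
  have h1 : (g, (1 : Circle)) ∈ H := by
    have h2 : Subgroup.closure {g : G | ∃ x : ℝ → G, Continuous x ∧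
        (∀ s t, x (s + t) = x s * x t) ∧ x 1 = g} ≤ H.comap (MonoidHom.inl G Circle) := by
      rw [Subgroup.closure_le]
      rintro _ ⟨x, hx1, hx2, rfl⟩
      refine Subgroup.subset_closure ⟨fun t => (x t, 1), hx1.prodMk continuous_const, ?_, rfl⟩
      intro s t
      show (x (s + t), (1 : Circle)) = (x s, 1) * (x t, 1)
      rw [hx2, Prod.mk_mul_mk, one_mul]
    exact h2 hg
  have h3 : ((1 : G), z) ∈ H := by
    obtain ⟨a, ha⟩ := Circle.exp_surjective z
    refine Subgroup.subset_closure ⟨fun t => (1, Circle.exp (t * a)), ?_, ?_, ?_⟩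
    · fun_prop
    · intro s t
      show ((1 : G), Circle.exp ((s + t) * a)) = (1, Circle.exp (s * a)) * (1, Circle.exp (t * a))
      rw [Prod.mk_mul_mk, one_mul, add_mul, Circle.exp_add]
    · show ((1 : G), Circle.exp (1 * a)) = (1, z)
      rw [one_mul, ha]
  have h4 := H.mul_mem h1 h3
  rwa [Prod.mk_mul_mk, mul_one, one_mul] at h4

/-- the characters `z^(k+1)` and `conj z^(k+1)` are different, e.g. at `z = I^(1/(k+1))` -/
theorem circ_sd (G : Type) [Group G] (k : ℕ) : ¬ Equi (mat (circRep G k)) (cmat (circRep G k)) := by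
  intro h
  obtain ⟨z, hz⟩ := exists_zpow_ne (m := ((k + 1 + (k + 1) : ℕ) : ℤ)) (by
    exact_mod_cast Nat.succ_ne_zero (k + 1 + k))
  have h1 := scal h Nat.one_pos (1, z) (mat_circ G k (1, z)) (cmat_circ G k (1, z))
  refine hz ?_
  rw [zpow_natCast, pow_add]
  exact mul_eq_one_iff_eq_inv.2 h1

theorem lift_sd {G : Type} [Group G] {n : ℕ} (ρ : G →* Matrix.unitaryGroup (Fin n) ℂ) :
    Equi (mat (liftRep ρ)) (cmat (liftRep ρ)) ↔ Equi (mat ρ) (cmat ρ) := by
  refine ⟨lift_liftc ρ ρ, ?_⟩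
  rintro ⟨T, hT⟩
  exact ⟨T, fun g v => hT g.1 v⟩

/-- For two lifted representations restrict to `G`. For two characters of the circle: `z^(k+1) = z^(l+1)` for all `z` implies
`k = l`, and `z^(k+1) = conj z^(l+1)` is impossible. For one of each kind: the circle acts trivially in `liftRep ρ`, but not
by `z^(k+1)` (the dimensions are positive by `Irr`). -/
theorem allRep_props {G : Type} [Group G] [TopologicalSpace G] [IsTopologicalGroup G] {m : ℕ} (n : Fin m → ℕ)
    (ρ : (i : Fin m) → G →* Matrix.unitaryGroup (Fin (n i)) ℂ)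
    (h1 : ∀ i, Continuous (ρ i)) (h2 : ∀ i, Irr (ρ i)) (h3 : ∀ i, ∃ g, ρ i g ≠ 1)
    (h4 : ∀ i j, i ≠ j → ¬ Equi (mat (ρ i)) (mat (ρ j)) ∧ ¬ Equi (mat (ρ i)) (cmat (ρ j))) :
    (∀ j, Continuous (allRep n ρ j)) ∧ (∀ j, Irr (allRep n ρ j)) ∧ (∀ j, ∃ g, allRep n ρ j g ≠ 1) ∧
    ∀ i j, i ≠ j → ¬ Equi (mat (allRep n ρ i)) (mat (allRep n ρ j)) ∧
      ¬ Equi (mat (allRep n ρ i)) (cmat (allRep n ρ j)) := by
  refine ⟨?_, ?_, ?_, ?_⟩
  · rintro (i | k)
    · exact (h1 i).comp continuous_fst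
    · exact circ_cont G k
  · rintro (i | k)
    · exact lift_irr _ (h2 i)
    · exact circ_irr G k
  · rintro (i | k)
    · obtain ⟨g, hg⟩ := h3 i
      exact ⟨(g, 1), hg⟩
    · exact circ_nontriv G k
  · rintro (i | k) (j | l) hij
    · have hij' : i ≠ j := fun h => hij (by rw [h])
      exact ⟨fun h => (h4 i j hij').1 (lift_lift _ _ h), fun h => (h4 i j hij').2 (lift_liftc _ _ h)⟩
    · obtain ⟨z, hz⟩ := exists_zpow_ne (m := ((l + 1 : ℕ) : ℤ)) (by
        exact_mod_cast Nat.succ_ne_zero l)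
      rw [zpow_natCast] at hz
      constructor
      · intro h
        exact hz (scal h (h2 i).1 (1, z) (mat_lift (ρ i) z) (mat_circ G l (1, z))).symm
      · intro h
        exact hz (inv_eq_one.1 (scal h (h2 i).1 (1, z) (mat_lift (ρ i) z)
          (cmat_circ G l (1, z))).symm)
    · obtain ⟨z, hz⟩ := exists_zpow_ne (m := ((k + 1 : ℕ) : ℤ)) (by
        exact_mod_cast Nat.succ_ne_zero k)
      rw [zpow_natCast] at hz
      constructor
      · intro h
        exact hz (scal h Nat.one_pos (1, z) (mat_circ G k (1, z)) (mat_lift (ρ j) z))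
      · intro h
        exact hz (scal h Nat.one_pos (1, z) (mat_circ G k (1, z)) (cmat_lift (ρ j) z))
    · have hkl : k ≠ l := fun h => hij (by rw [h])
      constructor
      · intro h
        obtain ⟨z, hz⟩ := exists_zpow_ne (m := ((k + 1 : ℕ) : ℤ) - ((l + 1 : ℕ) : ℤ)) (by
          intro h0
          apply hkl
          push_cast at h0
          omega)
        have h5 := scal h Nat.one_pos (1, z) (mat_circ G k (1, z)) (mat_circ G l (1, z))
        apply hz
        rw [zpow_sub, zpow_natCast, zpow_natCast, mul_inv_eq_one]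
        exact h5
      · intro h
        obtain ⟨z, hz⟩ := exists_zpow_ne (m := ((k + 1 + (l + 1) : ℕ) : ℤ)) (by
          exact_mod_cast Nat.succ_ne_zero (k + 1 + l))
        have h5 := scal h Nat.one_pos (1, z) (mat_circ G k (1, z)) (cmat_circ G l (1, z))
        apply hz
        rw [zpow_natCast, pow_add]
        exact mul_eq_one_iff_eq_inv.2 h5


end Pool.Agent.H497.TU
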