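import Pool.Agent.H497.TU.Idx
import Pool.Agent.H497.TU.Circ

set_option autoImplicit false



namespace Pool.Agent.H497.TU

open MeasureTheory Polynomial Pool.Agent.H497.TT



noncomputable section

end

/- to be proved -/

open Classical in
/-- extension of a family indexed by `Fin m` by the values at `ℕ` -/
def ext2 {m : ℕ} {α : Fin m ⊕ ℕ → Type} (a : (i : Fin m) → α (Sum.inl i)) (b : (k : ℕ) → α (Sum.inr k)) :
    (j : Fin m ⊕ ℕ) → α j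
  | Sum.inl i => a i
  | Sum.inr k => b k

/- Apply `mainIdx` to `G × Circle`, `ι = Fin m ⊕ ℕ` (a bijection with `ℕ` exists, e.g. `Denumerable.eqv`), `allRep n ρ`.
For the indices `Sum.inr k` take the degrees `per χ * (ν (a+1) (c χ + 1) + N0)`, the root number `1` and the matrix `1`
(`1 ≤ h P`; `circ_sd`). `N0 i := N0' (Sum.inl i)`; from `g' : 𝓟 → G × Circle` take `g P = (g' P).1`. -/
open Classical in
theorem mainFin {σ δ : ℝ} (hσ : 1 / 2 ≤ σ) (hσ1 : σ < 1) (hδ : 0 < δ) :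
    ∃ ν : ℕ, ∀ {𝓟 𝓧 : Type} (S : TSys 𝓟 𝓧) (G : Type) [Group G] [TopologicalSpace G] [IsTopologicalGroup G]
    [CompactSpace G] [T2Space G], GeneratedByOneParameter G →
    ∀ (m : ℕ) (n : Fin m → ℕ) (ρ : (i : Fin m) → G →* Matrix.unitaryGroup (Fin (n i)) ℂ),
    (∀ i, Continuous (ρ i)) → (∀ i, Irr (ρ i)) → (∀ i, ∃ g, ρ i g ≠ 1) →
    (∀ i j, i ≠ j → ¬ Equi (mat (ρ i)) (mat (ρ j)) ∧ ¬ Equi (mat (ρ i)) (cmat (ρ j))) →
    ∀ (T : Set 𝓟) (C : ℕ), (∀ k : ℕ, k ≠ 0 → (k : ℝ) * (TPr S T k).card ≤ C * √(S.q : ℝ) ^ k) →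
    ∃ N0 : Fin m → ℕ, ∀ (N : Fin m → 𝓧 → ℕ) (W : Fin m → 𝓧 → ℂ),
    (∀ i χ, ν * (S.a + 1) * (S.c χ + 1) + N0 i ≤ N i χ ∧ S.per χ ∣ N i χ ∧ ‖W i χ‖ = 1) →
    (∀ i, Equi (mat (ρ i)) (cmat (ρ i)) → ∀ χ, N i (S.bar χ) = N i χ ∧ W i (S.bar χ) = starRingEnd ℂ (W i χ)) →
    ∀ (h : 𝓟 → ℝ), (∀ P, 1 ≤ h P) → (∀ P, h P ≤ (S.q : ℝ) ^ (σ * S.deg P)) →
    (∀ k : ℕ, k ≠ 0 → (k : ℝ) * ∑ P ∈ TPr S T k, h P ≤ C * (S.q : ℝ) ^ (σ * k)) →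
    ∀ B : (i : Fin m) → 𝓟 → Matrix (Fin (n i)) (Fin (n i)) ℂ,
    (∀ i P, P ∈ T → ∀ z, (B i P).charpoly.IsRoot z → ‖z‖ ≤ h P) →
    (∀ i P, P ∈ T → Equi (mat (ρ i)) (cmat (ρ i)) → (B i P).charpoly.map (starRingEnd ℂ) = (B i P).charpoly) →
    ∃ g : 𝓟 → G, ∀ (i : Fin m) (χ : 𝓧), ∃ L : ℂ[X], Nice S.q (N i χ) (W i χ) (σ - 1 / 2 + δ) L ∧
      ∀ u : ℂ, ‖u‖ < 1 / S.q → HasProd (fun P : 𝓟 => ∏ j,
        (1 - (S.par χ P j * u ^ S.deg P) • (if P ∈ T then B i P else mat (ρ i) (g P))).det⁻¹) (L.eval u) := by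
  obtain ⟨ν, hν⟩ := mainIdx hσ hσ1 hδ
  refine ⟨ν, ?_⟩
  intro 𝓟 𝓧 S G _ _ _ _ _ hG m n ρ h1 h2 h3 h4 T C hC
  obtain ⟨p1, p2, p3, p4⟩ := allRep_props n ρ h1 h2 h3 h4
  obtain ⟨N0, hN0⟩ := hν S (G × Circle) (gen_prod G hG) (Fin m ⊕ ℕ) (finSumNatEquiv m).symm (allDim n) (allRep n ρ)
    p1 p2 p3 p4 T C hC
  refine ⟨fun i => N0 (Sum.inl i), ?_⟩
  intro N W hNW hsd h hh1 hh2 hh3 B hB1 hB2
  obtain ⟨g, hg⟩ := hN0
    (ext2 (α := fun _ => 𝓧 → ℕ) N fun k χ => S.per χ * (ν * (S.a + 1) * (S.c χ + 1) + N0 (Sum.inr k)))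
    (ext2 (α := fun _ => 𝓧 → ℂ) W fun _ _ => 1)
    (by
      rintro (i | k) χ
      · exact hNW i χ
      · refine ⟨?_, ⟨_, rfl⟩, norm_one⟩
        exact Nat.le_mul_of_pos_left _ (S.per_pos χ))
    (by
      rintro (i | k) hE
      · exact hsd i ((lift_sd (ρ i)).1 hE)
      · exact absurd hE (circ_sd G k))
    h hh1 hh2 hh3
    (ext2 (α := fun j => 𝓟 → Matrix (Fin (allDim n j)) (Fin (allDim n j)) ℂ) B fun _ _ => 1)
    (by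
      rintro (i | k) P hP z hz
      · exact hB1 i P hP z hz
      · have h5 : ((1 : Matrix (Fin 1) (Fin 1) ℂ).charpoly).IsRoot z := hz
        rw [Matrix.charpoly_one, Fintype.card_fin, pow_one, Polynomial.IsRoot.def, Polynomial.eval_sub,
          Polynomial.eval_X, Polynomial.eval_one, sub_eq_zero] at h5
        rw [h5, norm_one]
        exact hh1 P)
    (by
      rintro (i | k) P hP hE
      · exact hB2 i P hP ((lift_sd (ρ i)).1 hE)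
      · exact absurd hE (circ_sd G k))
  refine ⟨fun P => (g P).1, fun i χ => ?_⟩
  exact hg (Sum.inl i) χ


end Pool.Agent.H497.TU
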