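import Pool.Agent.H497.TU.Asm

set_option autoImplicit false

namespace Pool.Agent.H497.TU

open Polynomial Pool.Agent.H497.TT

/-- `L` is a polynomial in `u = q^(-s)` of degree `N`, with the functional equation `s -> 1 - s` with root number `W`,
and without zeros in `Re s > 1/2 + δ`. -/
structure Nice (q N : ℕ) (W : ℂ) (δ : ℝ) (L : ℂ[X]) : Prop where
  degree : L.natDegree = N
  functional : ∀ u : ℂ, u ≠ 0 → L.eval u = W * ((√(q : ℝ) : ℝ) * u) ^ N *
    starRingEnd ℂ (L.eval (1 / (q * starRingEnd ℂ u)))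
  zeros : ∀ u : ℂ, ‖u‖ < (q : ℝ) ^ (-(1 / 2 + δ)) → L.eval u ≠ 0

/-- `G` is topologically generated by its one-parameter subgroups (for a compact group: `G` is connected). -/
def GeneratedByOneParameter (G : Type) [Group G] [TopologicalSpace G] : Prop :=
  Dense ((Subgroup.closure {g : G | ∃ x : ℝ → G, Continuous x ∧ (∀ s t, x (s + t) = x s * x t) ∧ x 1 = g} :
    Subgroup G) : Set G)

theorem nice_of {q N : ℕ} {W : ℂ} {δ : ℝ} (hq : 2 ≤ q) (hW : ‖W‖ = 1) {a : ℕ → ℂ}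
    (b1 : a N = W * ((√(q : ℝ) ^ N : ℝ) : ℂ))
    (b3 : ∀ u : ℂ, u ≠ 0 → ∑ j ∈ Finset.range (N + 1), a j * u ^ j =
          W * ((√(q : ℝ) : ℝ) * u) ^ N *
            starRingEnd ℂ (∑ j ∈ Finset.range (N + 1), a j * (1 / (q * starRingEnd ℂ u)) ^ j))
    (b4 : ∀ u : ℂ, ‖u‖ < (q : ℝ) ^ (-(1 / 2 + δ)) → ∑ j ∈ Finset.range (N + 1), a j * u ^ j ≠ 0) :
    ∃ L : ℂ[X], Nice q N W δ L ∧ ∀ u, L.eval u = ∑ j ∈ Finset.range (N + 1), a j * u ^ j := by
  have hq0 : (0 : ℝ) < q := by exact_mod_cast (by omega : 0 < q)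
  have hev : ∀ u : ℂ, (∑ j ∈ Finset.range (N + 1), C (a j) * X ^ j : ℂ[X]).eval u =
      ∑ j ∈ Finset.range (N + 1), a j * u ^ j := fun u => by
    rw [eval_finset_sum]
    simp
  have hW : W ≠ 0 := fun h0 => by
    rw [h0, norm_zero] at hW
    norm_num at hW
  have hcoeff : ∀ j, (∑ j ∈ Finset.range (N + 1), C (a j) * X ^ j : ℂ[X]).coeff j =
      if j ≤ N then a j else 0 := by
    intro j
    rw [finset_sum_coeff]
    simp only [coeff_C_mul, coeff_X_pow, mul_ite, mul_one, mul_zero]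
    rw [Finset.sum_ite_eq]
    simp [Nat.lt_succ_iff]
  refine ⟨∑ j ∈ Finset.range (N + 1), C (a j) * X ^ j, ⟨?_, fun u hu => ?_, fun u hu => ?_⟩, hev⟩
  · refine natDegree_eq_of_le_of_coeff_ne_zero ?_ ?_
    · rw [natDegree_le_iff_coeff_eq_zero]
      intro j hj
      rw [hcoeff, if_neg (by omega)]
    · rw [hcoeff, if_pos le_rfl, b1]
      refine mul_ne_zero hW ?_
      have : (0 : ℝ) < √(q : ℝ) ^ N := by
        have := Real.sqrt_pos.2 hq0
        exact pow_pos this _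
      exact_mod_cast this.ne'
  · rw [hev, hev]
    exact b3 u hu
  · rw [hev]
    exact b4 u hu

theorem TPr_card {𝓟 𝓧 : Type} (S : TSys 𝓟 𝓧) (T : Set 𝓟) (k : ℕ) :
    ((TPr S T k).card : ℝ) = ({P | P ∈ T ∧ S.deg P = k}.ncard : ℝ) := by
  classical
  have : {P | P ∈ T ∧ S.deg P = k} = ((TPr S T k : Finset 𝓟) : Set 𝓟) := by
    ext P
    simp only [TPr, Set.mem_setOf_eq, Finset.coe_filter, S.mem_Pr]
    exact and_comm
  rw [this, Set.ncard_coe_finset]

end Pool.Agent.H497.TU
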