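import Pool.Agent.H497.TU.Final

set_option autoImplicit false

namespace Pool.Agent.H497.TU

open MeasureTheory Polynomial Pool.Agent.H497.TT

open Classical in
theorem mainU0 {σ δ : ℝ} (hσ : 1 / 2 ≤ σ) (hσ1 : σ < 1) (hδ : 0 < δ) :
    ∃ ν : ℕ, ∀ {𝓟 𝓧 : Type} (S : TSys 𝓟 𝓧) (G : Type) [Group G] [TopologicalSpace G] [IsTopologicalGroup G]
    [CompactSpace G] [T2Space G], GeneratedByOneParameter G →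
    ∀ (n : ℕ → ℕ) (ρ : (i : ℕ) → G →* Matrix.unitaryGroup (Fin (n i)) ℂ), (∀ i, Continuous (ρ i)) →
    (∀ i, Irr (ρ i)) → (∀ i, ∃ g, ρ i g ≠ 1) →
    (∀ i j, i ≠ j → ¬ Equi (mat (ρ i)) (mat (ρ j)) ∧ ¬ Equi (mat (ρ i)) (cmat (ρ j))) →
    ∀ (T : Set 𝓟) (C : ℕ), (∀ k : ℕ, k ≠ 0 → (k : ℝ) * (TPr S T k).card ≤ C * √(S.q : ℝ) ^ k) →
    ∃ N0 : ℕ → ℕ, ∀ (N : ℕ → 𝓧 → ℕ) (W : ℕ → 𝓧 → ℂ),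
    (∀ i χ, ν * (S.a + 1) * (S.c χ + 1) + N0 i ≤ N i χ ∧ S.per χ ∣ N i χ ∧ ‖W i χ‖ = 1) →
    (∀ i, Equi (mat (ρ i)) (cmat (ρ i)) → ∀ χ, N i (S.bar χ) = N i χ ∧ W i (S.bar χ) = starRingEnd ℂ (W i χ)) →
    ∀ (h : 𝓟 → ℝ), (∀ P, 1 ≤ h P) → (∀ P, h P ≤ (S.q : ℝ) ^ (σ * S.deg P)) →
    (∀ k : ℕ, k ≠ 0 → (k : ℝ) * ∑ P ∈ TPr S T k, h P ≤ C * (S.q : ℝ) ^ (σ * k)) →
    ∀ B : (i : ℕ) → 𝓟 → Matrix (Fin (n i)) (Fin (n i)) ℂ,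
    (∀ i P, P ∈ T → ∀ z, (B i P).charpoly.IsRoot z → ‖z‖ ≤ h P) →
    (∀ i P, P ∈ T → Equi (mat (ρ i)) (cmat (ρ i)) → (B i P).charpoly.map (starRingEnd ℂ) = (B i P).charpoly) →
    ∃ g : 𝓟 → G, ∀ (i : ℕ) (χ : 𝓧), ∃ L : ℂ[X], Nice S.q (N i χ) (W i χ) (σ - 1 / 2 + δ) L ∧
      ∀ u : ℂ, ‖u‖ < 1 / S.q → HasProd (fun P : 𝓟 => ∏ j,
        (1 - (S.par χ P j * u ^ S.deg P) • (if P ∈ T then B i P else mat (ρ i) (g P))).det⁻¹) (L.eval u) := by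
  obtain ⟨ν, H⟩ := mainU hσ hσ1 hδ
  refine ⟨ν, fun {𝓟 𝓧} S G _ _ _ _ _ hG n ρ h1 h2 h3 hne T C hTC => ?_⟩
  obtain ⟨N0, H⟩ := H S G hG n ρ h1 h2 h3 hne T C hTC
  refine ⟨N0, fun N W hNW hsd h hh1 hh2 hh3 B hB hBr => ?_⟩
  obtain ⟨c, hc⟩ := H N W (fun i χ => (hNW i χ).1) (fun i χ => (hNW i χ).2.1) (fun i χ => (hNW i χ).2.2) hsd
    ∅ (fun _ _ _ => 0) (fun _ _ h => absurd h (Set.notMem_empty _)) (fun _ _ h => absurd h (Set.notMem_empty _))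
    (fun _ _ _ h => absurd h (Set.notMem_empty _)) h hh1 hh2 hh3 B hB hBr
  refine ⟨c, fun i χ => ?_⟩
  obtain ⟨a, b0, b1, b2, b3, b4, b5⟩ := (hc i χ).1 (Set.notMem_empty _)
  have e : -(σ + δ) = -(1 / 2 + (σ - 1 / 2 + δ)) := by ring
  rw [e] at b4
  obtain ⟨L, hL, hev⟩ := nice_of S.hq (hNW i χ).2.2 b1 b3 b4
  refine ⟨L, hL, fun u hu => ?_⟩
  rw [hev]
  exact b5 u hu

end Pool.Agent.H497.TU
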