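import Pool.Agent.H497.TU.Final

set_option autoImplicit false



namespace Pool.Agent.H497.TU

open MeasureTheory Polynomial Pool.Agent.H497.TT


/-- a semisimple element `k exp(i X)` of the complexification of `G`, where `k ∈ G`, and `X` is the generator of a
one-parameter subgroup `x` commuting with `k` -/
structure CxElt (G : Type) [Group G] [TopologicalSpace G] where
  k : G
  x : ℝ → G
  cont : Continuous x
  add : ∀ s t, x (s + t) = x s * x t
  comm : ∀ t, k * x t = x t * k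

/-- the element is conjugate to the inverse of its conjugate by an element of `G` (so it belongs to a hermitian
representation) -/
def CxElt.Hermitian {G : Type} [Group G] [TopologicalSpace G] (c : CxElt G) : Prop :=
  ∃ w : G, w * c.k = c.k * w ∧ ∀ t, w * c.x t = c.x (-t) * w

/-- `A` is the matrix of the element in the representation `ρ` -/
def CxElt.IsMatrix {G : Type} [Group G] [TopologicalSpace G] (c : CxElt G) {n : ℕ}
    (ρ : G →* Matrix.unitaryGroup (Fin n) ℂ) (A : Matrix (Fin n) (Fin n) ℂ) : Prop :=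
  ∃ X : Matrix (Fin n) (Fin n) ℂ, (∀ t : ℝ, mat ρ (c.x t) = NormedSpace.exp (t • X)) ∧
    A = mat ρ c.k * NormedSpace.exp (Complex.I • X)

/- to be proved -/

namespace HermAux

section banach

variable {A : Type*} [NormedRing A] [NormedAlgebra ℝ A] [CompleteSpace A]

theorem one_param_banach (U : ℝ → A) (hU : Continuous U) (h0 : U 0 = 1)
    (hadd : ∀ s t, U (s + t) = U s * U t) :
    ∃ X : A, ∀ t : ℝ, U t = NormedSpace.exp (t • X) := by
  -- a small interval
  obtain ⟨a, ha, hball⟩ : ∃ a : ℝ, 0 < a ∧ ∀ s ∈ Set.uIoc (0 : ℝ) a, ‖U s - 1‖ ≤ 1 / 2 := by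
    have hc : ContinuousAt (fun s => ‖U s - 1‖) 0 := (hU.sub continuous_const).norm.continuousAt
    have h1 : ∀ᶠ s in nhds (0 : ℝ), ‖U s - 1‖ < 1 / 2 := by
      apply hc.eventually_lt continuousAt_const
      simp [h0]
    rw [Metric.eventually_nhds_iff] at h1
    obtain ⟨e, he, h2⟩ := h1
    refine ⟨e / 2, by positivity, ?_⟩
    intro s hs
    rw [Set.uIoc_of_le (by positivity)] at hs
    apply le_of_lt
    apply h2
    rw [Real.dist_eq, sub_zero, abs_of_pos hs.1]
    linarith [hs.2]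
  set M : A := ∫ s in (0 : ℝ)..a, U s with hM
  have hii : ∀ b c : ℝ, IntervalIntegrable U volume b c := fun b c => hU.intervalIntegrable b c
  have hE : ‖(∫ s in (0 : ℝ)..a, (U s - 1))‖ ≤ 1 / 2 * |a - 0| :=
    intervalIntegral.norm_integral_le_of_norm_le_const hball
  have hE' : (∫ s in (0 : ℝ)..a, (U s - 1)) = M - a • (1 : A) := by
    rw [intervalIntegral.integral_sub (hii 0 a) intervalIntegrable_const,
      intervalIntegral.integral_const, sub_zero]
  rw [hE', sub_zero, abs_of_pos ha] at hE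
  have hunit : IsUnit M := by
    have h1 : ‖(1 : A) - a⁻¹ • M‖ < 1 := by
      have h2 : (1 : A) - a⁻¹ • M = -(a⁻¹ • (M - a • (1 : A))) := by
        rw [smul_sub, smul_smul, inv_mul_cancel₀ ha.ne', one_smul]
        abel
      rw [h2, norm_neg, norm_smul, norm_inv, Real.norm_eq_abs, abs_of_pos ha]
      calc a⁻¹ * ‖M - a • (1 : A)‖ ≤ a⁻¹ * (1 / 2 * a) := by gcongr
        _ = 1 / 2 := by field_simp
        _ < 1 := by norm_num
    have h3 : IsUnit (a⁻¹ • M) := by
      have := isUnit_one_sub_of_norm_lt_one h1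
      rwa [sub_sub_cancel] at this
    have h4 : M = a • (a⁻¹ • M) := by rw [smul_smul, mul_inv_cancel₀ ha.ne', one_smul]
    rw [h4]
    have h5 : a • (a⁻¹ • M) = algebraMap ℝ A a * (a⁻¹ • M) := Algebra.smul_def _ _
    rw [h5]
    exact ((isUnit_iff_ne_zero.mpr ha.ne').map (algebraMap ℝ A)).mul h3
  obtain ⟨Mu, hMu⟩ := hunit
  -- the formula for `U t * M`
  have hF : ∀ t, U t * M = (∫ s in (0 : ℝ)..(t + a), U s) - ∫ s in (0 : ℝ)..t, U s := by
    intro t
    rw [intervalIntegral.integral_interval_sub_left (hii _ _) (hii _ _), hM]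
    have h1 : U t * ∫ s in (0 : ℝ)..a, U s = ∫ s in (0 : ℝ)..a, U t * U s :=
      ((ContinuousLinearMap.mul ℝ A (U t)).intervalIntegral_comp_comm (hii 0 a)).symm
    rw [h1]
    have h2 : ∀ s, U t * U s = U (t + s) := fun s => (hadd t s).symm
    simp only [h2]
    rw [intervalIntegral.integral_comp_add_left (fun s => U s) t, add_zero]
  have hder : ∀ t, HasDerivAt (fun t => U t * M) (U (t + a) - U t) t := by
    intro t
    have h1 : HasDerivAt (fun t => ∫ s in (0 : ℝ)..t, U s) (U t) t :=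
      intervalIntegral.integral_hasDerivAt_right (hii _ _)
        (hU.stronglyMeasurableAtFilter _ _) hU.continuousAt
    have h2 : HasDerivAt (fun t => ∫ s in (0 : ℝ)..(t + a), U s) (U (t + a)) t := by
      have h3 : HasDerivAt (fun t => ∫ s in (0 : ℝ)..t, U s) (U (t + a)) (t + a) :=
        intervalIntegral.integral_hasDerivAt_right (hii _ _)
          (hU.stronglyMeasurableAtFilter _ _) hU.continuousAt
      exact h3.comp_add_const t a
    have h4 := h2.sub h1
    refine h4.congr_of_eventuallyEq (Filter.Eventually.of_forall ?_)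
    intro t
    exact hF t
  set X : A := (U a - 1) * ((Mu⁻¹ : Aˣ) : A) with hX
  have hder2 : ∀ t, HasDerivAt U (U t * X) t := by
    intro t
    have h1 := (hder t).mul_const ((Mu⁻¹ : Aˣ) : A)
    have h2 : (fun t => U t * M * ((Mu⁻¹ : Aˣ) : A)) = U := by
      funext t
      rw [← hMu, mul_assoc, Units.mul_inv, mul_one]
    rw [h2] at h1
    have h3 : (U (t + a) - U t) * ((Mu⁻¹ : Aˣ) : A) = U t * X := by
      rw [hX, hadd, ← mul_assoc, mul_sub, mul_one]
    rwa [h3] at h1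
  refine ⟨X, ?_⟩
  have hG : ∀ t, HasDerivAt (fun t => U t * NormedSpace.exp (t • (-X))) 0 t := by
    intro t
    have h1 := hasDerivAt_exp_smul_const' (𝕂 := ℝ) (-X) t
    have h2 := (hder2 t).mul h1
    have h3 : U t * X * NormedSpace.exp (t • (-X)) + U t * (-X * NormedSpace.exp (t • (-X))) = 0 := by
      rw [neg_mul, mul_neg, mul_assoc, add_neg_cancel]
    rw [h3] at h2
    exact h2
  have hconst : ∀ t, U t * NormedSpace.exp (t • (-X)) = 1 := by
    intro t
    have h1 := is_const_of_deriv_eq_zero (f := fun t => U t * NormedSpace.exp (t • (-X)))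
      (fun t => (hG t).differentiableAt) (fun t => (hG t).deriv) t 0
    simp only [zero_smul, NormedSpace.exp_zero, mul_one, h0] at h1
    exact h1
  intro t
  have h1 : NormedSpace.exp (t • (-X)) * NormedSpace.exp (t • X) = 1 := by
    rw [← NormedSpace.exp_add_of_commute_of_mem_ball (𝕂 := ℝ)]
    · rw [smul_neg, neg_add_cancel, NormedSpace.exp_zero]
    · rw [smul_neg]
      exact (Commute.refl _).neg_left
    · exact (NormedSpace.expSeries_radius_eq_top ℝ A).symm ▸ edist_lt_top _ _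
    · exact (NormedSpace.expSeries_radius_eq_top ℝ A).symm ▸ edist_lt_top _ _
  calc U t = U t * (NormedSpace.exp (t • (-X)) * NormedSpace.exp (t • X)) := by rw [h1, mul_one]
    _ = NormedSpace.exp (t • X) := by rw [← mul_assoc, hconst, one_mul]

end banach

theorem one_param {n : ℕ} (U : ℝ → Matrix (Fin n) (Fin n) ℂ) (hU : Continuous U) (h0 : U 0 = 1)
    (hadd : ∀ s t, U (s + t) = U s * U t) : ∃ X : Matrix (Fin n) (Fin n) ℂ, ∀ t : ℝ, U t = NormedSpace.exp (t • X) := by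
  let _ : NormedRing (Matrix (Fin n) (Fin n) ℂ) := Matrix.linftyOpNormedRing
  let _ : NormedAlgebra ℝ (Matrix (Fin n) (Fin n) ℂ) := Matrix.linftyOpNormedAlgebra
  exact one_param_banach U hU h0 hadd

theorem uniq_banach {A : Type*} [NormedRing A] [NormedAlgebra ℝ A] [CompleteSpace A] (X Y : A)
    (h : ∀ t : ℝ, NormedSpace.exp (t • X) = NormedSpace.exp (t • Y)) : X = Y := by
  have h1 := hasDerivAt_exp_smul_const (𝕂 := ℝ) X 0
  have h2 := hasDerivAt_exp_smul_const (𝕂 := ℝ) Y 0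
  have h3 : (fun u : ℝ => NormedSpace.exp (u • X)) = fun u : ℝ => NormedSpace.exp (u • Y) := funext h
  rw [h3] at h1
  have h4 := h1.unique h2
  rw [zero_smul, zero_smul, NormedSpace.exp_zero, one_mul, one_mul] at h4
  exact h4

/-- The generator is unique. -/
theorem uniq {n : ℕ} (X Y : Matrix (Fin n) (Fin n) ℂ)
    (h : ∀ t : ℝ, NormedSpace.exp (t • X) = NormedSpace.exp (t • Y)) : X = Y := by
  let _ : NormedRing (Matrix (Fin n) (Fin n) ℂ) := Matrix.linftyOpNormedRing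
  let _ : NormedAlgebra ℝ (Matrix (Fin n) (Fin n) ℂ) := Matrix.linftyOpNormedAlgebra
  exact uniq_banach X Y h

/-- entrywise conjugation -/
theorem conj_eq {n : ℕ} (X : Matrix (Fin n) (Fin n) ℂ) :
    X.map (starRingEnd ℂ) = X.conjTranspose.transpose := by
  ext i j
  rfl

theorem exp_cj {n : ℕ} (X : Matrix (Fin n) (Fin n) ℂ) :
    NormedSpace.exp (X.map (starRingEnd ℂ)) = (NormedSpace.exp X).map (starRingEnd ℂ) := by
  rw [conj_eq, conj_eq, Matrix.exp_transpose, Matrix.exp_conjTranspose]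

theorem smul_cj {n : ℕ} (t : ℝ) (X : Matrix (Fin n) (Fin n) ℂ) :
    (t • X).map (starRingEnd ℂ) = t • X.map (starRingEnd ℂ) := by
  ext i j
  simp only [Matrix.map_apply, Matrix.smul_apply, Complex.real_smul, map_mul, Complex.conj_ofReal]

theorem I_smul_cj {n : ℕ} (X : Matrix (Fin n) (Fin n) ℂ) :
    (Complex.I • X).map (starRingEnd ℂ) = -(Complex.I • X.map (starRingEnd ℂ)) := by
  ext i j
  simp only [Matrix.map_apply, Matrix.smul_apply, Matrix.neg_apply, smul_eq_mul, map_mul, Complex.conj_I,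
    neg_mul]

theorem mul_cj {n : ℕ} (X Y : Matrix (Fin n) (Fin n) ℂ) :
    (X * Y).map (starRingEnd ℂ) = X.map (starRingEnd ℂ) * Y.map (starRingEnd ℂ) := Matrix.map_mul

/-- If `P exp (t X) P⁻¹ = exp (t Y)` for all `t` then `P X P⁻¹ = Y`. -/
theorem conj_gen {n : ℕ} (P : (Matrix (Fin n) (Fin n) ℂ)ˣ) (X Y : Matrix (Fin n) (Fin n) ℂ)
    (h : ∀ t : ℝ, (P : Matrix (Fin n) (Fin n) ℂ) * NormedSpace.exp (t • X) * ((P⁻¹ : (Matrix (Fin n) (Fin n) ℂ)ˣ) : Matrix (Fin n) (Fin n) ℂ) =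
      NormedSpace.exp (t • Y)) :
    (P : Matrix (Fin n) (Fin n) ℂ) * X * ((P⁻¹ : (Matrix (Fin n) (Fin n) ℂ)ˣ) : Matrix (Fin n) (Fin n) ℂ) = Y := by
  refine uniq _ _ fun t => ?_
  rw [← h t, ← Matrix.exp_units_conj]
  rw [Matrix.mul_smul, Matrix.smul_mul]

end HermAux

/-- A continuous one-parameter group of unitary matrices is `exp (t X)`. A proof of this (theorem in
Pool/Agent/H497/TT/OneP.lean, origin/main) can be copied. -/
theorem cx_exists {G : Type} [Group G] [TopologicalSpace G] (c : CxElt G) {n : ℕ}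
    (ρ : G →* Matrix.unitaryGroup (Fin n) ℂ) (hρ : Continuous ρ) : ∃ A, c.IsMatrix ρ A := by
  have h0 : c.x 0 = 1 := by
    have h := c.add 0 0
    rw [add_zero] at h
    exact (mul_eq_left.mp h.symm)
  have hU : Continuous fun t : ℝ => mat ρ (c.x t) := continuous_subtype_val.comp (hρ.comp c.cont)
  obtain ⟨X, hX⟩ := HermAux.one_param (fun t : ℝ => mat ρ (c.x t)) hU
    (by show mat ρ (c.x 0) = 1; rw [h0]; unfold mat; rw [map_one]; rfl)
    (fun s t => by
      show mat ρ (c.x (s + t)) = mat ρ (c.x s) * mat ρ (c.x t)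
      rw [c.add]
      unfold mat
      rw [map_mul]
      rfl)
  exact ⟨mat ρ c.k * NormedSpace.exp (Complex.I • X), X, hX, rfl⟩

/-- Let `M ρ(g) M⁻¹ = conj ρ(g)` (entrywise conjugation; from `Equi`). For `x t` compare the derivatives at `t = 0`:
`M X M⁻¹ = conj X`, hence `M exp(i X) M⁻¹ = exp(i conj X)`. Also `ρ(w) X ρ(w)⁻¹ = -X` (derivative of
`w x(t) w⁻¹ = x(-t)`) and `ρ(w) ρ(k) ρ(w)⁻¹ = ρ(k)`. So with `A = ρ(k) exp(i X)`: `ρ(w) A ρ(w)⁻¹ = ρ(k) exp(-i X)` and
`M ρ(w) A ρ(w)⁻¹ M⁻¹ = conj ρ(k) exp(-i conj X) = conj A`. So `A` and `conj A` are similar, have the same characteristic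
polynomial, and `(conj A).charpoly = A.charpoly.map conj` (`Matrix.charpoly_map`). -/
theorem herm_real {G : Type} [Group G] [TopologicalSpace G] (c : CxElt G) (hc : c.Hermitian) {n : ℕ}
    (ρ : G →* Matrix.unitaryGroup (Fin n) ℂ) (hsd : Equi (mat ρ) (cmat ρ)) {A : Matrix (Fin n) (Fin n) ℂ}
    (hA : c.IsMatrix ρ A) : A.charpoly.map (starRingEnd ℂ) = A.charpoly := by
  obtain ⟨X, hX, rfl⟩ := hA
  obtain ⟨w, hw1, hw2⟩ := hc
  obtain ⟨T, hT⟩ := hsd
  have mmul : ∀ g h : G, mat ρ (g * h) = mat ρ g * mat ρ h := fun g h => by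
    unfold mat
    rw [map_mul]
    rfl
  have mone : mat ρ 1 = 1 := by
    unfold mat
    rw [map_one]
    rfl
  -- the unit of `w`
  let W : (Matrix (Fin n) (Fin n) ℂ)ˣ := ⟨mat ρ w, mat ρ w⁻¹,
    by rw [← mmul, mul_inv_cancel, mone], by rw [← mmul, inv_mul_cancel, mone]⟩
  -- the unit of `T`
  let M : (Matrix (Fin n) (Fin n) ℂ)ˣ := ⟨LinearMap.toMatrix' (T : (Fin n → ℂ) →ₗ[ℂ] (Fin n → ℂ)),
    LinearMap.toMatrix' (T.symm : (Fin n → ℂ) →ₗ[ℂ] (Fin n → ℂ)), by
      rw [← LinearMap.toMatrix'_comp, LinearEquiv.comp_symm, LinearMap.toMatrix'_id], by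
      rw [← LinearMap.toMatrix'_comp, LinearEquiv.symm_comp, LinearMap.toMatrix'_id]⟩
  have hMv : ∀ v, (M : Matrix (Fin n) (Fin n) ℂ).mulVec v = T v := fun v => by
    show (LinearMap.toMatrix' (T : (Fin n → ℂ) →ₗ[ℂ] (Fin n → ℂ))).mulVec v = T v
    rw [LinearMap.toMatrix'_mulVec]
    rfl
  have hMc : ∀ g, (M : Matrix (Fin n) (Fin n) ℂ) * mat ρ g = cmat ρ g * (M : Matrix (Fin n) (Fin n) ℂ) := by
    intro g
    apply Matrix.mulVec_injective
    funext v
    rw [← Matrix.mulVec_mulVec, ← Matrix.mulVec_mulVec, hMv, hMv, hT]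
  have hMc' : ∀ g, (M : Matrix (Fin n) (Fin n) ℂ) * mat ρ g * ((M⁻¹ : (Matrix (Fin n) (Fin n) ℂ)ˣ) : Matrix (Fin n) (Fin n) ℂ) = cmat ρ g := by
    intro g
    rw [hMc, mul_assoc, Units.mul_inv, mul_one]
  have h1 : (M : Matrix (Fin n) (Fin n) ℂ) * X * ((M⁻¹ : (Matrix (Fin n) (Fin n) ℂ)ˣ) : Matrix (Fin n) (Fin n) ℂ) = X.map (starRingEnd ℂ) := by
    refine HermAux.conj_gen M X _ fun t => ?_
    rw [← HermAux.smul_cj, HermAux.exp_cj, ← hX t, hMc']
    rfl
  have h2 : (W : Matrix (Fin n) (Fin n) ℂ) * X * ((W⁻¹ : (Matrix (Fin n) (Fin n) ℂ)ˣ) : Matrix (Fin n) (Fin n) ℂ) = -X := by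
    refine HermAux.conj_gen W X _ fun t => ?_
    have h3 : t • -X = (-t) • X := by rw [smul_neg, neg_smul]
    rw [h3, ← hX t, ← hX (-t)]
    show mat ρ w * mat ρ (c.x t) * mat ρ w⁻¹ = mat ρ (c.x (-t))
    rw [← mmul, hw2, mmul, mul_assoc, ← mmul, mul_inv_cancel, mone, mul_one]
  have h4 : (W : Matrix (Fin n) (Fin n) ℂ) * mat ρ c.k * ((W⁻¹ : (Matrix (Fin n) (Fin n) ℂ)ˣ) : Matrix (Fin n) (Fin n) ℂ) = mat ρ c.k := by
    show mat ρ w * mat ρ c.k * mat ρ w⁻¹ = mat ρ c.k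
    rw [← mmul, hw1, mmul, mul_assoc, ← mmul, mul_inv_cancel, mone, mul_one]
  -- conjugation by W
  have h5 : (W : Matrix (Fin n) (Fin n) ℂ) * (mat ρ c.k * NormedSpace.exp (Complex.I • X)) *
      ((W⁻¹ : (Matrix (Fin n) (Fin n) ℂ)ˣ) : Matrix (Fin n) (Fin n) ℂ) =
      mat ρ c.k * NormedSpace.exp (-(Complex.I • X)) := by
    have h6 : NormedSpace.exp (-(Complex.I • X)) = (W : Matrix (Fin n) (Fin n) ℂ) * NormedSpace.exp (Complex.I • X) *
        ((W⁻¹ : (Matrix (Fin n) (Fin n) ℂ)ˣ) : Matrix (Fin n) (Fin n) ℂ) := by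
      rw [← Matrix.exp_units_conj, Matrix.mul_smul, Matrix.smul_mul, h2, smul_neg]
    rw [h6]
    conv_rhs => rw [← h4]
    simp only [mul_assoc, Units.inv_mul_cancel_left]
  have h7 : (M : Matrix (Fin n) (Fin n) ℂ) * (mat ρ c.k * NormedSpace.exp (-(Complex.I • X))) *
      ((M⁻¹ : (Matrix (Fin n) (Fin n) ℂ)ˣ) : Matrix (Fin n) (Fin n) ℂ) =
      (mat ρ c.k * NormedSpace.exp (Complex.I • X)).map (starRingEnd ℂ) := by
    have h8 : NormedSpace.exp ((Complex.I • X).map (starRingEnd ℂ)) =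
        (M : Matrix (Fin n) (Fin n) ℂ) * NormedSpace.exp (-(Complex.I • X)) *
        ((M⁻¹ : (Matrix (Fin n) (Fin n) ℂ)ˣ) : Matrix (Fin n) (Fin n) ℂ) := by
      rw [← Matrix.exp_units_conj, HermAux.I_smul_cj, mul_neg, neg_mul, Matrix.mul_smul, Matrix.smul_mul, h1]
    rw [HermAux.mul_cj, ← HermAux.exp_cj, h8]
    have h9 : (mat ρ c.k).map (starRingEnd ℂ) = cmat ρ c.k := rfl
    rw [h9, ← hMc']
    simp only [mul_assoc, Units.inv_mul_cancel_left]
  have cu : ∀ (P : (Matrix (Fin n) (Fin n) ℂ)ˣ) (B : Matrix (Fin n) (Fin n) ℂ),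
      ((P : Matrix (Fin n) (Fin n) ℂ) * B * ((P⁻¹ : (Matrix (Fin n) (Fin n) ℂ)ˣ) : Matrix (Fin n) (Fin n) ℂ)).charpoly =
        B.charpoly := fun P B => by
    rw [Matrix.coe_units_inv]
    exact Matrix.charpoly_units_conj P B
  rw [← Matrix.charpoly_map, ← h7, cu, ← h5, cu]


end Pool.Agent.H497.TU
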