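import Pool.Agent.H497.TU.Final0

set_option autoImplicit false



namespace Pool.Agent.H497.TU

open MeasureTheory Polynomial Pool.Agent.H497.TT



/- to be proved -/

/- Transport of `mainU0` along the bijection `e : ℕ ≃ ι`: apply `mainU0` to `fun k => n (e k)`, `fun k => ρ (e k)`;
`N0 i := N0' (e.symm i)`; for the conclusion write `i = e k` (`e.surjective`). -/
open Classical in
theorem mainIdx {σ δ : ℝ} (hσ : 1 / 2 ≤ σ) (hσ1 : σ < 1) (hδ : 0 < δ) :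
    ∃ ν : ℕ, ∀ {𝓟 𝓧 : Type} (S : TSys 𝓟 𝓧) (G : Type) [Group G] [TopologicalSpace G] [IsTopologicalGroup G]
    [CompactSpace G] [T2Space G], GeneratedByOneParameter G →
    ∀ (ι : Type) (_ : ℕ ≃ ι) (n : ι → ℕ) (ρ : (i : ι) → G →* Matrix.unitaryGroup (Fin (n i)) ℂ),
    (∀ i, Continuous (ρ i)) → (∀ i, Irr (ρ i)) → (∀ i, ∃ g, ρ i g ≠ 1) →
    (∀ i j, i ≠ j → ¬ Equi (mat (ρ i)) (mat (ρ j)) ∧ ¬ Equi (mat (ρ i)) (cmat (ρ j))) →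
    ∀ (T : Set 𝓟) (C : ℕ), (∀ k : ℕ, k ≠ 0 → (k : ℝ) * (TPr S T k).card ≤ C * √(S.q : ℝ) ^ k) →
    ∃ N0 : ι → ℕ, ∀ (N : ι → 𝓧 → ℕ) (W : ι → 𝓧 → ℂ),
    (∀ i χ, ν * (S.a + 1) * (S.c χ + 1) + N0 i ≤ N i χ ∧ S.per χ ∣ N i χ ∧ ‖W i χ‖ = 1) →
    (∀ i, Equi (mat (ρ i)) (cmat (ρ i)) → ∀ χ, N i (S.bar χ) = N i χ ∧ W i (S.bar χ) = starRingEnd ℂ (W i χ)) →
    ∀ (h : 𝓟 → ℝ), (∀ P, 1 ≤ h P) → (∀ P, h P ≤ (S.q : ℝ) ^ (σ * S.deg P)) →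
    (∀ k : ℕ, k ≠ 0 → (k : ℝ) * ∑ P ∈ TPr S T k, h P ≤ C * (S.q : ℝ) ^ (σ * k)) →
    ∀ B : (i : ι) → 𝓟 → Matrix (Fin (n i)) (Fin (n i)) ℂ,
    (∀ i P, P ∈ T → ∀ z, (B i P).charpoly.IsRoot z → ‖z‖ ≤ h P) →
    (∀ i P, P ∈ T → Equi (mat (ρ i)) (cmat (ρ i)) → (B i P).charpoly.map (starRingEnd ℂ) = (B i P).charpoly) →
    ∃ g : 𝓟 → G, ∀ (i : ι) (χ : 𝓧), ∃ L : ℂ[X], Nice S.q (N i χ) (W i χ) (σ - 1 / 2 + δ) L ∧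
      ∀ u : ℂ, ‖u‖ < 1 / S.q → HasProd (fun P : 𝓟 => ∏ j,
        (1 - (S.par χ P j * u ^ S.deg P) • (if P ∈ T then B i P else mat (ρ i) (g P))).det⁻¹) (L.eval u) := by
  obtain ⟨ν, hν⟩ := mainU0 hσ hσ1 hδ
  refine ⟨ν, ?_⟩
  intro 𝓟 𝓧 S G _ _ _ _ _ hG ι e n ρ hρc hρi hρn hρe T C hTC
  obtain ⟨N0, hN0⟩ := hν S G hG (fun k => n (e k)) (fun k => ρ (e k)) (fun k => hρc (e k)) (fun k => hρi (e k))
    (fun k => hρn (e k)) (fun i j hij => hρe (e i) (e j) (e.injective.ne hij)) T C hTC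
  refine ⟨fun i => N0 (e.symm i), ?_⟩
  intro N W hN hbar h h1 h2 h3 B hB1 hB2
  obtain ⟨g, hg⟩ := hN0 (fun k => N (e k)) (fun k => W (e k))
    (fun k χ => by
      have hk := hN (e k) χ
      simp only [Equiv.symm_apply_apply] at hk
      exact hk)
    (fun k hk χ => hbar (e k) hk χ) h h1 h2 h3 (fun k => B (e k)) (fun k P hP z hz => hB1 (e k) P hP z hz)
    (fun k P hP hk => hB2 (e k) P hP hk)
  refine ⟨g, ?_⟩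
  intro i χ
  obtain ⟨k, rfl⟩ := e.surjective i
  exact hg k χ


end Pool.Agent.H497.TU
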